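import Mathlib
import Pool.Agent.Helper278.DefsG
import Pool.Agent.Helper278.CEStmt

set_option autoImplicit false

open scoped InnerProductSpace Topology ComplexOrder
open Filter

namespace Pool.Agent.Helper159.ET

open Pool.Agent.Helper278

/-- `(M, σ)` is a tracial von Neumann algebra: `σ` is a faithful normal tracial state. -/
structure IsTracialVN {K : Type} [NormedAddCommGroup K] [InnerProductSpace ℂ K] [CompleteSpace K]
    (M : VonNeumannAlgebra K) (σ : Elt M → ℂ) : Prop where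
  trace : IsFaithfulTrace σ
  normal : IsNormalPositive M σ

/-- A linear map `φ : N → N` is completely positive. -/
def IsCP {H : Type} [NormedAddCommGroup H] [InnerProductSpace ℂ H] [CompleteSpace H]
    (N : VonNeumannAlgebra H) (φ : Elt N →ₗ[ℂ] Elt N) : Prop :=
  ∀ (k : ℕ) (a : Fin k → Elt N) (ξ : Fin k → H),
    0 ≤ ∑ i, ∑ j, ⟪ξ i, (φ (star (a i) * a j) : H →L[ℂ] H) (ξ j)⟫_ℂ

/-- A positive linear map `φ : N → N` is normal: it pulls vector states back to normal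
functionals. -/
def IsNormalMap {H : Type} [NormedAddCommGroup H] [InnerProductSpace ℂ H] [CompleteSpace H]
    (N : VonNeumannAlgebra H) (φ : Elt N →ₗ[ℂ] Elt N) : Prop :=
  ∀ ξ : H, IsNormalPositive N (fun x => ⟪ξ, (φ x : H →L[ℂ] H) ξ⟫_ℂ)

/-- `φ` induces a compact operator on `L²(N)`: the image of the unit ball of the 2-norm is totally
bounded for the 2-norm. -/
def IsL2Compact {H : Type} [NormedAddCommGroup H] [InnerProductSpace ℂ H] [CompleteSpace H]
    (N : VonNeumannAlgebra H) (τ : Elt N → ℂ) (φ : Elt N →ₗ[ℂ] Elt N) : Prop :=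
  ∀ ε : ℝ, 0 < ε → ∃ F : Finset (Elt N), ∀ x : Elt N, norm2 τ x ≤ 1 →
    ∃ y ∈ F, norm2 τ (φ x - y) < ε

/-- The Haagerup property of `(N, τ)` (with a sequence of maps). -/
def HasHaagerup {H : Type} [NormedAddCommGroup H] [InnerProductSpace ℂ H] [CompleteSpace H]
    (N : VonNeumannAlgebra H) (τ : Elt N → ℂ) : Prop :=
  ∃ φ : ℕ → Elt N →ₗ[ℂ] Elt N,
    (∀ n, IsCP N (φ n) ∧ IsNormalMap N (φ n) ∧ φ n 1 = 1 ∧ (∀ x, τ (φ n x) = τ x) ∧
      IsL2Compact N τ (φ n)) ∧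
    ∀ x, Tendsto (fun n => norm2 τ (φ n x - x)) atTop (𝓝 0)

/-- A Hilbert `M`-`M`-bimodule: commuting normal representations of `M` (the left action `L`) and
of the opposite algebra (the right action `R`). -/
structure IsBimodule {K : Type} [NormedAddCommGroup K] [InnerProductSpace ℂ K] [CompleteSpace K]
    (M : VonNeumannAlgebra K) {H : Type} [NormedAddCommGroup H] [InnerProductSpace ℂ H]
    [CompleteSpace H] (L : Elt M →⋆ₐ[ℂ] (H →L[ℂ] H)) (R : (Elt M)ᵐᵒᵖ →⋆ₐ[ℂ] (H →L[ℂ] H)) :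
    Prop where
  comm : ∀ x y, L x * R y = R y * L x
  normal_left : ∀ ξ : H, IsNormalPositive M (fun x => ⟪ξ, L x ξ⟫_ℂ)
  normal_right : ∀ ξ : H, IsNormalPositive M (fun x => ⟪ξ, R (MulOpposite.op x) ξ⟫_ℂ)

/-- Property (T) of the tracial von Neumann algebra `M`. -/
def HasT {K : Type} [NormedAddCommGroup K] [InnerProductSpace ℂ K] [CompleteSpace K]
    (M : VonNeumannAlgebra K) : Prop :=
  ∃ (F : Finset (Elt M)) (δ : ℝ), 0 < δ ∧
    ∀ (H : Type) [NormedAddCommGroup H] [InnerProductSpace ℂ H] [CompleteSpace H]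
      (L : Elt M →⋆ₐ[ℂ] (H →L[ℂ] H)) (R : (Elt M)ᵐᵒᵖ →⋆ₐ[ℂ] (H →L[ℂ] H)), IsBimodule M L R →
      (∃ ξ : H, ‖ξ‖ = 1 ∧ ∀ x ∈ F, ‖L x ξ - R (MulOpposite.op x) ξ‖ < δ) →
      ∃ η : H, η ≠ 0 ∧ ∀ x, L x η = R (MulOpposite.op x) η

/-- The trace preserving embedding `ι` of `(A, τ)` in `(B, σ)` is existential: there is a trace
preserving embedding `θ` of `B` in the tracial ultrapower `A^U` whose restriction to `A` is the
diagonal embedding. -/
def IsExistential (U : Ultrafilter ℕ) {A : Type} [CStarAlgebra A] (τ : A → ℂ) {B : Type}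
    [CStarAlgebra B] (σ : B → ℂ) (ι : A →⋆ₐ[ℂ] B) : Prop :=
  (∀ x, σ (ι x) = τ x) ∧
    ∃ (Q : Type) (_ : Ring Q) (_ : StarRing Q) (_ : Algebra ℂ Q) (π : (ℕ → A) → Q) (φ : Q → ℂ)
      (θ : B →⋆ₐ[ℂ] Q),
      CE.IsTracialUltrapower τ U π φ ∧ (∀ y, φ (θ y) = σ y) ∧ ∀ x, θ (ι x) = π (fun _ => x)

end Pool.Agent.Helper159.ET
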