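import Mathlib
import Pool.Agent.Helper159.ET.Defs

set_option autoImplicit false

open scoped InnerProductSpace Topology ComplexOrder
open Filter

namespace Pool.Agent.Helper159.ET

open Pool.Agent.Helper278

/-- A von Neumann algebra `N` on a Hilbert space `H` together with a functional `τ` on `N`. -/
structure VNA where
  /-- the Hilbert space -/
  H : Type
  [i1 : NormedAddCommGroup H]
  [i2 : InnerProductSpace ℂ H]
  [i3 : CompleteSpace H]
  /-- the von Neumann algebra -/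
  N : VonNeumannAlgebra H
  /-- the functional -/
  τ : Elt N → ℂ

attribute [instance] VNA.i1 VNA.i2 VNA.i3

/-- The algebra of the elements of the von Neumann algebra. -/
def Alg (X : VNA) : Type := Elt X.N

/-- the C*-algebra structure -/
noncomputable instance (X : VNA) : CStarAlgebra (Alg X) := CE.cstarElt X.N

/-- the operator of an element -/
def opr {X : VNA} (x : Alg X) : X.H →L[ℂ] X.H := Subtype.val x

/-- the functional of `X` -/
def tr (X : VNA) (x : Alg X) : ℂ := X.τ x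

/-- `f` is a normal positive functional: a countable sum of vector functionals. -/
def IsNormalFun (X : VNA) (f : Alg X → ℂ) : Prop :=
  ∃ ξ : ℕ → X.H, Summable (fun k => ‖ξ k‖ ^ 2) ∧ ∀ x : Alg X, f x = ∑' k, ⟪ξ k, opr x (ξ k)⟫_ℂ

/-- A map `φ : N → N` is completely positive. -/
def CPMap (X : VNA) (φ : Alg X → Alg X) : Prop :=
  ∀ (k : ℕ) (a : Fin k → Alg X) (ξ : Fin k → X.H),
    0 ≤ ∑ i, ∑ j, ⟪ξ i, opr (φ (star (a i) * a j)) (ξ j)⟫_ℂ

/-- A positive map `φ : N → N` is normal: it pulls vector states back to normal functionals. -/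
def NormalMap (X : VNA) (φ : Alg X → Alg X) : Prop :=
  ∀ ξ : X.H, IsNormalFun X (fun x => ⟪ξ, opr (φ x) ξ⟫_ℂ)

/-- `φ` induces a compact operator on `L²(N)`: the image of the unit ball of the 2-norm is totally
bounded for the 2-norm. -/
def L2Compact (X : VNA) (φ : Alg X → Alg X) : Prop :=
  ∀ ε : ℝ, 0 < ε → ∃ F : Finset (Alg X), ∀ x : Alg X, norm2 (tr X) x ≤ 1 →
    ∃ y ∈ F, norm2 (tr X) (φ x - y) < ε

/-- The Haagerup property of `(N, τ)` (with a sequence of maps). -/
def Haagerup (X : VNA) : Prop :=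
  ∃ φ : ℕ → Alg X →ₗ[ℂ] Alg X,
    (∀ n, CPMap X (φ n) ∧ NormalMap X (φ n) ∧ φ n 1 = 1 ∧ (∀ x, tr X (φ n x) = tr X x) ∧
      L2Compact X (φ n)) ∧
    ∀ x, Tendsto (fun n => norm2 (tr X) (φ n x - x)) atTop (𝓝 0)

/-- the bounded operators on a Hilbert space -/
def BH (H : Type) [NormedAddCommGroup H] [InnerProductSpace ℂ H] [CompleteSpace H] : Type :=
  H →L[ℂ] H

section

variable {H : Type} [NormedAddCommGroup H] [InnerProductSpace ℂ H] [CompleteSpace H]

/-- the C*-algebra of bounded operators -/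
noncomputable def cstarBH (H : Type) [NormedAddCommGroup H] [InnerProductSpace ℂ H]
    [CompleteSpace H] : CStarAlgebra (H →L[ℂ] H) := inferInstance

noncomputable instance instBH : CStarAlgebra (BH H) := cstarBH H

/-- the operator -/
def BH.toCLM (T : BH H) : H →L[ℂ] H := T

/-- application of an operator to a vector -/
def BH.ap (T : BH H) (ξ : H) : H := T.toCLM ξ

end

/-- A Hilbert space with a representation of `M` (the left action `L`) and a representation of the
opposite algebra (the right action `R`). -/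
structure BiRep (M : VNA) where
  /-- the Hilbert space -/
  H : Type
  [i1 : NormedAddCommGroup H]
  [i2 : InnerProductSpace ℂ H]
  [i3 : CompleteSpace H]
  /-- the left action -/
  L : Alg M →⋆ₐ[ℂ] BH H
  /-- the right action -/
  R : (Alg M)ᵐᵒᵖ →⋆ₐ[ℂ] BH H

attribute [instance] BiRep.i1 BiRep.i2 BiRep.i3

/-- left multiplication of a vector -/
noncomputable def BiRep.lm {M : VNA} (B : BiRep M) (x : Alg M) (ξ : B.H) : B.H := (B.L x).ap ξ

/-- right multiplication of a vector -/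
noncomputable def BiRep.rm {M : VNA} (B : BiRep M) (ξ : B.H) (x : Alg M) : B.H :=
  (B.R (MulOpposite.op x)).ap ξ

/-- the functional `x ↦ ⟨ξ, x ξ⟩` -/
noncomputable def BiRep.lf {M : VNA} (B : BiRep M) (ξ : B.H) (x : Alg M) : ℂ := ⟪ξ, B.lm x ξ⟫_ℂ

/-- the functional `x ↦ ⟨ξ, ξ x⟩` -/
noncomputable def BiRep.rf {M : VNA} (B : BiRep M) (ξ : B.H) (x : Alg M) : ℂ := ⟪ξ, B.rm ξ x⟫_ℂ

/-- `B` is a Hilbert `M`-`M`-bimodule: the two actions commute and are normal. -/
structure BiRep.IsBimodule {M : VNA} (B : BiRep M) : Prop where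
  comm : ∀ x y ξ, B.lm x (B.rm ξ y) = B.rm (B.lm x ξ) y
  normal_left : ∀ ξ, IsNormalFun M (B.lf ξ)
  normal_right : ∀ ξ, IsNormalFun M (B.rf ξ)

/-- Property (T) of the tracial von Neumann algebra `M`. -/
def PropT (M : VNA) : Prop :=
  ∃ (F : Finset (Alg M)) (δ : ℝ), 0 < δ ∧ ∀ B : BiRep M, B.IsBimodule →
    (∃ ξ : B.H, ‖ξ‖ = 1 ∧ ∀ x ∈ F, ‖B.rm ξ x - B.lm x ξ‖ < δ) →
      ∃ η : B.H, η ≠ 0 ∧ ∀ x, B.lm x η = B.rm η x

theorem propT_of_hasT {K : Type} [NormedAddCommGroup K] [InnerProductSpace ℂ K]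
    [CompleteSpace K] {M : VonNeumannAlgebra K} (σ : Elt M → ℂ) (h : HasT M) :
    PropT ⟨K, M, σ⟩ := by
  obtain ⟨F, δ, hδ, h⟩ := h
  refine ⟨F, δ, hδ, fun B hB hξ => ?_⟩
  obtain ⟨ξ, h1, h2⟩ := hξ
  refine h B.H B.L B.R ⟨fun x y => ?_, hB.normal_left, hB.normal_right⟩
    ⟨ξ, h1, fun x hx => ?_⟩
  · refine ContinuousLinearMap.ext fun ζ => ?_
    exact hB.comm x (MulOpposite.unop y) ζ
  · have h3 := h2 x hx
    rw [norm_sub_rev] at h3
    exact h3

theorem haagerup_of {K : Type} [NormedAddCommGroup K] [InnerProductSpace ℂ K]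
    [CompleteSpace K] {M : VonNeumannAlgebra K} (σ : Elt M → ℂ) (h : HasHaagerup M σ) :
    Haagerup ⟨K, M, σ⟩ := by
  obtain ⟨φ, h1, h2⟩ := h
  exact ⟨φ, h1, h2⟩

end Pool.Agent.Helper159.ET
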