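import Mathlib
import Pool.Agent.Helper159.ET.Defs
import Pool.Agent.Helper436.SM.Pauli
import Pool.Agent.Helper436.SM.ExR
import Pool.Agent.Helper278.TB.Defs

set_option autoImplicit false

open scoped InnerProductSpace Topology ComplexOrder BoundedContinuousFunction
open Filter

namespace Pool.Agent.Helper159.ET

open Pool.Agent.Helper278 Pool.Agent.Helper436.SM Pool.Agent.Helper436.SM.ExR
open Pool.Agent.Helper278.TB (HP)

/-- the field with 256 elements -/
abbrev KF : Type := GaloisField 2 8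

noncomputable instance : Fintype KF := Fintype.ofFinite _
noncomputable instance : DecidableEq KF := Classical.decEq _

theorem card_KF : Fintype.card KF = 256 := by
  rw [← Nat.card_eq_fintype_card, GaloisField.card 2 8 (by norm_num)]
  norm_num

/-- a basis over the prime field -/
noncomputable def bK : Module.Basis (Fin 8) (ZMod 2) KF :=
  Module.finBasisOfFinrankEq (ZMod 2) KF (GaloisField.finrank 2 (by norm_num))

/-- a nonzero functional -/
noncomputable def lam : KF →ₗ[ZMod 2] ZMod 2 := bK.coord 0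

/-- the pairing -/
noncomputable def pr {S : Type} [Fintype S] (f g : S → KF) : ZMod 2 := lam (∑ x, f x * g x)

/-- the string of `X`-type given by `f` -/
noncomputable def xs {S : Type} [Fintype S] (s : S × Fin 8 → ℕ) (f : S → KF) : VV :=
  ∑ x : S × Fin 8, Finsupp.single (s x) (bK.repr (f x.1) x.2, 0)

/-- the string of `Z`-type given by `f` -/
noncomputable def zs {S : Type} [Fintype S] (s : S × Fin 8 → ℕ) (f : S → KF) : VV :=
  ∑ x : S × Fin 8, Finsupp.single (s x) (0, lam (f x.1 * bK x.2))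

/-- the Pauli unitaries of `R` -/
noncomputable def Wn (v : VV) : Elt NP := ⟨Wo v, Wo_mem v⟩

section lines

variable {Z : Type} [AddCommGroup Z] [DecidableEq Z]

/-- delta function -/
noncomputable def dl (p : Fin 3 × Z) (c : KF) : Fin 3 × Z → KF := Pi.single p c

omit [DecidableEq Z] in
theorem fin3_ne (i : Fin 3) : i + 1 ≠ i := by revert i; decide

/-- the elementary matrix `e_{i,i+1}(c t^a)` -/
noncomputable def el (i : Fin 3) (a : Z) (c : KF) : Equiv.Perm (Fin 3 × Z → KF) where
  toFun f x := f x + if x.1 = i then c * f (i + 1, x.2 - a) else 0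
  invFun f x := f x - if x.1 = i then c * f (i + 1, x.2 - a) else 0
  left_inv f := by
    funext x
    by_cases hx : x.1 = i
    · simp [hx, fin3_ne i]
    · simp [hx]
  right_inv f := by
    funext x
    by_cases hx : x.1 = i
    · simp [hx, fin3_ne i]
    · simp [hx]

/-- indices of the lines -/
abbrev LI : Type := Bool ⊕ (Fin 3 × Fin 3)

/-- the lines -/
noncomputable def ln {X : Type} [Group X] (P : Equiv.Perm (Fin 3 × Z → KF) →* X)
    (ZZ : (Fin 3 × Z → KF) → X) (t : Fin 3 → Z) : LI → KF → X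
  | Sum.inl true => fun c => P (Equiv.addLeft (dl (0, 0) c))
  | Sum.inl false => fun c => ZZ (dl (0, 0) c)
  | Sum.inr p => fun c => P (el p.1 (t p.2) c)

/-- the relations between the permutation unitaries and the `Z`-type unitaries -/
structure LvlRel [Fintype Z] {X : Type} [Group X] (P : Equiv.Perm (Fin 3 × Z → KF) →* X)
    (ZZ : (Fin 3 × Z → KF) → X) : Prop where
  ZZ_add : ∀ f g, ZZ (f + g) = ZZ f * ZZ g
  PZ : ∀ (σ : Equiv.Perm (Fin 3 × Z → KF)) f f', (∀ g, pr f' (σ g) = pr f g) →
    P σ * ZZ f = ZZ f' * P σ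
  XZ : ∃ sn : ZMod 2 → X, (∀ a b, sn (a + b) = sn a * sn b) ∧ (∀ a x, sn a * x = x * sn a) ∧
    ∀ f g, P (Equiv.addLeft f) * ZZ g = sn (pr g f) * (ZZ g * P (Equiv.addLeft f))

end lines

/-- enumeration of the integers: `|k| ≤ n` iff `zig k < 2 n + 1` -/
def zig (k : ℤ) : ℕ := if 0 ≤ k then 2 * k.toNat else 2 * (-k).toNat - 1

/-- the positions of the qubits of the sites of level `n` -/
def sn (n : ℕ) (x : (Fin 3 × ZMod (2 * n + 1)) × Fin 8) : ℕ :=
  24 * zig (x.1.2.valMinAbs) + 8 * (x.1.1 : ℕ) + (x.2 : ℕ)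

/-- the shifts `1, t, t⁻¹` -/
def tt (n : ℕ) (a : Fin 3) : ZMod (2 * n + 1) := if a = 0 then 0 else if a = 1 then 1 else -1

/-- constant strings -/
noncomputable def Xv (i : Fin 3) (k : ℤ) (c : KF) : VV :=
  ∑ j : Fin 8, Finsupp.single (24 * zig k + 8 * (i : ℕ) + (j : ℕ)) (bK.repr c j, 0)

noncomputable def Zv (i : Fin 3) (k : ℤ) (c : KF) : VV :=
  ∑ j : Fin 8, Finsupp.single (24 * zig k + 8 * (i : ℕ) + (j : ℕ)) (0, lam (c * bK j))

end Pool.Agent.Helper159.ET
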