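import Mathlib
import Pool.Agent.Helper159.ET.G

set_option autoImplicit false

open scoped InnerProductSpace Topology ComplexOrder BoundedContinuousFunction
open Filter

namespace Pool.Agent.Helper159.ET.G0

open Pool.Agent.Helper278 Pool.Agent.Helper436.SM Pool.Agent.Helper436.SM.ExR
open Pool.Agent.Helper278.TB (HP)

section gates0aux

theorem g0_sg_add (a b : ZMod 2) : Pool.Agent.Helper436.SM.sg (a + b) = sg a * sg b := by
  have h : ∀ x : ZMod 2, x = 0 ∨ x = 1 := by decide
  have h11 : (1 : ZMod 2) + 1 = 0 := by decide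
  rcases h a with rfl | rfl <;> rcases h b with rfl | rfl <;>
    simp [Pool.Agent.Helper436.SM.sg, h11]

theorem g0_sg_zero : Pool.Agent.Helper436.SM.sg 0 = 1 := by simp [Pool.Agent.Helper436.SM.sg]

theorem g0_star_sg (a : ZMod 2) : star (sg a) = sg a := by
  unfold Pool.Agent.Helper436.SM.sg
  split_ifs <;> simp

/-- additivity in the first variable -/
noncomputable def g0bfl (w : VV) : VV →+ ZMod 2 where
  toFun v := bf v w
  map_zero' := by simp [bf]
  map_add' v v' := by
    unfold bf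
    rw [Finsupp.sum_add_index']
    · intro i; simp
    · intro i a b; simp [add_mul]

theorem g0_bf_single (i : ℕ) (a : ZMod 2 × ZMod 2) (w : VV) :
    bf (Finsupp.single i a) w = a.2 * (w i).1 := by
  unfold bf
  rw [Finsupp.sum_single_index]
  simp

variable {T : Type} [Fintype T]

noncomputable def g0xv (s : T → ℕ) (a : T → ZMod 2) : VV := ∑ t, Finsupp.single (s t) (a t, 0)
noncomputable def g0zv (s : T → ℕ) (a : T → ZMod 2) : VV := ∑ t, Finsupp.single (s t) (0, a t)

theorem g0_bf_xv (s : T → ℕ) (a : T → ZMod 2) (w : VV) : bf (g0xv s a) w = 0 := by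
  have : bf (g0xv s a) w = g0bfl w (g0xv s a) := rfl
  rw [this]
  unfold g0xv
  rw [map_sum]
  apply Finset.sum_eq_zero
  intro i _
  show bf _ w = 0
  rw [g0_bf_single]
  simp

theorem g0_bf_zv (s : T → ℕ) (a : T → ZMod 2) (w : VV) :
    bf (g0zv s a) w = ∑ t, a t * (w (s t)).1 := by
  have : bf (g0zv s a) w = g0bfl w (g0zv s a) := rfl
  rw [this]
  unfold g0zv
  rw [map_sum]
  apply Finset.sum_congr rfl
  intro i _
  show bf _ w = _
  rw [g0_bf_single]

theorem g0_xv_at (s : T → ℕ) (hs : Function.Injective s) (a : T → ZMod 2) (t : T) :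
    g0xv s a (s t) = (a t, 0) := by
  unfold g0xv
  rw [Finsupp.finsetSum_apply, Finset.sum_eq_single t]
  · simp
  · intro k _ hk
    rw [Finsupp.single_apply, if_neg]
    intro h
    exact hk (hs h)
  · simp

theorem g0_zv_fst (s : T → ℕ) (a : T → ZMod 2) (j : ℕ) : (g0zv s a j).1 = 0 := by
  unfold g0zv
  rw [Finsupp.finsetSum_apply, Prod.fst_sum]
  apply Finset.sum_eq_zero
  intro k _
  rw [Finsupp.single_apply]
  split_ifs <;> rfl

theorem g0_xv_add (s : T → ℕ) (a b : T → ZMod 2) : g0xv s (a + b) = g0xv s a + g0xv s b := by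
  unfold g0xv
  rw [← Finset.sum_add_distrib]
  apply Finset.sum_congr rfl
  intro i _
  rw [← Finsupp.single_add]
  simp

theorem g0_zv_add (s : T → ℕ) (a b : T → ZMod 2) : g0zv s (a + b) = g0zv s a + g0zv s b := by
  unfold g0zv
  rw [← Finset.sum_add_distrib]
  apply Finset.sum_congr rfl
  intro i _
  rw [← Finsupp.single_add]
  simp

theorem g0_xv_zero (s : T → ℕ) : g0xv s (0 : T → ZMod 2) = 0 := by
  unfold g0xv
  apply Finset.sum_eq_zero
  intro i _
  exact Finsupp.single_zero _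

theorem g0_zv_zero (s : T → ℕ) : g0zv s (0 : T → ZMod 2) = 0 := by
  unfold g0zv
  apply Finset.sum_eq_zero
  intro i _
  exact Finsupp.single_zero _

theorem g0_bf_right_zero (v w : VV) (h : ∀ j, (w j).1 = 0) : bf v w = 0 := by
  unfold bf Finsupp.sum
  apply Finset.sum_eq_zero
  intro j _
  show (v j).2 * (w j).1 = 0
  rw [h j, mul_zero]

theorem g0_bf_zv_right (s : T → ℕ) (v : VV) (b : T → ZMod 2) : bf v (g0zv s b) = 0 :=
  g0_bf_right_zero _ _ (g0_zv_fst s b)

def g0dt (b a : T → ZMod 2) : ZMod 2 := ∑ i, b i * a i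

theorem g0_bf_zv_xv (s : T → ℕ) (hs : Function.Injective s) (b a : T → ZMod 2) :
    bf (g0zv s b) (g0xv s a) = g0dt b a := by
  rw [g0_bf_zv]
  unfold g0dt
  apply Finset.sum_congr rfl
  intro i _
  rw [g0_xv_at s hs]

theorem g0_dt_add_left (b b' a : T → ZMod 2) : g0dt (b + b') a = g0dt b a + g0dt b' a := by
  unfold g0dt
  rw [← Finset.sum_add_distrib]
  apply Finset.sum_congr rfl
  intro i _
  simp [add_mul]

theorem g0_dt_add_right (b a a' : T → ZMod 2) : g0dt b (a + a') = g0dt b a + g0dt b a' := by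
  unfold g0dt
  rw [← Finset.sum_add_distrib]
  apply Finset.sum_congr rfl
  intro i _
  simp [mul_add]

theorem g0_dt_comm (b a : T → ZMod 2) : g0dt b a = g0dt a b := by
  unfold g0dt
  apply Finset.sum_congr rfl
  intro i _
  ring

theorem g0_dt_zero_left (a : T → ZMod 2) : g0dt 0 a = 0 := by simp [g0dt]

omit [Fintype T] in
theorem g0_add_self (a : T → ZMod 2) : a + a = 0 := by
  funext i
  exact CharTwo.add_self_eq_zero _

variable [DecidableEq T]

theorem g0_char_sum (a : T → ZMod 2) :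
    ∑ b : T → ZMod 2, Pool.Agent.Helper436.SM.sg (g0dt b a) = if a = 0 then 2 ^ (Fintype.card T) else 0 := by
  split_ifs with h
  · subst h
    have : ∀ b : T → ZMod 2, Pool.Agent.Helper436.SM.sg (g0dt b 0) = 1 := by
      intro b
      rw [g0_dt_comm, g0_dt_zero_left, g0_sg_zero]
    simp [this]
  · obtain ⟨i, hi⟩ : ∃ i, a i ≠ 0 := by
      by_contra hc
      push Not at hc
      exact h (funext hc)
    have h1 : g0dt (Pi.single i 1) a = a i := by
      unfold g0dt
      rw [Finset.sum_eq_single i]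
      · simp
      · intro k _ hk
        simp [Pi.single_eq_of_ne hk]
      · simp
    have h2 : Pool.Agent.Helper436.SM.sg (g0dt (Pi.single i 1) a) = -1 := by
      rw [h1]
      unfold Pool.Agent.Helper436.SM.sg
      rw [if_neg hi]
    have h3 : ∑ b : T → ZMod 2, Pool.Agent.Helper436.SM.sg (g0dt b a) =
        ∑ b : T → ZMod 2, Pool.Agent.Helper436.SM.sg (g0dt (b + Pi.single i 1) a) :=
      (Equiv.sum_comp (Equiv.addRight (Pi.single i (1 : ZMod 2) : T → ZMod 2))
        (fun b : T → ZMod 2 => Pool.Agent.Helper436.SM.sg (g0dt b a))).symm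
    have h4 : ∑ b : T → ZMod 2, Pool.Agent.Helper436.SM.sg (g0dt (b + Pi.single i 1) a) =
        - ∑ b : T → ZMod 2, Pool.Agent.Helper436.SM.sg (g0dt b a) := by
      rw [← Finset.sum_neg_distrib]
      apply Finset.sum_congr rfl
      intro b _
      rw [g0_dt_add_left, g0_sg_add, h2]
      ring
    rw [h4] at h3
    linear_combination (1 / 2 : ℂ) * h3

variable {A : Type} [Ring A] [StarRing A] [Algebra ℂ A] [StarModule ℂ A]
    {τ : A →ₗ[ℂ] ℂ} {W : VV → A}

omit [StarModule ℂ A] [DecidableEq T] in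
theorem g0_XW (h : PauliSys τ W) (s : T → ℕ) (a : T → ZMod 2) (w : VV) :
    W (g0xv s a) * W w = W (g0xv s a + w) := by
  rw [h.mul, g0_bf_xv, g0_sg_zero, one_smul]

omit [StarModule ℂ A] [DecidableEq T] in
theorem g0_WZ (h : PauliSys τ W) (s : T → ℕ) (b : T → ZMod 2) (w : VV) :
    W w * W (g0zv s b) = W (w + g0zv s b) := by
  rw [h.mul, g0_bf_zv_right, g0_sg_zero, one_smul]

noncomputable def g0E (s : T → ℕ) (W : VV → A) (c : T → ZMod 2) : A :=
  ((2 : ℂ) ^ (Fintype.card T))⁻¹ • ∑ b : T → ZMod 2, Pool.Agent.Helper436.SM.sg (g0dt b c) • W (g0zv s b)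

omit [StarModule ℂ A] in
theorem g0_E_mul_X (h : PauliSys τ W) (s : T → ℕ) (hs : Function.Injective s)
    (c a : T → ZMod 2) :
    g0E s W c * W (g0xv s a) = W (g0xv s a) * g0E s W (c + a) := by
  unfold g0E
  rw [smul_mul_assoc, mul_smul_comm, Finset.sum_mul, Finset.mul_sum]
  congr 1
  apply Finset.sum_congr rfl
  intro b _
  rw [smul_mul_assoc, mul_smul_comm, g0_XW h, h.mul, g0_bf_zv_xv s hs, smul_smul, ← g0_sg_add,
    g0_dt_add_right, add_comm (g0zv s b)]

omit [StarModule ℂ A] in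
theorem g0_E_mul_E (h : PauliSys τ W) (s : T → ℕ) (a a' : T → ZMod 2) :
    g0E s W a * g0E s W a' = if a = a' then g0E s W a' else 0 := by
  have h2m : ((2 : ℂ) ^ (Fintype.card T)) ≠ 0 := pow_ne_zero _ two_ne_zero
  have key : (∑ b : T → ZMod 2, Pool.Agent.Helper436.SM.sg (g0dt b a) • W (g0zv s b)) *
      (∑ b : T → ZMod 2, Pool.Agent.Helper436.SM.sg (g0dt b a') • W (g0zv s b))
      = (∑ b : T → ZMod 2, Pool.Agent.Helper436.SM.sg (g0dt b (a + a'))) •
        ∑ b : T → ZMod 2, Pool.Agent.Helper436.SM.sg (g0dt b a') • W (g0zv s b) := by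
    rw [Finset.sum_mul_sum, Finset.sum_smul]
    apply Finset.sum_congr rfl
    intro b _
    rw [← Equiv.sum_comp (Equiv.addLeft b), Finset.smul_sum]
    apply Finset.sum_congr rfl
    intro b' _
    rw [smul_mul_assoc, mul_smul_comm, smul_smul, smul_smul, g0_WZ h, ← g0_zv_add]
    have e1 : b + (Equiv.addLeft b) b' = b' := by
      show b + (b + b') = b'
      rw [← add_assoc, g0_add_self, zero_add]
    rw [e1]
    congr 1
    show Pool.Agent.Helper436.SM.sg (g0dt b a) * Pool.Agent.Helper436.SM.sg (g0dt (b + b') a') = _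
    rw [g0_dt_add_left, g0_dt_add_right, g0_sg_add, g0_sg_add, mul_assoc]
  unfold g0E
  rw [smul_mul_assoc, mul_smul_comm, key, g0_char_sum]
  have e : a + a' = 0 ↔ a = a' := by
    constructor
    · intro h1
      have h2 : a + a' + a' = a' := by rw [h1, zero_add]
      rwa [add_assoc, g0_add_self, add_zero] at h2
    · rintro rfl
      exact g0_add_self a
  by_cases hh : a = a'
  · rw [if_pos hh, if_pos (e.2 hh), smul_smul, smul_smul]
    congr 1
    field_simp
  · rw [if_neg hh, if_neg (fun h1 => hh (e.1 h1))]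
    simp

omit [StarModule ℂ A] in
theorem g0_E_mul_Z (h : PauliSys τ W) (s : T → ℕ) (c b : T → ZMod 2) :
    g0E s W c * W (g0zv s b) = Pool.Agent.Helper436.SM.sg (g0dt b c) • g0E s W c := by
  unfold g0E
  rw [smul_mul_assoc, smul_comm (Pool.Agent.Helper436.SM.sg (g0dt b c)), Finset.sum_mul]
  congr 1
  rw [← Equiv.sum_comp (Equiv.addLeft b), Finset.smul_sum]
  apply Finset.sum_congr rfl
  intro b' _
  rw [smul_mul_assoc, smul_smul, g0_WZ h, ← g0_zv_add]
  have e1 : (Equiv.addLeft b) b' + b = b' := by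
    show b + b' + b = b'
    rw [add_comm b b', add_assoc, g0_add_self, add_zero]
  rw [e1]
  congr 1
  show Pool.Agent.Helper436.SM.sg (g0dt (b + b') c) = _
  rw [g0_dt_add_left, g0_sg_add]

omit [StarModule ℂ A] in
theorem g0_sum_E (h : PauliSys τ W) (s : T → ℕ) : ∑ a : T → ZMod 2, g0E s W a = 1 := by
  have h2m : ((2 : ℂ) ^ (Fintype.card T)) ≠ 0 := pow_ne_zero _ two_ne_zero
  unfold g0E
  rw [← Finset.smul_sum, Finset.sum_comm]
  have : ∀ b : T → ZMod 2, ∑ a : T → ZMod 2, Pool.Agent.Helper436.SM.sg (g0dt b a) • W (g0zv s b) =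
      (if b = 0 then (2 : ℂ) ^ (Fintype.card T) else 0) • W (g0zv s b) := by
    intro b
    rw [← Finset.sum_smul, ← g0_char_sum]
    congr 1
    apply Finset.sum_congr rfl
    intro a _
    rw [g0_dt_comm]
  rw [Finset.sum_congr rfl (fun b _ => this b), Finset.sum_eq_single 0]
  · rw [if_pos rfl, smul_smul, inv_mul_cancel₀ h2m, one_smul, g0_zv_zero, h.zero]
  · intro b _ hb
    rw [if_neg hb, zero_smul]
  · simp

theorem g0_star_E (h : PauliSys τ W) (s : T → ℕ) (c : T → ZMod 2) :
    star (g0E s W c) = g0E s W c := by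
  unfold g0E
  rw [star_smul, star_sum]
  congr 1
  · simp
  · apply Finset.sum_congr rfl
    intro b _
    rw [star_smul, h.star, g0_bf_zv_right, g0_sg_zero, one_smul, g0_star_sg]

omit [StarModule ℂ A] [DecidableEq T] in
theorem g0_star_X (h : PauliSys τ W) (s : T → ℕ) (a : T → ZMod 2) :
    star (W (g0xv s a)) = W (g0xv s a) := by
  rw [h.star, g0_bf_xv, g0_sg_zero, one_smul]

omit [StarModule ℂ A] [DecidableEq T] in
theorem g0_star_Z (h : PauliSys τ W) (s : T → ℕ) (b : T → ZMod 2) :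
    star (W (g0zv s b)) = W (g0zv s b) := by
  rw [h.star, g0_bf_zv_right, g0_sg_zero, one_smul]

noncomputable def g0mu (s : T → ℕ) (W : VV → A) (a c : T → ZMod 2) : A :=
  W (g0xv s (a + c)) * g0E s W c

omit [StarModule ℂ A] in
theorem g0_mu_mul (h : PauliSys τ W) (s : T → ℕ) (hs : Function.Injective s)
    (a c a' c' : T → ZMod 2) :
    g0mu s W a c * g0mu s W a' c' = if c = a' then g0mu s W a c' else 0 := by
  unfold g0mu
  have e1 : W (g0xv s (a + c)) * g0E s W c * (W (g0xv s (a' + c')) * g0E s W c') =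
      W (g0xv s (a + c)) * W (g0xv s (a' + c')) * (g0E s W (c + (a' + c')) * g0E s W c') := by
    rw [mul_assoc, ← mul_assoc (g0E s W c), g0_E_mul_X h s hs]
    simp only [mul_assoc]
  rw [e1, g0_E_mul_E h, g0_XW h, ← g0_xv_add]
  by_cases hh : c = a'
  · subst hh
    have e2 : c + (c + c') = c' := by rw [← add_assoc, g0_add_self, zero_add]
    have e3 : a + c + (c + c') = a + c' := by rw [add_assoc, e2]
    rw [if_pos e2, if_pos rfl, e3]
  · rw [if_neg hh, if_neg, mul_zero]
    intro h1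
    apply hh
    have h2 : c + (a' + c') + (a' + c') = c' + (a' + c') := by rw [h1]
    rw [add_assoc, g0_add_self, add_zero] at h2
    rw [h2, add_comm a', ← add_assoc, g0_add_self, zero_add]

theorem g0_star_mu (h : PauliSys τ W) (s : T → ℕ) (hs : Function.Injective s)
    (a c : T → ZMod 2) : star (g0mu s W a c) = g0mu s W c a := by
  unfold g0mu
  rw [star_mul, g0_star_E h, g0_star_X h, g0_E_mul_X h s hs]
  have e : c + (a + c) = a := by rw [add_comm a, ← add_assoc, g0_add_self, zero_add]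
  rw [e, add_comm a c]

omit [StarModule ℂ A] in
theorem g0_sum_mu (h : PauliSys τ W) (s : T → ℕ) : ∑ a : T → ZMod 2, g0mu s W a a = 1 := by
  rw [← g0_sum_E (T := T) h s]
  apply Finset.sum_congr rfl
  intro a _
  unfold g0mu
  rw [g0_add_self, g0_xv_zero, h.zero, one_mul]

omit [StarModule ℂ A] in
theorem g0_mu_Z (h : PauliSys τ W) (s : T → ℕ) (a c b : T → ZMod 2) :
    g0mu s W a c * W (g0zv s b) = Pool.Agent.Helper436.SM.sg (g0dt b c) • g0mu s W a c := by
  unfold g0mu
  rw [mul_assoc, g0_E_mul_Z h, mul_smul_comm]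

theorem g0_Z_mu (h : PauliSys τ W) (s : T → ℕ) (hs : Function.Injective s)
    (a c b : T → ZMod 2) :
    W (g0zv s b) * g0mu s W a c = Pool.Agent.Helper436.SM.sg (g0dt b a) • g0mu s W a c := by
  have h1 := congrArg star (g0_mu_Z h s c a b)
  rw [star_mul, star_smul, g0_star_Z h, g0_star_mu h s hs, g0_star_sg] at h1
  exact h1

end gates0aux

theorem gates0 {A : Type} [Ring A] [StarRing A] [Algebra ℂ A] [StarModule ℂ A]
    {τ : A →ₗ[ℂ] ℂ} {W : VV → A} (h : PauliSys τ W) {T : Type} [Fintype T] [DecidableEq T]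
    (s : T → ℕ) (hs : Function.Injective s) :
    ∃ P : Equiv.Perm (T → ZMod 2) →* A, (∀ σ, star (P σ) = P σ⁻¹) ∧
      (∀ a, P (Equiv.addLeft a) = W (∑ t, Finsupp.single (s t) (a t, 0))) ∧
      ∀ (σ : Equiv.Perm (T → ZMod 2)) (b b' : T → ZMod 2),
        (∀ c, ∑ t, b' t * σ c t = ∑ t, b t * c t) →
        P σ * W (∑ t, Finsupp.single (s t) (0, b t)) =
          W (∑ t, Finsupp.single (s t) (0, b' t)) * P σ := by
  have hmul : ∀ σ ρ : Equiv.Perm (T → ZMod 2),
      (∑ a, g0mu s W (σ a) a) * (∑ a, g0mu s W (ρ a) a) = ∑ a, g0mu s W ((σ * ρ) a) a := by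
    intro σ ρ
    rw [Finset.sum_mul_sum, Finset.sum_comm]
    apply Finset.sum_congr rfl
    intro b _
    rw [Finset.sum_congr rfl (fun a _ => g0_mu_mul h s hs (σ a) a (ρ b) b),
      Finset.sum_ite_eq' Finset.univ (ρ b)]
    simp
  refine ⟨{ toFun := fun σ => ∑ a, g0mu s W (σ a) a
            map_one' := g0_sum_mu h s
            map_mul' := fun σ ρ => (hmul σ ρ).symm }, ?_, ?_, ?_⟩
  · intro σ
    show star (∑ a, g0mu s W (σ a) a) = ∑ a, g0mu s W (σ⁻¹ a) a
    rw [star_sum, ← Equiv.sum_comp σ (fun a => g0mu s W (σ⁻¹ a) a)]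
    apply Finset.sum_congr rfl
    intro a _
    rw [g0_star_mu h s hs]
    simp
  · intro a
    show ∑ c, g0mu s W (a + c) c = W (g0xv s a)
    have e : ∀ c : T → ZMod 2, g0mu s W (a + c) c = W (g0xv s a) * g0E s W c := by
      intro c
      unfold g0mu
      rw [add_assoc, g0_add_self, add_zero]
    rw [Finset.sum_congr rfl (fun c _ => e c), ← Finset.mul_sum, g0_sum_E h, mul_one]
  · intro σ b b' hb
    show (∑ c, g0mu s W (σ c) c) * W (g0zv s b) = W (g0zv s b') * (∑ c, g0mu s W (σ c) c)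
    rw [Finset.sum_mul, Finset.mul_sum]
    apply Finset.sum_congr rfl
    intro c _
    rw [g0_mu_Z h, g0_Z_mu h s hs]
    have e : g0dt b' (σ c) = g0dt b c := hb c
    rw [e]

end Pool.Agent.Helper159.ET.G0
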