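import Mathlib
import Pool.Agent.Helper159.ET.G

set_option autoImplicit false

open scoped InnerProductSpace Topology ComplexOrder BoundedContinuousFunction
open Filter

namespace Pool.Agent.Helper159.ET.G1

open Pool.Agent.Helper278 Pool.Agent.Helper436.SM Pool.Agent.Helper436.SM.ExR
open Pool.Agent.Helper278.TB (HP)

noncomputable def g1e (S : Type) : (S → KF) ≃ (S × Fin 8 → ZMod 2) :=
  (Equiv.piCongrRight (fun _ : S => bK.equivFun.toEquiv)).trans (Equiv.curry S (Fin 8) (ZMod 2)).symm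

theorem g1e_apply {S : Type} (f : S → KF) (t : S × Fin 8) : g1e S f t = bK.repr (f t.1) t.2 := rfl

theorem g1e_add {S : Type} (f g : S → KF) : g1e S (f + g) = g1e S f + g1e S g := by
  funext t
  rw [Pi.add_apply, g1e_apply, g1e_apply, g1e_apply, Pi.add_apply, map_add, Finsupp.add_apply]

theorem g1e_pr {S : Type} [Fintype S] (f g : S → KF) :
    ∑ t : S × Fin 8, lam (f t.1 * bK t.2) * g1e S g t = pr f g := by
  unfold pr
  rw [map_sum, Fintype.sum_prod_type]
  refine Finset.sum_congr rfl fun x _ => ?_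
  have h1 : f x * g x = ∑ j : Fin 8, (bK.repr (g x) j) • (f x * bK j) := by
    conv_lhs => rw [← bK.sum_repr (g x)]
    rw [Finset.mul_sum]
    refine Finset.sum_congr rfl fun j _ => ?_
    rw [mul_smul_comm]
  rw [h1, map_sum]
  refine Finset.sum_congr rfl fun j _ => ?_
  rw [map_smul, smul_eq_mul, mul_comm]
  rfl

theorem gates1 {A : Type} [Ring A] [StarRing A] [Algebra ℂ A] [StarModule ℂ A]
    {τ : A →ₗ[ℂ] ℂ} {W : VV → A} (h : PauliSys τ W) {S : Type} [Fintype S] [DecidableEq S]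
    (s : S × Fin 8 → ℕ) (hs : Function.Injective s)
    (hG : ∃ P : Equiv.Perm (S × Fin 8 → ZMod 2) →* A, (∀ σ, star (P σ) = P σ⁻¹) ∧
      (∀ a, P (Equiv.addLeft a) = W (∑ t, Finsupp.single (s t) (a t, 0))) ∧
      ∀ (σ : Equiv.Perm (S × Fin 8 → ZMod 2)) (b b' : S × Fin 8 → ZMod 2),
        (∀ c, ∑ t, b' t * σ c t = ∑ t, b t * c t) →
        P σ * W (∑ t, Finsupp.single (s t) (0, b t)) =
          W (∑ t, Finsupp.single (s t) (0, b' t)) * P σ) :
    ∃ P : Equiv.Perm (S → KF) →* A, (∀ σ, star (P σ) = P σ⁻¹) ∧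
      (∀ f, P (Equiv.addLeft f) = W (xs s f)) ∧
      ∀ (σ : Equiv.Perm (S → KF)) (f f' : S → KF), (∀ g, pr f' (σ g) = pr f g) →
        P σ * W (zs s f) = W (zs s f') * P σ := by
  obtain ⟨P0, hstar, hX, hZ⟩ := hG
  refine ⟨P0.comp (g1e S).permCongrHom.toMonoidHom, ?_, ?_, ?_⟩
  · intro σ
    have e1 : (P0.comp (g1e S).permCongrHom.toMonoidHom) σ = P0 ((g1e S).permCongrHom σ) := rfl
    have e2 : (P0.comp (g1e S).permCongrHom.toMonoidHom) σ⁻¹ = P0 ((g1e S).permCongrHom σ⁻¹) := rfl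
    rw [e1, e2, hstar, map_inv (g1e S).permCongrHom]
  · intro f
    have e1 : (P0.comp (g1e S).permCongrHom.toMonoidHom) (Equiv.addLeft f) =
        P0 ((g1e S).permCongrHom (Equiv.addLeft f)) := rfl
    have e2 : (g1e S).permCongrHom (Equiv.addLeft f) = Equiv.addLeft (g1e S f) := by
      apply Equiv.ext
      intro c
      have : (g1e S).permCongrHom (Equiv.addLeft f) c = g1e S (f + (g1e S).symm c) := rfl
      rw [this, g1e_add, Equiv.apply_symm_apply]
      rfl
    rw [e1, e2, hX]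
    rfl
  · intro σ f f' hff
    have e1 : (P0.comp (g1e S).permCongrHom.toMonoidHom) σ = P0 ((g1e S).permCongrHom σ) := rfl
    rw [e1]
    refine hZ ((g1e S).permCongrHom σ) (fun t => lam (f t.1 * bK t.2)) (fun t => lam (f' t.1 * bK t.2)) ?_
    intro c
    obtain ⟨g, rfl⟩ := (g1e S).surjective c
    have e2 : (g1e S).permCongrHom σ (g1e S g) = g1e S (σ g) := by
      have : (g1e S).permCongrHom σ (g1e S g) = g1e S (σ ((g1e S).symm (g1e S g))) := rfl
      rw [this, Equiv.symm_apply_apply]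
    rw [e2]
    have h1 := g1e_pr f' (σ g)
    have h2 := g1e_pr f g
    rw [h1, h2, hff g]

end Pool.Agent.Helper159.ET.G1
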