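import Mathlib
import Pool.Agent.Helper159.ET.G

set_option autoImplicit false

open scoped InnerProductSpace Topology ComplexOrder BoundedContinuousFunction
open Filter

namespace Pool.Agent.Helper159.ET.G2

open Pool.Agent.Helper278 Pool.Agent.Helper436.SM Pool.Agent.Helper436.SM.ExR
open Pool.Agent.Helper278.TB (HP)

/-- additivity in the first variable -/
noncomputable def bfl' (w : VV) : VV →+ ZMod 2 where
  toFun v := bf v w
  map_zero' := Helper436.SM.bf_zero_left w
  map_add' v v' := Helper436.SM.bf_add_left v v' w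

theorem bf_single' (i : ℕ) (a : ZMod 2 × ZMod 2) (w : VV) :
    bf (Finsupp.single i a) w = a.2 * (w i).1 := by
  unfold bf
  rw [Finsupp.sum_single_index]
  simp

section

variable {S : Type} [Fintype S] [DecidableEq S] (s : S × Fin 8 → ℕ)

omit [DecidableEq S] in
theorem bf_xs (f : S → KF) (w : VV) : bf (xs s f) w = 0 := by
  have : bf (xs s f) w = bfl' w (xs s f) := rfl
  rw [this]
  unfold xs
  rw [map_sum]
  apply Finset.sum_eq_zero
  intro i _
  show bf _ w = 0
  rw [bf_single']
  simp

omit [DecidableEq S] in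
theorem bf_zs (f : S → KF) (w : VV) :
    bf (zs s f) w = ∑ x : S × Fin 8, lam (f x.1 * bK x.2) * (w (s x)).1 := by
  have : bf (zs s f) w = bfl' w (zs s f) := rfl
  rw [this]
  unfold zs
  rw [map_sum]
  apply Finset.sum_congr rfl
  intro i _
  show bf _ w = _
  rw [bf_single']

omit [DecidableEq S] in
theorem zs_fst (f : S → KF) (j : ℕ) : (zs s f j).1 = 0 := by
  unfold zs
  rw [Finsupp.finsetSum_apply, Prod.fst_sum]
  apply Finset.sum_eq_zero
  intro i _
  rw [Finsupp.single_apply]
  split_ifs <;> simp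

omit [DecidableEq S] in
theorem bf_zs_right (v : VV) (f : S → KF) : bf v (zs s f) = 0 := by
  unfold bf Finsupp.sum
  apply Finset.sum_eq_zero
  intro j _
  show (v j).2 * (zs s f j).1 = 0
  rw [zs_fst, mul_zero]

omit [DecidableEq S] in
theorem xs_at (hs : Function.Injective s) (f : S → KF) (x : S × Fin 8) :
    xs s f (s x) = (bK.repr (f x.1) x.2, 0) := by
  unfold xs
  rw [Finsupp.finsetSum_apply, Finset.sum_eq_single x]
  · rw [Finsupp.single_eq_same]
  · intro y _ hy
    rw [Finsupp.single_apply, if_neg]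
    intro h
    exact hy (hs h)
  · intro h
    exact absurd (Finset.mem_univ _) h

omit [DecidableEq S] in
theorem bf_zs_xs (hs : Function.Injective s) (f g : S → KF) :
    bf (zs s f) (xs s g) = pr f g := by
  rw [bf_zs]
  have h1 : ∀ x : S × Fin 8, lam (f x.1 * bK x.2) * (xs s g (s x)).1 =
      lam (f x.1 * (bK.repr (g x.1) x.2 • bK x.2)) := by
    intro x
    rw [xs_at s hs, mul_smul_comm, map_smul, smul_eq_mul, mul_comm]
  rw [Finset.sum_congr rfl (fun x _ => h1 x), Fintype.sum_prod_type]
  unfold pr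
  rw [map_sum]
  refine Finset.sum_congr rfl fun y _ => ?_
  show ∑ j : Fin 8, lam (f y * (bK.repr (g y) j • bK j)) = lam (f y * g y)
  rw [← map_sum, ← Finset.mul_sum, bK.sum_repr]

omit [DecidableEq S] in
theorem zs_add (f g : S → KF) : zs s (f + g) = zs s f + zs s g := by
  unfold zs
  rw [← Finset.sum_add_distrib]
  refine Finset.sum_congr rfl fun x _ => ?_
  rw [← Finsupp.single_add, Prod.mk_add_mk, add_zero, Pi.add_apply, add_mul, map_add]

omit [DecidableEq S] in
theorem zs_add_self (f : S → KF) : zs s f + zs s f = 0 := by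
  ext j
  · have := zs_fst s f j
    simp [this]
  · show (zs s f j).2 + (zs s f j).2 = 0
    exact CharTwo.add_self_eq_zero _

end

theorem level_rel {A : Type} [Ring A] [StarRing A] [Algebra ℂ A] [StarModule ℂ A]
    {τ : A →ₗ[ℂ] ℂ} {W : VV → A} (h : PauliSys τ W) {S : Type} [Fintype S] [DecidableEq S]
    (s : S × Fin 8 → ℕ) (hs : Function.Injective s) :
    (∀ f g, W (zs s (f + g)) = W (zs s f) * W (zs s g)) ∧
    (∀ f, star (W (zs s f)) = W (zs s f)) ∧ (∀ f, W (zs s f) * W (zs s f) = 1) ∧
    (∀ f g, W (xs s f) * W (zs s g) = sg (pr g f) • (W (zs s g) * W (xs s f))) := by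
  have sg0 : Helper436.SM.sg 0 = 1 := by simp [Helper436.SM.sg]
  refine ⟨fun f g => ?_, fun f => ?_, fun f => ?_, fun f g => ?_⟩
  · rw [h.mul, bf_zs_right, sg0, one_smul, zs_add]
  · rw [h.star, bf_zs_right, sg0, one_smul]
  · rw [h.mul, bf_zs_right, sg0, one_smul, zs_add_self, h.zero]
  · rw [h.mul, h.mul, bf_xs, sg0, one_smul, bf_zs_xs s hs, smul_smul, sg_mul_self, one_smul,
      add_comm]

end Pool.Agent.Helper159.ET.G2
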