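import Mathlib
import Pool.Agent.Helper159.ET.G

set_option autoImplicit false

open scoped InnerProductSpace Topology ComplexOrder BoundedContinuousFunction
open Filter

namespace Pool.Agent.Helper159.ET.G3

open Pool.Agent.Helper278 Pool.Agent.Helper436.SM Pool.Agent.Helper436.SM.ExR
open Pool.Agent.Helper278.TB (HP)


namespace A278G3
theorem sgadd (a b : ZMod 2) : sg (a + b) = sg a * sg b := by
  have h : ∀ a : ZMod 2, a = 0 ∨ a = 1 := by decide
  have h2 : (1 : ZMod 2) + 1 = 0 := by decide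
  rcases h a with rfl | rfl <;> rcases h b with rfl | rfl <;> simp [Pool.Agent.Helper436.SM.sg, h2]
theorem sgsq (a : ZMod 2) : sg a * sg a = 1 := by
  unfold Pool.Agent.Helper436.SM.sg
  split_ifs <;> norm_num
theorem sgstar (a : ZMod 2) : star (sg a) = sg a := by
  unfold Pool.Agent.Helper436.SM.sg
  split_ifs <;> simp
end A278G3

open A278G3 in
theorem level (hg : ∀ (n : ℕ), ∃ P : Equiv.Perm (Fin 3 × ZMod (2 * n + 1) → KF) →* Elt NP,
      (∀ σ, star (P σ) = P σ⁻¹) ∧ (∀ f, P (Equiv.addLeft f) = Wn (xs (sn n) f)) ∧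
      ∀ (σ : Equiv.Perm (Fin 3 × ZMod (2 * n + 1) → KF)) f f', (∀ g, pr f' (σ g) = pr f g) →
        P σ * Wn (zs (sn n) f) = Wn (zs (sn n) f') * P σ)
    (hr : ∀ n : ℕ, (∀ f g, Wn (zs (sn n) (f + g)) = Wn (zs (sn n) f) * Wn (zs (sn n) g)) ∧
      (∀ f, star (Wn (zs (sn n) f)) = Wn (zs (sn n) f)) ∧
      (∀ f, Wn (zs (sn n) f) * Wn (zs (sn n) f) = 1) ∧
      (∀ f g, Wn (xs (sn n) f) * Wn (zs (sn n) g) =
        sg (pr g f) • (Wn (zs (sn n) g) * Wn (xs (sn n) f)))) (n : ℕ) :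
    ∃ (P : Equiv.Perm (Fin 3 × ZMod (2 * n + 1) → KF) →* unitary (Elt NP))
      (ZZ : (Fin 3 × ZMod (2 * n + 1) → KF) → unitary (Elt NP)),
      (∀ f, (P (Equiv.addLeft f) : Elt NP) = Wn (xs (sn n) f)) ∧
      (∀ f, (ZZ f : Elt NP) = Wn (zs (sn n) f)) ∧ LvlRel P ZZ := by
  obtain ⟨P0, hst, hX, hPZ⟩ := hg n
  obtain ⟨hza, hzs, hzq, hxz⟩ := hr n
  have hPu : ∀ σ, P0 σ ∈ unitary (Elt NP) := fun σ => by
    refine Unitary.mem_iff.2 ⟨?_, ?_⟩
    · rw [hst, ← map_mul, inv_mul_cancel, map_one]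
    · rw [hst, ← map_mul, mul_inv_cancel, map_one]
  have hZu : ∀ f, Wn (zs (sn n) f) ∈ unitary (Elt NP) := fun f => by
    refine Unitary.mem_iff.2 ⟨?_, ?_⟩
    · rw [hzs, hzq]
    · rw [hzs, hzq]
  have hSu : ∀ a : ZMod 2, (sg a • (1 : Elt NP)) ∈ unitary (Elt NP) := fun a => by
    have e : (sg a • (1 : Elt NP)) * (sg a • (1 : Elt NP)) = 1 := by
      rw [smul_mul_smul_comm, sgsq, one_mul, one_smul]
    have e2 : star (sg a • (1 : Elt NP)) = sg a • (1 : Elt NP) := by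
      rw [star_smul, sgstar, star_one]
    refine Unitary.mem_iff.2 ⟨?_, ?_⟩
    · rw [e2, e]
    · rw [e2, e]
  refine ⟨{ toFun := fun σ => ⟨P0 σ, hPu σ⟩, map_one' := Subtype.ext (map_one P0),
            map_mul' := fun a b => Subtype.ext (map_mul P0 a b) }, fun f => ⟨Wn (zs (sn n) f), hZu f⟩,
    hX, fun f => rfl, ⟨?_, ?_, ?_⟩⟩
  · intro f g; exact Subtype.ext (hza f g)
  · intro σ f f' h; exact Subtype.ext (hPZ σ f f' h)
  · refine ⟨fun a => ⟨sg a • (1 : Elt NP), hSu a⟩, ?_, ?_, ?_⟩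
    · intro a b
      apply Subtype.ext
      show sg (a + b) • (1 : Elt NP) = (sg a • (1 : Elt NP)) * (sg b • (1 : Elt NP))
      rw [smul_mul_smul_comm, sgadd, one_mul]
    · intro a x
      apply Subtype.ext
      show (sg a • (1 : Elt NP)) * (x : Elt NP) = (x : Elt NP) * (sg a • (1 : Elt NP))
      rw [smul_mul_assoc, mul_smul_comm, one_mul, mul_one]
    · intro f g
      apply Subtype.ext
      show P0 (Equiv.addLeft f) * Wn (zs (sn n) g) =
        (sg (pr g f) • (1 : Elt NP)) * (Wn (zs (sn n) g) * P0 (Equiv.addLeft f))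
      rw [hX, hxz, smul_mul_assoc, one_mul]

end Pool.Agent.Helper159.ET.G3
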