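import Mathlib
import Pool.Agent.Helper159.ET.G

set_option autoImplicit false

open scoped InnerProductSpace Topology ComplexOrder BoundedContinuousFunction
open Filter

namespace Pool.Agent.Helper159.ET.L1

open Pool.Agent.Helper278 Pool.Agent.Helper436.SM Pool.Agent.Helper436.SM.ExR
open Pool.Agent.Helper278.TB (HP)

section linesHPaux
variable {Z : Type} [AddCommGroup Z] [DecidableEq Z]

theorem lines_HP_fin3b (i : Fin 3) : i + 2 ≠ i := by revert i; decide

/-- the elementary matrix `e_{i,i+2}(c t^s)` -/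
noncomputable def lines_HP_D (i : Fin 3) (s : Z) (c : KF) : Equiv.Perm (Fin 3 × Z → KF) where
  toFun f x := f x + if x.1 = i then c * f (i + 2, x.2 - s) else 0
  invFun f x := f x - if x.1 = i then c * f (i + 2, x.2 - s) else 0
  left_inv f := by
    funext x
    by_cases hx : x.1 = i
    · simp [hx, lines_HP_fin3b i]
    · simp [hx]
  right_inv f := by
    funext x
    by_cases hx : x.1 = i
    · simp [hx, lines_HP_fin3b i]
    · simp [hx]

theorem lines_HP_el_apply (i : Fin 3) (a : Z) (c : KF) (f : Fin 3 × Z → KF) (x : Fin 3 × Z) :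
    el i a c f x = f x + if x.1 = i then c * f (i + 1, x.2 - a) else 0 := rfl

theorem lines_HP_D_apply (i : Fin 3) (a : Z) (c : KF) (f : Fin 3 × Z → KF) (x : Fin 3 × Z) :
    lines_HP_D i a c f x = f x + if x.1 = i then c * f (i + 2, x.2 - a) else 0 := rfl

theorem lines_HP_comm (i : Fin 3) (a b : Z) (c d : KF) :
    el i a c * el i b d = el i b d * el i a c := by
  apply Equiv.ext
  intro f
  funext x
  rw [Equiv.Perm.mul_apply, Equiv.Perm.mul_apply]
  simp only [lines_HP_el_apply]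
  have h := fin3_ne i
  by_cases hx : x.1 = i
  · simp only [hx, if_true, h, if_false]; ring
  · simp only [hx, if_false]

theorem lines_HP_heis (i : Fin 3) (a b : Z) (c d : KF) :
    el i a c * el (i + 1) b d = el (i + 1) b d * (el i a c * lines_HP_D i (a + b) (c * d)) := by
  apply Equiv.ext
  intro f
  funext x
  rw [Equiv.Perm.mul_apply, Equiv.Perm.mul_apply, Equiv.Perm.mul_apply]
  simp only [lines_HP_el_apply, lines_HP_D_apply]
  obtain ⟨x1, x2⟩ := x
  fin_cases i <;> fin_cases x1 <;> simp [sub_sub] <;> ring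

theorem lines_HP_Dadd (i : Fin 3) (s : Z) (c d : KF) :
    lines_HP_D i s (c + d) = lines_HP_D i s c * lines_HP_D i s d := by
  apply Equiv.ext
  intro f
  funext x
  rw [Equiv.Perm.mul_apply]
  simp only [lines_HP_D_apply]
  have h := lines_HP_fin3b i
  by_cases hx : x.1 = i
  · simp only [hx, if_true, h, if_false]; ring
  · simp only [hx, if_false]; ring

theorem lines_HP_D1 (i : Fin 3) (s a : Z) (e c : KF) :
    lines_HP_D i s e * el i a c = el i a c * lines_HP_D i s e := by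
  apply Equiv.ext
  intro f
  funext x
  rw [Equiv.Perm.mul_apply, Equiv.Perm.mul_apply]
  simp only [lines_HP_el_apply, lines_HP_D_apply]
  obtain ⟨x1, x2⟩ := x
  fin_cases i <;> fin_cases x1 <;> simp <;> ring

theorem lines_HP_D2 (i : Fin 3) (s a : Z) (e c : KF) :
    lines_HP_D i s e * el (i + 1) a c = el (i + 1) a c * lines_HP_D i s e := by
  apply Equiv.ext
  intro f
  funext x
  rw [Equiv.Perm.mul_apply, Equiv.Perm.mul_apply]
  simp only [lines_HP_el_apply, lines_HP_D_apply]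
  obtain ⟨x1, x2⟩ := x
  fin_cases i <;> fin_cases x1 <;> simp

/-- the shift function for the pair (E, X) -/
noncomputable def lines_HP_w (i : Fin 3) (a : Z) (c : KF) : Fin 3 × Z → KF :=
  if i + 1 = 0 then dl (i, a) c else 0

theorem lines_HP_wadd (i : Fin 3) (a : Z) (c d : KF) :
    lines_HP_w i a (c + d) = lines_HP_w i a c + lines_HP_w i a d := by
  unfold lines_HP_w
  split_ifs
  · unfold dl; exact Pi.single_add _ _ _
  · simp

theorem lines_HP_EX (i : Fin 3) (a : Z) (c b : KF) :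
    el i a c * Equiv.addLeft (dl (0, 0) b)
      = Equiv.addLeft (dl (0, 0) b) * (el i a c * Equiv.addLeft (lines_HP_w i a (c * b))) := by
  apply Equiv.ext
  intro f
  funext x
  rw [Equiv.Perm.mul_apply, Equiv.Perm.mul_apply, Equiv.Perm.mul_apply]
  simp only [lines_HP_el_apply, Equiv.coe_addLeft, Pi.add_apply]
  obtain ⟨x1, x2⟩ := x
  have e1 : (x2 = a) = (x2 - a = 0) := by rw [sub_eq_zero]
  fin_cases i <;> fin_cases x1 <;> simp [lines_HP_w, dl, Pi.single_apply, e1] <;> split_ifs <;> ring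

theorem lines_HP_EXc (i : Fin 3) (a : Z) (c b : KF) :
    Equiv.addLeft (lines_HP_w i a b) * el i a c = el i a c * Equiv.addLeft (lines_HP_w i a b) := by
  apply Equiv.ext
  intro f
  funext x
  rw [Equiv.Perm.mul_apply, Equiv.Perm.mul_apply]
  simp only [lines_HP_el_apply, Equiv.coe_addLeft, Pi.add_apply]
  obtain ⟨x1, x2⟩ := x
  fin_cases i <;> fin_cases x1 <;> simp [lines_HP_w, dl, Pi.single_apply] <;> ring


theorem lines_HP_pr_dl [Fintype Z] (p : Fin 3 × Z) (b : KF) (g : Fin 3 × Z → KF) :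
    pr (dl p b) g = lam (b * g p) := by
  unfold pr dl
  congr 1
  rw [Finset.sum_eq_single p]
  · rw [Pi.single_eq_same]
  · intro x _ hx
    rw [Pi.single_eq_of_ne hx, zero_mul]
  · intro h; exact absurd (Finset.mem_univ p) h

theorem lines_HP_pr_add [Fintype Z] (f f' g : Fin 3 × Z → KF) :
    pr (f + f') g = pr f g + pr f' g := by
  unfold pr
  rw [← map_add, ← Finset.sum_add_distrib]
  congr 1
  refine Finset.sum_congr rfl (fun x _ => ?_)
  rw [Pi.add_apply, add_mul]

theorem lines_HP_pr_zero [Fintype Z] (g : Fin 3 × Z → KF) : pr (0 : Fin 3 × Z → KF) g = 0 := by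
  unfold pr
  simp

/-- the function for the pair (Z, E) -/
noncomputable def lines_HP_v (i : Fin 3) (a : Z) (c : KF) : Fin 3 × Z → KF :=
  if i = 0 then dl (1, -a) c else 0

theorem lines_HP_vadd (i : Fin 3) (a : Z) (c d : KF) :
    lines_HP_v i a (c + d) = lines_HP_v i a c + lines_HP_v i a d := by
  unfold lines_HP_v
  split_ifs
  · unfold dl; exact Pi.single_add _ _ _
  · simp

theorem lines_HP_ZE [Fintype Z] (i : Fin 3) (a : Z) (c b : KF) (g : Fin 3 × Z → KF) :
    pr (dl (0, 0) b) (el i a c g) = pr (dl (0, 0) b + lines_HP_v i a (b * c)) g := by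
  rw [lines_HP_pr_add, lines_HP_pr_dl, lines_HP_pr_dl, lines_HP_el_apply]
  unfold lines_HP_v
  by_cases hi : i = 0
  · subst hi
    rw [if_pos rfl, if_pos rfl, lines_HP_pr_dl, ← map_add]
    congr 1
    simp only [zero_add, zero_sub]
    ring
  · rw [if_neg (fun h => hi h.symm), if_neg hi, lines_HP_pr_zero, add_zero, add_zero]

theorem lines_HP_ZEc [Fintype Z] (i : Fin 3) (a : Z) (c b : KF) (g : Fin 3 × Z → KF) :
    pr (lines_HP_v i a b) (el i a c g) = pr (lines_HP_v i a b) g := by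
  unfold lines_HP_v
  by_cases hi : i = 0
  · subst hi
    rw [if_pos rfl, lines_HP_pr_dl, lines_HP_pr_dl, lines_HP_el_apply]
    simp
  · rw [if_neg hi, lines_HP_pr_zero, lines_HP_pr_zero]

end linesHPaux

theorem lines_HP_caseXZ {Z : Type} [AddCommGroup Z] [DecidableEq Z] [Fintype Z] {X : Type} [Group X]
    (P : Equiv.Perm (Fin 3 × Z → KF) →* X) (ZZ : (Fin 3 × Z → KF) → X) (h : LvlRel P ZZ)
    (t : Fin 3 → Z) : HP (ln P ZZ t (Sum.inl true)) (ln P ZZ t (Sum.inl false)) := by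
  obtain ⟨sn, hs1, hs2, hs3⟩ := h.XZ
  refine ⟨fun c => sn (lam c), fun a b => ?_, fun a b => ?_, fun a b => hs2 _ _, fun a b => hs2 _ _⟩
  · beta_reduce
    rw [map_add, hs1]
  · show P (Equiv.addLeft (dl (0, 0) a)) * ZZ (dl (0, 0) b) =
      ZZ (dl (0, 0) b) * (P (Equiv.addLeft (dl (0, 0) a)) * sn (lam (a * b)))
    rw [hs3, lines_HP_pr_dl]
    have e : (dl (0, 0) a : Fin 3 × Z → KF) (0, 0) = a := by unfold dl; rw [Pi.single_eq_same]
    rw [e, mul_comm b a, hs2, mul_assoc]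

theorem lines_HP_caseEX {Z : Type} [AddCommGroup Z] [DecidableEq Z] [Fintype Z] {X : Type} [Group X]
    (P : Equiv.Perm (Fin 3 × Z → KF) →* X) (ZZ : (Fin 3 × Z → KF) → X)
    (t : Fin 3 → Z) (p : Fin 3 × Fin 3) :
    HP (ln P ZZ t (Sum.inr p)) (ln P ZZ t (Sum.inl true)) := by
  refine ⟨fun c => P (Equiv.addLeft (lines_HP_w p.1 (t p.2) c)), fun a b => ?_, fun a b => ?_,
    fun a b => ?_, fun a b => ?_⟩
  · beta_reduce
    rw [← map_mul, lines_HP_wadd]
    congr 1
    apply Equiv.ext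
    intro f
    rw [Equiv.Perm.mul_apply]
    simp only [Equiv.coe_addLeft]
    rw [add_assoc]
  · show P (el p.1 (t p.2) a) * P (Equiv.addLeft (dl (0, 0) b)) = P (Equiv.addLeft (dl (0, 0) b)) *
      (P (el p.1 (t p.2) a) * P (Equiv.addLeft (lines_HP_w p.1 (t p.2) (a * b))))
    rw [← map_mul, ← map_mul, ← map_mul, lines_HP_EX]
  · show P (Equiv.addLeft (lines_HP_w p.1 (t p.2) a)) * P (el p.1 (t p.2) b) =
      P (el p.1 (t p.2) b) * P (Equiv.addLeft (lines_HP_w p.1 (t p.2) a))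
    rw [← map_mul, ← map_mul, lines_HP_EXc]
  · show P (Equiv.addLeft (lines_HP_w p.1 (t p.2) a)) * P (Equiv.addLeft (dl (0, 0) b)) =
      P (Equiv.addLeft (dl (0, 0) b)) * P (Equiv.addLeft (lines_HP_w p.1 (t p.2) a))
    rw [← map_mul, ← map_mul]
    congr 1
    apply Equiv.ext
    intro f
    rw [Equiv.Perm.mul_apply, Equiv.Perm.mul_apply]
    simp only [Equiv.coe_addLeft]
    rw [← add_assoc, ← add_assoc, add_comm (dl (0, 0) b)]

theorem lines_HP_caseZE {Z : Type} [AddCommGroup Z] [DecidableEq Z] [Fintype Z] {X : Type} [Group X]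
    (P : Equiv.Perm (Fin 3 × Z → KF) →* X) (ZZ : (Fin 3 × Z → KF) → X) (h : LvlRel P ZZ)
    (t : Fin 3 → Z) (p : Fin 3 × Fin 3) :
    HP (ln P ZZ t (Sum.inl false)) (ln P ZZ t (Sum.inr p)) := by
  refine ⟨fun c => ZZ (lines_HP_v p.1 (t p.2) c), fun a b => ?_, fun a b => ?_,
    fun a b => ?_, fun a b => ?_⟩
  · beta_reduce
    rw [lines_HP_vadd, h.ZZ_add]
  · show ZZ (dl (0, 0) a) * P (el p.1 (t p.2) b) = P (el p.1 (t p.2) b) *
      (ZZ (dl (0, 0) a) * ZZ (lines_HP_v p.1 (t p.2) (a * b)))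
    rw [← h.ZZ_add]
    exact (h.PZ (el p.1 (t p.2) b) _ _ (fun g => lines_HP_ZE _ _ _ _ g)).symm
  · show ZZ (lines_HP_v p.1 (t p.2) a) * ZZ (dl (0, 0) b) =
      ZZ (dl (0, 0) b) * ZZ (lines_HP_v p.1 (t p.2) a)
    rw [← h.ZZ_add, ← h.ZZ_add, add_comm]
  · show ZZ (lines_HP_v p.1 (t p.2) a) * P (el p.1 (t p.2) b) =
      P (el p.1 (t p.2) b) * ZZ (lines_HP_v p.1 (t p.2) a)
    exact (h.PZ (el p.1 (t p.2) b) _ _ (fun g => lines_HP_ZEc _ _ _ _ g)).symm

theorem lines_HP_caseEE1 {Z : Type} [AddCommGroup Z] [DecidableEq Z] [Fintype Z] {X : Type} [Group X]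
    (P : Equiv.Perm (Fin 3 × Z → KF) →* X) (ZZ : (Fin 3 × Z → KF) → X)
    (t : Fin 3 → Z) (i k l : Fin 3) :
    HP (ln P ZZ t (Sum.inr (i, k))) (ln P ZZ t (Sum.inr (i, l))) := by
  refine ⟨fun _ => 1, fun a b => by rw [mul_one], fun a b => ?_,
    fun a b => by rw [one_mul, mul_one], fun a b => by rw [one_mul, mul_one]⟩
  show P (el i (t k) a) * P (el i (t l) b) = P (el i (t l) b) * (P (el i (t k) a) * 1)
  rw [mul_one, ← map_mul, ← map_mul, lines_HP_comm]

theorem lines_HP_caseEE2 {Z : Type} [AddCommGroup Z] [DecidableEq Z] [Fintype Z] {X : Type} [Group X]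
    (P : Equiv.Perm (Fin 3 × Z → KF) →* X) (ZZ : (Fin 3 × Z → KF) → X)
    (t : Fin 3 → Z) (i k l : Fin 3) :
    HP (ln P ZZ t (Sum.inr (i, k))) (ln P ZZ t (Sum.inr (i + 1, l))) := by
  refine ⟨fun c => P (lines_HP_D i (t k + t l) c), fun a b => ?_, fun a b => ?_,
    fun a b => ?_, fun a b => ?_⟩
  · beta_reduce
    rw [lines_HP_Dadd, map_mul]
  · show P (el i (t k) a) * P (el (i + 1) (t l) b) = P (el (i + 1) (t l) b) *
      (P (el i (t k) a) * P (lines_HP_D i (t k + t l) (a * b)))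
    rw [← map_mul, ← map_mul, ← map_mul, lines_HP_heis]
  · show P (lines_HP_D i (t k + t l) a) * P (el i (t k) b) =
      P (el i (t k) b) * P (lines_HP_D i (t k + t l) a)
    rw [← map_mul, ← map_mul, lines_HP_D1]
  · show P (lines_HP_D i (t k + t l) a) * P (el (i + 1) (t l) b) =
      P (el (i + 1) (t l) b) * P (lines_HP_D i (t k + t l) a)
    rw [← map_mul, ← map_mul, lines_HP_D2]

theorem lines_HP {Z : Type} [AddCommGroup Z] [DecidableEq Z] [Fintype Z] {X : Type} [Group X]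
    (P : Equiv.Perm (Fin 3 × Z → KF) →* X) (ZZ : (Fin 3 × Z → KF) → X) (h : LvlRel P ZZ)
    (t : Fin 3 → Z) (p q : LI) (hpq : p ≠ q) :
    HP (ln P ZZ t p) (ln P ZZ t q) ∨ HP (ln P ZZ t q) (ln P ZZ t p) := by
  rcases p with p | p <;> rcases q with q | q
  · cases p <;> cases q
    · exact absurd rfl hpq
    · exact Or.inr (lines_HP_caseXZ P ZZ h t)
    · exact Or.inl (lines_HP_caseXZ P ZZ h t)
    · exact absurd rfl hpq
  · cases p
    · exact Or.inl (lines_HP_caseZE P ZZ h t q)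
    · exact Or.inr (lines_HP_caseEX P ZZ t q)
  · cases q
    · exact Or.inr (lines_HP_caseZE P ZZ h t p)
    · exact Or.inl (lines_HP_caseEX P ZZ t p)
  · obtain ⟨i, k⟩ := p
    obtain ⟨j, l⟩ := q
    have h3 : ∀ i j : Fin 3, j = i ∨ j = i + 1 ∨ i = j + 1 := by decide
    rcases h3 i j with h3 | h3 | h3
    · subst h3
      exact Or.inl (lines_HP_caseEE1 P ZZ t _ k l)
    · subst h3
      exact Or.inl (lines_HP_caseEE2 P ZZ t _ k l)
    · subst h3
      exact Or.inr (lines_HP_caseEE2 P ZZ t _ l k)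

end Pool.Agent.Helper159.ET.L1
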