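import Mathlib
import Pool.Agent.Helper159.ET.G

set_option autoImplicit false

open scoped InnerProductSpace Topology ComplexOrder BoundedContinuousFunction
open Filter

namespace Pool.Agent.Helper159.ET.L2

open Pool.Agent.Helper278 Pool.Agent.Helper436.SM Pool.Agent.Helper436.SM.ExR
open Pool.Agent.Helper278.TB (HP)

namespace A278

section L1aux

variable {Z : Type} [AddCommGroup Z] [DecidableEq Z]

theorem el_apply (i : Fin 3) (a : Z) (c : KF) (f : Fin 3 × Z → KF) (x : Fin 3 × Z) :
    el i a c f x = f x + if x.1 = i then c * f (i + 1, x.2 - a) else 0 := rfl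

/-- the product transvection -/
noncomputable def e2 (i : Fin 3) (s : Z) (c : KF) : Equiv.Perm (Fin 3 × Z → KF) where
  toFun f x := f x + if x.1 = i then c * f (i + 2, x.2 - s) else 0
  invFun f x := f x - if x.1 = i then c * f (i + 2, x.2 - s) else 0
  left_inv f := by
    have h2 : i + 2 ≠ i := by revert i; decide
    funext x
    by_cases hx : x.1 = i
    · simp [hx, h2]
    · simp [hx]
  right_inv f := by
    have h2 : i + 2 ≠ i := by revert i; decide
    funext x
    by_cases hx : x.1 = i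
    · simp [hx, h2]
    · simp [hx]

theorem e2_apply (i : Fin 3) (a : Z) (c : KF) (f : Fin 3 × Z → KF) (x : Fin 3 × Z) :
    e2 i a c f x = f x + if x.1 = i then c * f (i + 2, x.2 - a) else 0 := rfl

theorem f31 (i : Fin 3) : i + 1 ≠ i := by revert i; decide
theorem f32 (i : Fin 3) : i + 2 ≠ i := by revert i; decide
theorem f33 (i : Fin 3) : i + 2 ≠ i + 1 := by revert i; decide
theorem f34 (i : Fin 3) : i + 1 + 1 = i + 2 := by revert i; decide
theorem f35 (i : Fin 3) : i + 1 + 2 = i := by revert i; decide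
theorem f36 (i : Fin 3) : i ≠ i + 1 := by revert i; decide
theorem f37 (i : Fin 3) : i ≠ i + 2 := by revert i; decide
theorem f38 (i : Fin 3) : i + 1 ≠ i + 2 := by revert i; decide

theorem el_comm (i : Fin 3) (a a' : Z) (c c' : KF) : el i a c * el i a' c' = el i a' c' * el i a c := by
  apply Equiv.ext; intro f; funext x
  simp only [Equiv.Perm.mul_apply, el_apply, f31, if_false, add_zero]
  ring

theorem el_el (i : Fin 3) (a a' : Z) (c c' : KF) :
    el i a c * el (i+1) a' c' = el (i+1) a' c' * (el i a c * e2 i (a + a') (c * c')) := by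
  apply Equiv.ext; intro f; funext x
  simp only [Equiv.Perm.mul_apply, el_apply, e2_apply, f34]
  by_cases h1 : x.1 = i
  · simp [h1, f31, f32, f33, f36, f37, f38, sub_sub]
    ring
  · by_cases h2 : x.1 = i + 1
    · simp [h2, f31, f32, f33, f36, f37, f38]
    · simp [h1, h2]

theorem e2_comm (i : Fin 3) (a s : Z) (c c' : KF) : e2 i s c * el i a c' = el i a c' * e2 i s c := by
  apply Equiv.ext; intro f; funext x
  simp only [Equiv.Perm.mul_apply, el_apply, e2_apply, f31, f32, if_false, add_zero]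
  ring

theorem e2_comm' (i : Fin 3) (a s : Z) (c c' : KF) :
    e2 i s c * el (i+1) a c' = el (i+1) a c' * e2 i s c := by
  apply Equiv.ext; intro f; funext x
  simp only [Equiv.Perm.mul_apply, el_apply, e2_apply, f34]
  by_cases h1 : x.1 = i
  · simp [h1, f31, f32, f33, f36, f37, f38]
  · by_cases h2 : x.1 = i + 1
    · simp [h2, f31, f32, f33, f36, f37, f38]
    · simp [h1, h2]

theorem e2_add (i : Fin 3) (s : Z) (c c' : KF) : e2 i s (c + c') = e2 i s c * e2 i s c' := by
  apply Equiv.ext; intro f; funext x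
  simp only [Equiv.Perm.mul_apply, e2_apply, f32, if_false, add_zero]
  by_cases h1 : x.1 = i
  · simp [h1]; ring
  · simp [h1]

theorem el_lin (i : Fin 3) (a : Z) (c : KF) (f g : Fin 3 × Z → KF) :
    el i a c (f + g) = el i a c f + el i a c g := by
  funext x
  simp only [el_apply, Pi.add_apply]
  by_cases h1 : x.1 = i
  · simp [h1]; ring
  · simp [h1]

theorem el_addLeft (i : Fin 3) (a : Z) (c : KF) (f : Fin 3 × Z → KF) :
    el i a c * Equiv.addLeft f = Equiv.addLeft (el i a c f) * el i a c := by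
  apply Equiv.ext; intro g
  simp only [Equiv.Perm.mul_apply, Equiv.coe_addLeft]
  exact el_lin i a c f g

theorem el_dl (i : Fin 3) (a : Z) (c b : KF) :
    el i a c (dl (0, 0) b) = dl (0, 0) b + (if i + 1 = 0 then dl (i, a) (c * b) else 0) := by
  funext x
  obtain ⟨x1, x2⟩ := x
  simp only [el_apply, Pi.add_apply]
  congr 1
  by_cases h1 : x1 = i
  · subst h1
    by_cases h0 : x1 + 1 = 0
    · by_cases h2 : x2 = a
      · subst h2; simp [dl, h0]
      · have : x2 - a ≠ 0 := sub_ne_zero.2 h2
        simp [dl, h0, Pi.single_apply, h2, this]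
    · simp [dl, h0, Pi.single_apply]
  · by_cases h0 : i + 1 = 0
    · simp [h1, h0, dl, Pi.single_apply]
    · simp [h1, h0]

theorem el_fix (i : Fin 3) (a a' : Z) (c b : KF) : el i a c (dl (i, a') b) = dl (i, a') b := by
  funext x
  obtain ⟨x1, x2⟩ := x
  simp only [el_apply]
  simp [dl, Pi.single_apply, f31]

theorem dl_add (p : Fin 3 × Z) (b c : KF) : dl p (b + c) = dl p b + dl p c := by
  simp [dl, Pi.single_add]

theorem addLeft_add (f g : Fin 3 × Z → KF) :
    (Equiv.addLeft (f + g) : Equiv.Perm (Fin 3 × Z → KF)) = Equiv.addLeft f * Equiv.addLeft g := by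
  apply Equiv.ext; intro h
  simp only [Equiv.Perm.mul_apply, Equiv.coe_addLeft, add_assoc]

theorem pr_add [Fintype Z] (f g h : Fin 3 × Z → KF) : pr (f + g) h = pr f h + pr g h := by
  simp only [pr, Pi.add_apply, add_mul, Finset.sum_add_distrib, map_add]

theorem pr_neg [Fintype Z] (f h : Fin 3 × Z → KF) : pr (-f) h = - pr f h := by
  simp only [pr, Pi.neg_apply, neg_mul, Finset.sum_neg_distrib, map_neg]

theorem pr_dl [Fintype Z] (p : Fin 3 × Z) (c : KF) (g : Fin 3 × Z → KF) : pr (dl p c) g = lam (c * g p) := by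
  unfold pr
  congr 1
  rw [Finset.sum_eq_single p]
  · simp [dl]
  · intro x _ hx
    simp [dl, Pi.single_apply, hx]
  · intro h; exact absurd (Finset.mem_univ p) h

end L1aux


theorem el_dl1 {Z : Type} [AddCommGroup Z] [DecidableEq Z] (i : Fin 3) (a k : Z) (c : KF) :
    el i a 1 (dl (i + 1, k) c) = dl (i, k + a) c + dl (i + 1, k) c := by
  funext x
  obtain ⟨x1, x2⟩ := x
  simp only [el_apply, Pi.add_apply]
  rw [add_comm]
  congr 1
  by_cases h1 : x1 = i
  · subst h1
    by_cases h2 : x2 = k + a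
    · subst h2; simp [dl]
    · have : x2 - a ≠ k := fun h => h2 (by rw [← h]; abel)
      simp [dl, Pi.single_apply, h2, this]
  · simp [h1, dl, Pi.single_apply]

end A278

open A278

theorem X_step {Z : Type} [AddCommGroup Z] [DecidableEq Z] [Fintype Z] {X : Type} [Group X]
    (P : Equiv.Perm (Fin 3 × Z → KF) →* X) (i : Fin 3) (a k : Z) (c : KF) :
    P (Equiv.addLeft (dl (i, k + a) c)) = P (el i a 1) * P (Equiv.addLeft (dl (i + 1, k) c)) *
      (P (el i a 1))⁻¹ * (P (Equiv.addLeft (dl (i + 1, k) c)))⁻¹ := by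
  rw [← map_mul, el_addLeft, el_dl1, addLeft_add, map_mul, map_mul]
  group

theorem Z_step {Z : Type} [AddCommGroup Z] [DecidableEq Z] [Fintype Z] {X : Type} [Group X]
    (P : Equiv.Perm (Fin 3 × Z → KF) →* X) (ZZ : (Fin 3 × Z → KF) → X) (h : LvlRel P ZZ)
    (i : Fin 3) (a k : Z) (c : KF) :
    ZZ (dl (i + 1, k - a) c) = (ZZ (dl (i, k) c))⁻¹ *
      ((P (el i a 1))⁻¹ * ZZ (dl (i, k) c) * P (el i a 1)) := by
  have h1 : P (el i a 1) * ZZ (dl (i, k) c + dl (i + 1, k - a) c) = ZZ (dl (i, k) c) * P (el i a 1) := by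
    apply h.PZ
    intro g
    rw [pr_add, pr_dl, pr_dl, pr_dl, el_apply]
    simp only [if_true, one_mul]
    rw [← map_add, mul_add]
  rw [h.ZZ_add] at h1
  have h2 : (P (el i a 1))⁻¹ * ZZ (dl (i, k) c) * P (el i a 1) = ZZ (dl (i, k) c) * ZZ (dl (i + 1, k - a) c) := by
    rw [mul_assoc, ← h1, inv_mul_cancel_left]
  rw [h2, inv_mul_cancel_left]

end Pool.Agent.Helper159.ET.L2
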