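import Mathlib
import Pool.Agent.Helper159.ET.G

set_option autoImplicit false

open scoped InnerProductSpace Topology ComplexOrder BoundedContinuousFunction
open Filter

namespace Pool.Agent.Helper159.ET.L3

open Pool.Agent.Helper278 Pool.Agent.Helper436.SM Pool.Agent.Helper436.SM.ExR
open Pool.Agent.Helper278.TB (HP)

theorem ln_add_aux_dl {Z : Type} [AddCommGroup Z] [DecidableEq Z] (p : Fin 3 × Z) (a b : KF) :
    dl p (a + b) = dl p a + dl p b := by
  funext q
  unfold dl
  rw [Pi.add_apply]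
  by_cases hq : q = p
  · rw [hq, Pi.single_eq_same, Pi.single_eq_same, Pi.single_eq_same]
  · rw [Pi.single_eq_of_ne hq, Pi.single_eq_of_ne hq, Pi.single_eq_of_ne hq, add_zero]

theorem ln_add_aux_al {Z : Type} [AddCommGroup Z] (f g : Fin 3 × Z → KF) :
    Equiv.addLeft (f + g) = Equiv.addLeft f * Equiv.addLeft g := by
  ext x
  simp [add_assoc]

theorem ln_add_aux_el {Z : Type} [AddCommGroup Z] [DecidableEq Z] (i : Fin 3) (x : Z) (a b : KF) :
    el i x (a + b) = el i x a * el i x b := by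
  apply Equiv.ext
  intro f
  funext y
  change f y + (if y.1 = i then (a + b) * f (i + 1, y.2 - x) else 0) =
    (f y + if y.1 = i then b * f (i + 1, y.2 - x) else 0) +
      (if y.1 = i then a * (f (i + 1, y.2 - x) +
        if (i + 1) = i then b * f (i + 1, y.2 - x - x) else 0) else 0)
  rw [if_neg (fin3_ne i)]
  by_cases hy : y.1 = i
  · simp only [hy, if_true]
    ring
  · simp only [hy, if_false]
    ring

theorem ln_add {Z : Type} [AddCommGroup Z] [DecidableEq Z] [Fintype Z] {X : Type} [Group X]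
    (P : Equiv.Perm (Fin 3 × Z → KF) →* X) (ZZ : (Fin 3 × Z → KF) → X) (h : LvlRel P ZZ)
    (t : Fin 3 → Z) (p : LI) (a b : KF) :
    ln P ZZ t p (a + b) = ln P ZZ t p a * ln P ZZ t p b := by
  rcases p with (_ | _) | p
  · change ZZ (dl (0, 0) (a + b)) = ZZ (dl (0, 0) a) * ZZ (dl (0, 0) b)
    rw [ln_add_aux_dl, h.ZZ_add]
  · change P (Equiv.addLeft (dl (0, 0) (a + b))) =
      P (Equiv.addLeft (dl (0, 0) a)) * P (Equiv.addLeft (dl (0, 0) b))
    rw [ln_add_aux_dl, ln_add_aux_al, map_mul]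
  · change P (el p.1 (t p.2) (a + b)) = P (el p.1 (t p.2) a) * P (el p.1 (t p.2) b)
    rw [ln_add_aux_el, map_mul]

end Pool.Agent.Helper159.ET.L3
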