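import Mathlib
import Pool.Agent.Helper159.ET.G

set_option autoImplicit false

open scoped InnerProductSpace Topology ComplexOrder BoundedContinuousFunction
open Filter

namespace Pool.Agent.Helper159.ET.U1

open Pool.Agent.Helper278 Pool.Agent.Helper436.SM Pool.Agent.Helper436.SM.ExR
open Pool.Agent.Helper278.TB (HP)

theorem et_norm_unitary_le {H : Type} [NormedAddCommGroup H] [InnerProductSpace ℂ H] [CompleteSpace H]
    {N : VonNeumannAlgebra H} (u : unitary (Elt N)) : ‖(u : Elt N)‖ ≤ 1 := by
  rcases subsingleton_or_nontrivial (Elt N) with h | h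
  · have : (u : Elt N) = 0 := Subsingleton.elim _ _
    rw [this, norm_zero]
    exact zero_le_one
  · exact (CStarRing.norm_of_mem_unitary u.2).le

/-- the bounded sequence of a sequence of unitaries -/
noncomputable def bU {H : Type} [NormedAddCommGroup H] [InnerProductSpace ℂ H] [CompleteSpace H]
    {N : VonNeumannAlgebra H} (w : ℕ → unitary (Elt N)) : ℕ →ᵇ Elt N :=
  BoundedContinuousFunction.ofNormedAddCommGroupDiscrete (fun n => (w n : Elt N)) 1
    (fun n => et_norm_unitary_le (w n))

theorem exists_PU {H : Type} [NormedAddCommGroup H] [InnerProductSpace ℂ H] [CompleteSpace H]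
    {N : VonNeumannAlgebra H} {Q : Type} [Ring Q] [StarRing Q] [Algebra ℂ Q]
    (π : (ℕ →ᵇ Elt N) →⋆ₐ[ℂ] Q) : ∃ F : (ℕ → unitary (Elt N)) →* unitary Q,
      ∀ (w : ℕ → unitary (Elt N)) (b : ℕ →ᵇ Elt N), (∀ n, b n = (w n : Elt N)) →
        (F w : Q) = π b := by
  have hmem : ∀ w : ℕ → unitary (Elt N), π (bU w) ∈ unitary Q := by
    intro w
    rw [Unitary.mem_iff]
    constructor
    · rw [← map_star, ← map_mul]
      have : star (bU w) * bU w = 1 := by
        ext1 n
        exact Unitary.star_mul_self_of_mem (w n).2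
      rw [this, map_one]
    · rw [← map_star, ← map_mul]
      have : bU w * star (bU w) = 1 := by
        ext1 n
        exact Unitary.mul_star_self_of_mem (w n).2
      rw [this, map_one]
  refine ⟨{ toFun := fun w => ⟨π (bU w), hmem w⟩, map_one' := ?_, map_mul' := ?_ }, ?_⟩
  · apply Subtype.ext
    have : (bU (1 : ℕ → unitary (Elt N))) = 1 := by
      ext1 n
      rfl
    show π (bU (1 : ℕ → unitary (Elt N))) = 1
    rw [this, map_one]
  · intro w w'
    apply Subtype.ext
    have : bU (w * w') = bU w * bU w' := by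
      ext1 n
      rfl
    show π (bU (w * w')) = π (bU w) * π (bU w')
    rw [this, map_mul]
  · intro w b hb
    have : bU w = b := by
      ext1 n
      exact (hb n).symm
    show π (bU w) = π b
    rw [this]

theorem pi_congr {H : Type} [NormedAddCommGroup H] [InnerProductSpace ℂ H] [CompleteSpace H]
    {N : VonNeumannAlgebra H} {T : TracialState N} {U : Ultrafilter ℕ}
    {Q : Type} [Ring Q] [StarRing Q] [Algebra ℂ Q]
    {π : (ℕ →ᵇ Elt N) →⋆ₐ[ℂ] Q} {σ : Q → ℂ} (hπ : IsTracialUltrapower T.τ U π σ)
    (b b' : ℕ →ᵇ Elt N) (hb : ∀ᶠ n in (U : Filter ℕ), b n = b' n) : π b = π b' := by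
  have h1 : π (b - b') = 0 := by
    rw [hπ.ker]
    apply tendsto_const_nhds.congr'
    refine hb.mono fun n hn => ?_
    have h2 : (b - b') n = 0 := by
      rw [BoundedContinuousFunction.sub_apply, hn, sub_self]
    show (0:ℂ) = T.τ (star ((b - b') n) * (b - b') n)
    rw [h2, mul_zero, map_zero]
  rw [map_sub, sub_eq_zero] at h1
  exact h1

end Pool.Agent.Helper159.ET.U1
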