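import Mathlib
import Pool.Agent.Helper159.ET.G
import Pool.Agent.Helper278.TB.PropT

set_option autoImplicit false

open scoped InnerProductSpace Topology ComplexOrder BoundedContinuousFunction
open Filter

namespace Pool.Agent.Helper159.ET.U10

open Pool.Agent.Helper278 Pool.Agent.Helper436.SM Pool.Agent.Helper436.SM.ExR
open Pool.Agent.Helper278.TB (HP)


theorem propT_G {X : Type} [Group X] (G : Subgroup X) (u : LI → KF → X)
    (hG : G = Subgroup.closure {g | ∃ p c, g = u p c})
    (hadd : ∀ p a b, u p (a + b) = u p a * u p b)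
    (hp : ∀ p q, p ≠ q → HP (u p) (u q))
    (HP_sub : ∀ {K X : Type} [Field K] [Group X] (G : Subgroup X) (u u' : K → G)
      (_ : HP (fun c => (u c : X)) (fun c => (u' c : X))), HP u u') :
    ∃ S : Finset G, ∃ ε : ℝ, 0 < ε ∧
      ∀ (H : Type) [NormedAddCommGroup H] [InnerProductSpace ℂ H] [CompleteSpace H]
        (ρ : G →* unitary (H →L[ℂ] H)),
        (∃ x : H, ‖x‖ = 1 ∧ ∀ s ∈ S, ‖(ρ s : H →L[ℂ] H) x - x‖ < ε) →
          ∃ x : H, x ≠ 0 ∧ ∀ g : G, (ρ g : H →L[ℂ] H) x = x := by
  have hmem : ∀ p c, u p c ∈ G := fun p c => by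
    rw [hG]; exact Subgroup.subset_closure ⟨p, c, rfl⟩
  have hcard : Fintype.card LI = 11 := by decide
  let e : Fin 11 ≃ LI := (Fintype.equivFinOfCardEq hcard).symm
  let w : Fin 11 → KF → G := fun n c => ⟨u (e n) c, hmem _ _⟩
  refine Pool.Agent.Helper278.TB.propT_lines (K := KF) (by rw [card_KF]) (n := 11) (by norm_num)
    (by norm_num) w ?_ ?_ ?_
  · intro i a b
    exact Subtype.ext (hadd _ a b)
  · intro i j hij
    left
    exact HP_sub G (w i) (w j) (hp _ _ (fun h => hij (e.injective h)))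
  · rw [eq_top_iff]
    rintro ⟨g, hg⟩ -
    have hg2 : g ∈ Subgroup.closure {g | ∃ p c, g = u p c} := by rw [← hG]; exact hg
    have key : ∀ x, x ∈ Subgroup.closure {g | ∃ p c, g = u p c} → ∀ hx : x ∈ G,
        (⟨x, hx⟩ : G) ∈ Subgroup.closure {g | ∃ i t, g = w i t} := by
      intro x hx
      refine Subgroup.closure_induction (p := fun x _ => ∀ hx : x ∈ G, (⟨x, hx⟩ : G) ∈
        Subgroup.closure {g | ∃ i t, g = w i t}) ?_ ?_ ?_ ?_ hx
      · rintro x ⟨p, c, rfl⟩ hx
        refine Subgroup.subset_closure ⟨e.symm p, c, ?_⟩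
        apply Subtype.ext
        show u p c = u (e (e.symm p)) c
        rw [e.apply_symm_apply]
      · intro _; exact one_mem _
      · intro x y hx hy h1 h2 hxy
        have hxG : x ∈ G := by rw [hG]; exact hx
        have hyG : y ∈ G := by rw [hG]; exact hy
        exact mul_mem (h1 hxG) (h2 hyG)
      · intro x hx h1 hxi
        have hxG : x ∈ G := by rw [hG]; exact hx
        exact inv_mem (h1 hxG)
    exact key g hg2 hg

end Pool.Agent.Helper159.ET.U10
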