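import Mathlib
import Pool.Agent.Helper159.ET.G

set_option autoImplicit false

open scoped InnerProductSpace Topology ComplexOrder BoundedContinuousFunction
open Filter

namespace Pool.Agent.Helper159.ET.U2

open Pool.Agent.Helper278 Pool.Agent.Helper436.SM Pool.Agent.Helper436.SM.ExR
open Pool.Agent.Helper278.TB (HP)

theorem zig_inj_aux : Function.Injective zig := by
  intro a b h
  unfold zig at h
  split_ifs at h <;> omega

theorem vma_aux (n : ℕ) (k : ℤ) (hk : |k| ≤ n) : ((k : ZMod (2 * n + 1))).valMinAbs = k := by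
  rw [ZMod.valMinAbs_spec]
  rw [abs_le] at hk
  refine ⟨rfl, ?_, ?_⟩
  · push_cast
    linarith
  · push_cast
    linarith

theorem sn_inj (n : ℕ) : Function.Injective (sn n) := by
  rintro ⟨⟨i, z⟩, j⟩ ⟨⟨i', z'⟩, j'⟩ h
  unfold sn at h
  dsimp only at h
  have hi := i.2
  have hi' := i'.2
  have hj := j.2
  have hj' := j'.2
  have h1 : zig z.valMinAbs = zig z'.valMinAbs := by omega
  have h2 : (i : ℕ) = i' := by omega
  have h3 : (j : ℕ) = j' := by omega
  have h4 : z = z' := ZMod.injective_valMinAbs (zig_inj_aux h1)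
  have h5 : i = i' := Fin.ext h2
  have h6 : j = j' := Fin.ext h3
  rw [h4, h5, h6]

theorem xs_dl (n : ℕ) (i : Fin 3) (k : ℤ) (hk : |k| ≤ n) (c : KF) :
    xs (sn n) (dl (i, (k : ZMod (2 * n + 1))) c) = Xv i k c := by
  unfold xs Xv
  rw [Fintype.sum_prod_type, Finset.sum_eq_single (i, (k : ZMod (2 * n + 1)))]
  · apply Finset.sum_congr rfl
    intro j _
    unfold sn dl
    dsimp only
    rw [vma_aux n k hk, Pi.single_eq_same]
  · intro p _ hp
    apply Finset.sum_eq_zero
    intro j _
    unfold dl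
    dsimp only
    rw [Pi.single_eq_of_ne hp, map_zero]
    simp
  · intro h
    exact absurd (Finset.mem_univ _) h

theorem zs_dl (n : ℕ) (i : Fin 3) (k : ℤ) (hk : |k| ≤ n) (c : KF) :
    zs (sn n) (dl (i, (k : ZMod (2 * n + 1))) c) = Zv i k c := by
  unfold zs Zv
  rw [Fintype.sum_prod_type, Finset.sum_eq_single (i, (k : ZMod (2 * n + 1)))]
  · apply Finset.sum_congr rfl
    intro j _
    unfold sn dl
    dsimp only
    rw [vma_aux n k hk, Pi.single_eq_same]
  · intro p _ hp
    apply Finset.sum_eq_zero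
    intro j _
    unfold dl
    dsimp only
    rw [Pi.single_eq_of_ne hp, zero_mul, map_zero]
    simp
  · intro h
    exact absurd (Finset.mem_univ _) h

end Pool.Agent.Helper159.ET.U2
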