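import Mathlib
import Pool.Agent.Helper159.ET.G

set_option autoImplicit false

open scoped InnerProductSpace Topology ComplexOrder BoundedContinuousFunction
open Filter

namespace Pool.Agent.Helper159.ET.U3

open Pool.Agent.Helper278 Pool.Agent.Helper436.SM Pool.Agent.Helper436.SM.ExR
open Pool.Agent.Helper278.TB (HP)

theorem zig_surj (q : ℕ) : ∃ k : ℤ, zig k = q := by
  rcases Nat.even_or_odd' q with ⟨t, ht | ht⟩
  · refine ⟨(t : ℤ), ?_⟩
    unfold zig
    rw [if_pos (by positivity)]
    simp [ht]
  · refine ⟨-((t : ℤ) + 1), ?_⟩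
    unfold zig
    rw [if_neg (by omega)]
    have : (-(-((t : ℤ) + 1))).toNat = t + 1 := by omega
    rw [this]; omega

noncomputable def TZ : KF →ₗ[ZMod 2] (Fin 8 → ZMod 2) where
  toFun c j := lam (c * bK j)
  map_add' c d := by funext j; simp [add_mul]
  map_smul' a c := by funext j; simp

theorem TZ_surj : Function.Surjective TZ := by
  have hfin : Module.finrank (ZMod 2) KF = Module.finrank (ZMod 2) (Fin 8 → ZMod 2) := by
    rw [Module.finrank_fin_fun]
    exact GaloisField.finrank 2 (by norm_num)
  rw [← LinearMap.injective_iff_surjective_of_finrank_eq_finrank hfin]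
  rw [← LinearMap.ker_eq_bot, LinearMap.ker_eq_bot']
  intro c hc
  by_contra hne
  have h1 : ∀ x : KF, lam (c * x) = 0 := by
    have e : lam ∘ₗ (LinearMap.mulLeft (ZMod 2) c) = 0 := by
      apply bK.ext
      intro j
      have := congrFun hc j
      simpa [TZ] using this
    intro x
    have := LinearMap.congr_fun e x
    simpa using this
  have h2 := h1 (c⁻¹ * bK 0)
  rw [mul_inv_cancel_left₀ hne] at h2
  simp [lam] at h2

theorem strings_closure (p : VV → Prop) (h0 : p 0) (hadd : ∀ v w, p v → p w → p (v + w))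
    (hX : ∀ i k c, p (Xv i k c)) (hZ : ∀ i k c, p (Zv i k c)) (v : VV) : p v := by
  induction v using Finsupp.induction_linear with
  | zero => exact h0
  | add v w hv hw => exact hadd v w hv hw
  | single m ab =>
    obtain ⟨a, b⟩ := ab
    have e : (Finsupp.single m (a, b) : VV) = Finsupp.single m (a, 0) + Finsupp.single m (0, b) := by
      rw [← Finsupp.single_add]; simp
    rw [e]
    obtain ⟨k, hk⟩ := zig_surj (m / 24)
    have hi : m % 24 / 8 < 3 := by omega
    have hj : m % 8 < 8 := by omega
    have hm : ∀ j' : Fin 8, j' = ⟨m % 8, hj⟩ →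
        24 * zig k + 8 * ((⟨m % 24 / 8, hi⟩ : Fin 3) : ℕ) + (j' : ℕ) = m := by
      intro j' hj'
      subst hj'
      rw [hk]
      simp only
      omega
    apply hadd
    · have e2 : Xv ⟨m % 24 / 8, hi⟩ k (a • bK ⟨m % 8, hj⟩) = Finsupp.single m (a, 0) := by
        unfold Xv
        rw [Finset.sum_eq_single (⟨m % 8, hj⟩ : Fin 8)]
        · rw [hm _ rfl]; simp
        · intro j' _ hne
          have : bK.repr (a • bK ⟨m % 8, hj⟩) j' = 0 := by
            simp [Finsupp.single_apply, Ne.symm hne]
          rw [this]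
          exact Finsupp.single_zero _
        · intro h; exact absurd (Finset.mem_univ _) h
      rw [← e2]; exact hX _ _ _
    · obtain ⟨c, hc⟩ := TZ_surj (Pi.single (⟨m % 8, hj⟩ : Fin 8) b)
      have hc' : ∀ j' : Fin 8, lam (c * bK j') = (Pi.single (⟨m % 8, hj⟩ : Fin 8) b : Fin 8 → ZMod 2) j' :=
        fun j' => congrFun hc j'
      have e2 : Zv ⟨m % 24 / 8, hi⟩ k c = Finsupp.single m (0, b) := by
        unfold Zv
        rw [Finset.sum_eq_single (⟨m % 8, hj⟩ : Fin 8)]
        · rw [hm _ rfl, hc']; simp
        · intro j' _ hne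
          rw [hc', Pi.single_eq_of_ne hne]
          exact Finsupp.single_zero _
        · intro h; exact absurd (Finset.mem_univ _) h
      rw [← e2]; exact hZ _ _ _

end Pool.Agent.Helper159.ET.U3
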