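import Mathlib
import Pool.Agent.Helper159.ET.G

set_option autoImplicit false

open scoped InnerProductSpace Topology ComplexOrder BoundedContinuousFunction
open Filter

namespace Pool.Agent.Helper159.ET.U4

open Pool.Agent.Helper278 Pool.Agent.Helper436.SM Pool.Agent.Helper436.SM.ExR
open Pool.Agent.Helper278.TB (HP)

theorem all_sites {X : Type} [Group X] (G : Subgroup X) (x : Fin 3 → ℤ → KF → X)
    (e : Fin 3 → Fin 3 → X) (tz : Fin 3 → ℤ) (ht : tz 0 = 0 ∧ tz 1 = 1 ∧ tz 2 = -1)
    (he : ∀ i a, e i a ∈ G) (h0 : ∀ c, x 0 0 c ∈ G)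
    (hs : ∀ i a k c, x i (k + tz a) c = e i a * x (i + 1) k c * (e i a)⁻¹ * (x (i + 1) k c)⁻¹) :
    ∀ i k c, x i k c ∈ G := by
  have step : ∀ i a k c, x (i + 1) k c ∈ G → x i (k + tz a) c ∈ G := by
    intro i a k c h
    rw [hs]
    exact G.mul_mem (G.mul_mem (G.mul_mem (he i a) h) (G.inv_mem (he i a))) (G.inv_mem h)
  have hP : ∀ k : ℤ, ∀ i c, x i k c ∈ G := by
    intro k
    induction k using Int.induction_on with
    | zero =>
      have h2 : ∀ c, x 2 0 c ∈ G := by
        intro c
        have h := step 2 0 0 c (h0 c)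
        rwa [ht.1, add_zero] at h
      have h1 : ∀ c, x 1 0 c ∈ G := by
        intro c
        have h := step 1 0 0 c (h2 c)
        rwa [ht.1, add_zero] at h
      intro i c
      fin_cases i
      · exact h0 c
      · exact h1 c
      · exact h2 c
    | succ k ih =>
      intro i c
      have h := step i 1 _ c (ih (i + 1) c)
      rwa [ht.2.1] at h
    | pred k ih =>
      intro i c
      have h := step i 2 _ c (ih (i + 1) c)
      rw [ht.2.2] at h
      exact h
  exact fun i k c => hP k i c

theorem all_sites' {X : Type} [Group X] (G : Subgroup X) (x : Fin 3 → ℤ → KF → X)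
    (e : Fin 3 → Fin 3 → X) (tz : Fin 3 → ℤ) (ht : tz 0 = 0 ∧ tz 1 = 1 ∧ tz 2 = -1)
    (he : ∀ i a, e i a ∈ G) (h0 : ∀ c, x 0 0 c ∈ G)
    (hs : ∀ i a k c, x (i + 1) (k - tz a) c = (x i k c)⁻¹ * ((e i a)⁻¹ * x i k c * e i a)) :
    ∀ i k c, x i k c ∈ G := by
  have step : ∀ i a k c, x i k c ∈ G → x (i + 1) (k - tz a) c ∈ G := by
    intro i a k c h
    rw [hs]
    exact G.mul_mem (G.inv_mem h) (G.mul_mem (G.mul_mem (G.inv_mem (he i a)) h) (he i a))
  have hback : ∀ i : Fin 3, i + 2 + 1 = i := by decide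
  have hP : ∀ k : ℤ, ∀ i c, x i k c ∈ G := by
    intro k
    induction k using Int.induction_on with
    | zero =>
      have h1 : ∀ c, x 1 0 c ∈ G := by
        intro c
        have h := step 0 0 0 c (h0 c)
        rw [ht.1, sub_zero] at h
        exact h
      have h2 : ∀ c, x 2 0 c ∈ G := by
        intro c
        have h := step 1 0 0 c (h1 c)
        rw [ht.1, sub_zero] at h
        exact h
      intro i c
      fin_cases i
      · exact h0 c
      · exact h1 c
      · exact h2 c
    | succ k ih =>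
      intro i c
      have h := step (i + 2) 2 _ c (ih (i + 2) c)
      rw [ht.2.2, sub_neg_eq_add, hback] at h
      exact h
    | pred k ih =>
      intro i c
      have h := step (i + 2) 1 _ c (ih (i + 2) c)
      rw [ht.2.1, hback] at h
      exact h
  exact fun i k c => hP k i c

end Pool.Agent.Helper159.ET.U4
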