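import Mathlib
import Pool.Agent.Helper159.ET.G

set_option autoImplicit false

open scoped InnerProductSpace Topology ComplexOrder BoundedContinuousFunction
open Filter

namespace Pool.Agent.Helper159.ET.U5

open Pool.Agent.Helper278 Pool.Agent.Helper436.SM Pool.Agent.Helper436.SM.ExR
open Pool.Agent.Helper278.TB (HP)

theorem HP_map {K X Y : Type} [Field K] [Group X] [Group Y] (F : X →* Y) (u u' : K → X)
    (h : HP u u') : HP (fun c => F (u c)) (fun c => F (u' c)) := by
  obtain ⟨z, hz, hrel, h1, h2⟩ := h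
  refine ⟨fun c => F (z c), ?_, ?_, ?_, ?_⟩
  · intro a b
    show F (z (a + b)) = F (z a) * F (z b)
    rw [hz, map_mul]
  · intro a b
    show F (u a) * F (u' b) = F (u' b) * (F (u a) * F (z (a * b)))
    rw [← map_mul, ← map_mul, ← map_mul, hrel]
  · intro a b
    show F (z a) * F (u b) = F (u b) * F (z a)
    rw [← map_mul, ← map_mul, h1]
  · intro a b
    show F (z a) * F (u' b) = F (u' b) * F (z a)
    rw [← map_mul, ← map_mul, h2]

theorem HP_symm {K X : Type} [Field K] [Group X] (u u' : K → X) (h : HP u u')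
    (hu : ∀ a b, u (a + b) = u a * u b) : HP u' u := by
  obtain ⟨z, hz, hrel, h1, h2⟩ := h
  have hzc : ∀ a b, z a * z b = z b * z a := fun a b => by rw [← hz, ← hz, add_comm]
  refine ⟨fun c => (z c)⁻¹, ?_, ?_, ?_, ?_⟩
  · intro a b
    show (z (a + b))⁻¹ = (z a)⁻¹ * (z b)⁻¹
    rw [hz, hzc, mul_inv_rev]
  · intro a b
    show u' a * u b = u b * (u' a * (z (a * b))⁻¹)
    have h3 := hrel b a
    rw [mul_comm b a] at h3
    calc u' a * u b = u' a * (u b * z (a * b)) * (z (a * b))⁻¹ := by group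
      _ = u b * u' a * (z (a * b))⁻¹ := by rw [← h3]
      _ = u b * (u' a * (z (a * b))⁻¹) := by rw [mul_assoc]
  · intro a b
    show (z a)⁻¹ * u' b = u' b * (z a)⁻¹
    have h3 := h2 a b
    rw [inv_mul_eq_iff_eq_mul, ← mul_assoc, h3, mul_assoc, mul_inv_cancel, mul_one]
  · intro a b
    show (z a)⁻¹ * u b = u b * (z a)⁻¹
    have h3 := h1 a b
    rw [inv_mul_eq_iff_eq_mul, ← mul_assoc, h3, mul_assoc, mul_inv_cancel, mul_one]

theorem HP_pi {K : Type} [Field K] {X : ℕ → Type} [∀ n, Group (X n)] (u u' : ∀ n, K → X n)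
    (h : ∀ n, HP (u n) (u' n)) : HP (fun c => fun n => u n c) (fun c => fun n => u' n c) := by
  choose z hz hrel h1 h2 using h
  refine ⟨fun c => fun n => z n c, ?_, ?_, ?_, ?_⟩
  · intro a b
    funext n
    exact hz n a b
  · intro a b
    funext n
    exact hrel n a b
  · intro a b
    funext n
    exact h1 n a b
  · intro a b
    funext n
    exact h2 n a b

theorem HP_sub {K X : Type} [Field K] [Group X] (G : Subgroup X) (u u' : K → G)
    (h : HP (fun c => (u c : X)) (fun c => (u' c : X))) : HP u u' := by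
  obtain ⟨z, hz, hrel, h1, h2⟩ := h
  have hzG : ∀ a, z a ∈ G := by
    intro a
    have h3 : (u a : X) * (u' 1 : X) = (u' 1 : X) * ((u a : X) * z a) := by
      have := hrel a 1
      rwa [mul_one] at this
    have e : z a = (u a : X)⁻¹ * (u' 1 : X)⁻¹ * ((u a : X) * (u' 1 : X)) := by
      rw [h3]
      group
    rw [e]
    exact mul_mem (mul_mem (inv_mem (u a).2) (inv_mem (u' 1).2)) (mul_mem (u a).2 (u' 1).2)
  refine ⟨fun a => ⟨z a, hzG a⟩, ?_, ?_, ?_, ?_⟩
  · intro a b; exact Subtype.ext (hz a b)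
  · intro a b; exact Subtype.ext (hrel a b)
  · intro a b; exact Subtype.ext (h1 a b)
  · intro a b; exact Subtype.ext (h2 a b)

end Pool.Agent.Helper159.ET.U5
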