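import Mathlib
import Pool.Agent.Helper159.ET.G

set_option autoImplicit false

open scoped InnerProductSpace Topology ComplexOrder BoundedContinuousFunction
open Filter

namespace Pool.Agent.Helper159.ET.U6

open Pool.Agent.Helper278 Pool.Agent.Helper436.SM Pool.Agent.Helper436.SM.ExR
open Pool.Agent.Helper278.TB (HP)

theorem dense_W (x : Elt NP) (ε : ℝ) (hε : 0 < ε) :
    ∃ a ∈ Submodule.span ℂ (Set.range Wn), n2 TP.τ (x - a) < ε := by
  classical
  let φ : Elt NP →ₗ[ℂ] EllTwo VV :=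
    { toFun := fun y => (y : EllTwo VV →L[ℂ] EllTwo VV) (bb 0)
      map_add' := fun _ _ => rfl
      map_smul' := fun _ _ => rfl }
  have hφ : ∀ y : Elt NP, n2 TP.τ y = ‖φ y‖ := by
    intro y
    show Real.sqrt (trP (star y * y)).re = _
    rw [trP_star_mul]
    have h := inner_self_eq_norm_sq (𝕜 := ℂ) (φ y)
    have h' : (⟪(y : EllTwo VV →L[ℂ] EllTwo VV) (bb 0),
        (y : EllTwo VV →L[ℂ] EllTwo VV) (bb 0)⟫_ℂ).re = ‖φ y‖ ^ 2 := h
    rw [h', Real.sqrt_sq (norm_nonneg _)]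
  have hW : ∀ v, φ (Wn v) = bb v := fun v => Wo_bb v
  have h1 : HasSum (fun v => bb.repr (φ x) v • bb v) (φ x) := bb.hasSum_repr (φ x)
  obtain ⟨F, hF⟩ := (h1.eventually (Metric.ball_mem_nhds (φ x) hε)).exists
  refine ⟨∑ v ∈ F, bb.repr (φ x) v • Wn v,
    Submodule.sum_mem _ fun v _ => Submodule.smul_mem _ _ (Submodule.subset_span ⟨v, rfl⟩), ?_⟩
  rw [hφ, map_sub, map_sum]
  simp only [map_smul, hW]
  rw [dist_comm, dist_eq_norm] at hF
  exact hF
end Pool.Agent.Helper159.ET.U6
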