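import Mathlib
import Pool.Agent.Helper159.ET.G
import Pool.Agent.Helper278.CEBall

set_option autoImplicit false

open scoped InnerProductSpace Topology ComplexOrder BoundedContinuousFunction
open Filter

namespace Pool.Agent.Helper159.ET.U7

open Pool.Agent.Helper278 Pool.Agent.Helper436.SM Pool.Agent.Helper436.SM.ExR
open Pool.Agent.Helper278.TB (HP)

theorem const_emb {H : Type} [NormedAddCommGroup H] [InnerProductSpace ℂ H] [CompleteSpace H]
    {N : VonNeumannAlgebra H} {T : TracialState N} {U : Ultrafilter ℕ}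
    {Q : Type} [Ring Q] [StarRing Q] [Algebra ℂ Q] [StarModule ℂ Q]
    {π : (ℕ →ᵇ Elt N) →⋆ₐ[ℂ] Q} {σ : Q → ℂ} (hπ : IsTracialUltrapower T.τ U π σ) :
    ∃ c : Elt N →⋆ₐ[ℂ] Q, (∀ x, c x = π (BoundedContinuousFunction.const ℕ x)) ∧
      (∀ x, σ (c x) = T.τ x) ∧ ∀ x, n2 (sigmaL hπ) (c x) = n2 T.τ x := by
  let θ : Elt N →⋆ₐ[ℂ] Q :=
    { toFun := fun x => π (BoundedContinuousFunction.const ℕ x)
      map_one' := map_one π
      map_mul' := fun x y => by rw [← map_mul]; rfl
      map_zero' := map_zero π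
      map_add' := fun x y => by rw [← map_add]; rfl
      commutes' := fun c => by
        rw [← AlgHomClass.commutes π c]
        rfl
      map_star' := fun x => by rw [← map_star]; rfl }
  refine ⟨θ, fun x => rfl, fun x => ?_, fun x => ?_⟩
  · exact tendsto_nhds_unique (hπ.trace (BoundedContinuousFunction.const ℕ x)) tendsto_const_nhds
  · exact (tendsto_nhds_unique
      (CE.tendsto_n2_pi hπ (BoundedContinuousFunction.const ℕ x)) tendsto_const_nhds)

end Pool.Agent.Helper159.ET.U7
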