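import Mathlib
import Pool.Agent.Helper159.ET.G

set_option autoImplicit false

open scoped InnerProductSpace Topology ComplexOrder BoundedContinuousFunction
open Filter

namespace Pool.Agent.Helper159.ET.U8

open Pool.Agent.Helper278 Pool.Agent.Helper436.SM Pool.Agent.Helper436.SM.ExR
open Pool.Agent.Helper278.TB (HP)

theorem strings_in {U : Ultrafilter ℕ} (hU : ∀ n, {n} ∉ U) {Q : Type} [Ring Q] [StarRing Q]
    [Algebra ℂ Q] [StarModule ℂ Q] {π : (ℕ →ᵇ Elt NP) →⋆ₐ[ℂ] Q} {σ : Q → ℂ}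
    (hπ : IsTracialUltrapower TP.τ U π σ)
    (F : (ℕ → unitary (Elt NP)) →* unitary Q)
    (hF : ∀ (w : ℕ → unitary (Elt NP)) (b : ℕ →ᵇ Elt NP), (∀ n, b n = (w n : Elt NP)) →
        (F w : Q) = π b)
    (P : ∀ n : ℕ, Equiv.Perm (Fin 3 × ZMod (2 * n + 1) → KF) →* unitary (Elt NP))
    (ZZ : ∀ n : ℕ, (Fin 3 × ZMod (2 * n + 1) → KF) → unitary (Elt NP))
    (hP : ∀ n f, (P n (Equiv.addLeft f) : Elt NP) = Wn (xs (sn n) f))
    (hZ : ∀ n f, (ZZ n f : Elt NP) = Wn (zs (sn n) f)) (hR : ∀ n, LvlRel (P n) (ZZ n))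
    (G : Subgroup (unitary Q))
    (hG : ∀ (p : LI) (c : KF), F (fun n => ln (P n) (ZZ n) (tt n) p c) ∈ G)
    (pi_congr : ∀ (b b' : ℕ →ᵇ Elt NP), (∀ᶠ n in (U : Filter ℕ), b n = b' n) → π b = π b')
    (xs_dl : ∀ (n : ℕ) (i : Fin 3) (k : ℤ), |k| ≤ n → ∀ (c : KF),
      xs (sn n) (dl (i, (k : ZMod (2 * n + 1))) c) = Xv i k c)
    (zs_dl : ∀ (n : ℕ) (i : Fin 3) (k : ℤ), |k| ≤ n → ∀ (c : KF),
      zs (sn n) (dl (i, (k : ZMod (2 * n + 1))) c) = Zv i k c)
    (strings_closure : ∀ (p : VV → Prop) (_ : p 0) (_ : ∀ v w, p v → p w → p (v + w))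
      (_ : ∀ i k c, p (Xv i k c)) (_ : ∀ i k c, p (Zv i k c)) (v : VV), p v)
    (all_sites : ∀ {X : Type} [Group X] (G : Subgroup X) (x : Fin 3 → ℤ → KF → X)
      (e : Fin 3 → Fin 3 → X) (tz : Fin 3 → ℤ) (_ : tz 0 = 0 ∧ tz 1 = 1 ∧ tz 2 = -1)
      (_ : ∀ i a, e i a ∈ G) (_ : ∀ c, x 0 0 c ∈ G)
      (_ : ∀ i a k c, x i (k + tz a) c =
        e i a * x (i + 1) k c * (e i a)⁻¹ * (x (i + 1) k c)⁻¹), ∀ i k c, x i k c ∈ G)
    (all_sites' : ∀ {X : Type} [Group X] (G : Subgroup X) (x : Fin 3 → ℤ → KF → X)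
      (e : Fin 3 → Fin 3 → X) (tz : Fin 3 → ℤ) (_ : tz 0 = 0 ∧ tz 1 = 1 ∧ tz 2 = -1)
      (_ : ∀ i a, e i a ∈ G) (_ : ∀ c, x 0 0 c ∈ G)
      (_ : ∀ i a k c, x (i + 1) (k - tz a) c = (x i k c)⁻¹ * ((e i a)⁻¹ * x i k c * e i a)),
      ∀ i k c, x i k c ∈ G)
    (X_step : ∀ {Z : Type} [AddCommGroup Z] [DecidableEq Z] [Fintype Z] {X : Type} [Group X]
      (P : Equiv.Perm (Fin 3 × Z → KF) →* X) (i : Fin 3) (a k : Z) (c : KF),
      P (Equiv.addLeft (dl (i, k + a) c)) = P (el i a 1) * P (Equiv.addLeft (dl (i + 1, k) c)) *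
      (P (el i a 1))⁻¹ * (P (Equiv.addLeft (dl (i + 1, k) c)))⁻¹)
    (Z_step : ∀ {Z : Type} [AddCommGroup Z] [DecidableEq Z] [Fintype Z] {X : Type} [Group X]
      (P : Equiv.Perm (Fin 3 × Z → KF) →* X) (ZZ : (Fin 3 × Z → KF) → X) (_ : LvlRel P ZZ)
      (i : Fin 3) (a k : Z) (c : KF), ZZ (dl (i + 1, k - a) c) = (ZZ (dl (i, k) c))⁻¹ *
      ((P (el i a 1))⁻¹ * ZZ (dl (i, k) c) * P (el i a 1)))
    (v : VV) :
    ∃ g ∈ G, ∃ s : ℂ, π (BoundedContinuousFunction.const ℕ (Wn v)) = s • (g : Q) := by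
  have hUle : (U : Filter ℕ) ≤ atTop := by
    rw [← Nat.cofinite_eq_atTop, Filter.le_cofinite_iff_compl_singleton_mem]
    intro n
    exact Ultrafilter.compl_mem_iff_notMem.2 (hU n)
  have hev : ∀ k : ℤ, ∀ᶠ n : ℕ in (U : Filter ℕ), |k| ≤ (n : ℤ) := by
    intro k
    apply hUle
    filter_upwards [eventually_ge_atTop (|k|.toNat)] with n hn
    exact Int.toNat_le.mp hn
  have hlift : ∀ (w : ℕ → unitary (Elt NP)) (a : Elt NP),
      (∀ᶠ n in (U : Filter ℕ), (w n : Elt NP) = a) →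
      π (BoundedContinuousFunction.const ℕ a) = (F w : Q) := by
    intro w a h
    have hb : ∀ n, ‖((w n : unitary (Elt NP)) : Elt NP)‖ ≤ 1 + ‖(1 : Elt NP)‖ := by
      intro n
      have h1 := CStarRing.norm_star_mul_self (x := ((w n : unitary (Elt NP)) : Elt NP))
      rw [Unitary.coe_star_mul_self] at h1
      nlinarith [norm_nonneg ((w n : unitary (Elt NP)) : Elt NP), norm_nonneg (1 : Elt NP)]
    have h2 := hF w (BoundedContinuousFunction.ofNormedAddCommGroupDiscrete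
      (fun n => ((w n : unitary (Elt NP)) : Elt NP)) _ hb) (fun n => rfl)
    rw [h2]
    apply pi_congr
    filter_upwards [h] with n hn
    exact hn.symm
  let xx : Fin 3 → ℤ → KF → unitary Q := fun i k c =>
    F (fun n => P n (Equiv.addLeft (dl (i, (k : ZMod (2 * n + 1))) c)))
  let zz : Fin 3 → ℤ → KF → unitary Q := fun i k c =>
    F (fun n => ZZ n (dl (i, (k : ZMod (2 * n + 1))) c))
  let ee : Fin 3 → Fin 3 → unitary Q := fun i a => F (fun n => P n (el i (tt n a) 1))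
  let tz : Fin 3 → ℤ := fun a => if a = 0 then 0 else if a = 1 then 1 else -1
  have htt : ∀ (n : ℕ) (a : Fin 3), ((tz a : ℤ) : ZMod (2 * n + 1)) = tt n a := by
    intro n a
    simp only [tz, tt]
    split_ifs <;> simp
  have htz3 : tz 0 = 0 ∧ tz 1 = 1 ∧ tz 2 = -1 := by decide
  have heG : ∀ i a, ee i a ∈ G := fun i a => hG (Sum.inr (i, a)) 1
  have hx0 : ∀ c, xx 0 0 c ∈ G := by
    intro c
    have h1 := hG (Sum.inl true) c
    have h2 : (fun n => ln (P n) (ZZ n) (tt n) (Sum.inl true) c) =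
        fun n => P n (Equiv.addLeft (dl (0, ((0 : ℤ) : ZMod (2 * n + 1))) c)) := by
      funext n
      rw [Int.cast_zero]
      rfl
    rw [h2] at h1
    exact h1
  have hz0 : ∀ c, zz 0 0 c ∈ G := by
    intro c
    have h1 := hG (Sum.inl false) c
    have h2 : (fun n => ln (P n) (ZZ n) (tt n) (Sum.inl false) c) =
        fun n => ZZ n (dl (0, ((0 : ℤ) : ZMod (2 * n + 1))) c) := by
      funext n
      rw [Int.cast_zero]
      rfl
    rw [h2] at h1
    exact h1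
  have hxstep : ∀ i a k c, xx i (k + tz a) c =
      ee i a * xx (i + 1) k c * (ee i a)⁻¹ * (xx (i + 1) k c)⁻¹ := by
    intro i a k c
    show F _ = F _ * F _ * (F _)⁻¹ * (F _)⁻¹
    rw [← map_inv F, ← map_inv F, ← map_mul, ← map_mul, ← map_mul]
    congr 1
    funext n
    show P n (Equiv.addLeft (dl (i, ((k + tz a : ℤ) : ZMod (2 * n + 1))) c)) = _
    rw [Int.cast_add, htt]
    exact X_step (P n) i (tt n a) (k : ZMod (2 * n + 1)) c
  have hzstep : ∀ i a k c, zz (i + 1) (k - tz a) c =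
      (zz i k c)⁻¹ * ((ee i a)⁻¹ * zz i k c * ee i a) := by
    intro i a k c
    show F _ = (F _)⁻¹ * ((F _)⁻¹ * F _ * F _)
    rw [← map_inv F, ← map_inv F, ← map_mul, ← map_mul, ← map_mul]
    congr 1
    funext n
    show ZZ n (dl (i + 1, ((k - tz a : ℤ) : ZMod (2 * n + 1))) c) = _
    rw [Int.cast_sub, htt]
    exact Z_step (P n) (ZZ n) (hR n) i (tt n a) (k : ZMod (2 * n + 1)) c
  have hX : ∀ i k c, xx i k c ∈ G := all_sites G xx ee tz htz3 heG hx0 hxstep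
  have hZ' : ∀ i k c, zz i k c ∈ G := all_sites' G zz ee tz htz3 heG hz0 hzstep
  refine strings_closure (fun v => ∃ g ∈ G, ∃ s : ℂ,
    π (BoundedContinuousFunction.const ℕ (Wn v)) = s • (g : Q)) ?_ ?_ ?_ ?_ v
  · refine ⟨1, G.one_mem, 1, ?_⟩
    have h0 : Wn 0 = (1 : Elt NP) := Subtype.ext Wo_zero
    have h1 : BoundedContinuousFunction.const ℕ (Wn 0) = (1 : ℕ →ᵇ Elt NP) := by
      rw [h0]
      rfl
    rw [h1, map_one, one_smul]
    rfl
  · rintro v w ⟨g, hg, s, h1⟩ ⟨g', hg', s', h2⟩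
    refine ⟨g * g', G.mul_mem hg hg', sg (bf v w) * (s * s'), ?_⟩
    have h3 : Wn (v + w) = sg (bf v w) • (Wn v * Wn w) := by
      apply Subtype.ext
      show Wo (v + w) = sg (bf v w) • (Wo v * Wo w)
      rw [Wo_mul, smul_smul, sg_mul_self, one_smul]
    have h4 : BoundedContinuousFunction.const ℕ (Wn (v + w)) = sg (bf v w) •
        (BoundedContinuousFunction.const ℕ (Wn v) * BoundedContinuousFunction.const ℕ (Wn w)) := by
      rw [h3]
      rfl
    rw [h4, map_smul, map_mul, h1, h2, smul_mul_smul_comm, smul_smul]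
    rfl
  · intro i k c
    refine ⟨xx i k c, hX i k c, 1, ?_⟩
    rw [one_smul]
    apply hlift
    filter_upwards [hev k] with n hn
    rw [hP, xs_dl n i k hn]
  · intro i k c
    refine ⟨zz i k c, hZ' i k c, 1, ?_⟩
    rw [one_smul]
    apply hlift
    filter_upwards [hev k] with n hn
    rw [hZ, zs_dl n i k hn]

end Pool.Agent.Helper159.ET.U8
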