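import Mathlib
import Pool.Agent.Helper159.ET.G
import Pool.Agent.Helper436.SM.Main

set_option autoImplicit false

open scoped InnerProductSpace Topology ComplexOrder BoundedContinuousFunction
open Filter

namespace Pool.Agent.Helper159.ET.U9

open Pool.Agent.Helper278 Pool.Agent.Helper436.SM Pool.Agent.Helper436.SM.ExR
open Pool.Agent.Helper278.TB (HP)

theorem isIIOne_NP : IsIIOneFactor NP (fun x => TP.τ x) := by
  have hW : PauliSys TP.τ (fun v => (⟨Wo v, Wo_mem v⟩ : Elt NP)) := by
    refine ⟨?_, ?_, ?_, ?_⟩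
    · apply Subtype.ext
      exact Wo_zero
    · intro v w
      apply Subtype.ext
      exact Wo_mul v w
    · intro v
      apply Subtype.ext
      exact star_Wo v
    · intro v
      show ⟪bb 0, Wo v (bb 0)⟫_ℂ = _
      rw [Wo_bb, coef_bb, bb_apply]
      simp only [eq_comm]
  have hP : ∀ x : Elt NP,
      HasSum (fun v => ‖TP.τ (star (⟨Wo v, Wo_mem v⟩ : Elt NP) * x)‖ ^ 2) (n2 TP.τ x ^ 2) := by
    intro x
    have h1 : n2 TP.τ x ^ 2 = (trP (star x * x)).re := by
      show (Real.sqrt (trP (star x * x)).re) ^ 2 = _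
      refine Real.sq_sqrt ?_
      exact (parseval_P x).nonneg fun v => sq_nonneg _
    rw [h1]
    exact parseval_P x
  exact isIIOne_of (pb_unit (trAlg TP) hW hP) gapAll_unit

end Pool.Agent.Helper159.ET.U9
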