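import Mathlib
import Pool.Agent.Helper159.ET.Defs
import Pool.Agent.Helper278.CEMod
import Pool.Agent.Helper278.RGKap

set_option autoImplicit false

open scoped InnerProductSpace Topology ComplexOrder
open Filter

namespace Pool.Agent.Helper159.ET

open Pool.Agent.Helper278 Pool.Agent.Helper278.CE

variable {A : Type} [Ring A] [StarRing A] [Algebra ℂ A] [StarModule ℂ A] {τ : A →ₗ[ℂ] ℂ}
variable {K : Type} [NormedAddCommGroup K] [InnerProductSpace ℂ K] [CompleteSpace K]

/-- the operators of the group `G` of unitaries -/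
def GS (j : A →ₗ[ℂ] K) (G : Subgroup (unitary A)) : Set (K →L[ℂ] K) :=
  {T | ∃ g ∈ G, T = Lm j (g : A)}

/-- the von Neumann algebra generated by the group `G` of unitaries -/
noncomputable def MG (j : A →ₗ[ℂ] K) (G : Subgroup (unitary A)) : VonNeumannAlgebra K :=
  vnGen (GS j G)

/-- the linear span of the group -/
def SG (G : Subgroup (unitary A)) : Submodule ℂ A := Submodule.span ℂ {a | ∃ g ∈ G, a = (g : A)}

/-- the trace -/
noncomputable def tauG (j : A →ₗ[ℂ] K) (G : Subgroup (unitary A)) (x : Elt (MG j G)) : ℂ :=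
  ⟪j 1, (x : K →L[ℂ] K) (j 1)⟫_ℂ

variable (h : TrAlg τ) {j : A →ₗ[ℂ] K} (hd : DenseRange j)
  (hj : ∀ x y, ⟪j x, j y⟫_ℂ = τ (star x * y)) {B : Set A} (hB : Ball τ B)
variable (G : Subgroup (unitary A))

end Pool.Agent.Helper159.ET
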