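import Mathlib
import Pool.Agent.Helper159.ET.VN

set_option autoImplicit false

open scoped InnerProductSpace Topology ComplexOrder
open Filter

namespace Pool.Agent.Helper159.ET.V1

open Pool.Agent.Helper278 Pool.Agent.Helper278.CE

variable {A : Type} [Ring A] [StarRing A] [Algebra ℂ A] [StarModule ℂ A] {τ : A →ₗ[ℂ] ℂ}
variable {K : Type} [NormedAddCommGroup K] [InnerProductSpace ℂ K] [CompleteSpace K]

theorem mem_MG_of_aux (h : TrAlg τ) {j : A →ₗ[ℂ] K} (hd : DenseRange j)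
    (hj : ∀ x y, ⟪j x, j y⟫_ℂ = τ (star x * y)) {B : Set A} (hB : Ball τ B)
    (G : Subgroup (unitary A)) (y : A)
    (hy : ∀ ε : ℝ, 0 < ε → ∃ a ∈ SG G, n2 τ (y - a) < ε) (T : K →L[ℂ] K)
    (hT : T ∈ StarSubalgebra.centralizer ℂ (GS j G)) : T * Lm j y = Lm j y * T := by
  rw [StarSubalgebra.mem_centralizer_iff (R := ℂ)] at hT
  have hsub : ∀ x y : A, Lm j (x - y) = Lm j x - Lm j y := by
    intro x y
    apply ext_j hd
    intro b
    rw [ContinuousLinearMap.sub_apply, Lm_j h hd hj hB, Lm_j h hd hj hB, Lm_j h hd hj hB,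
      sub_mul, map_sub]
  have hadd : ∀ x y : A, Lm j (x + y) = Lm j x + Lm j y := by
    intro x y
    apply ext_j hd
    intro b
    rw [ContinuousLinearMap.add_apply, Lm_j h hd hj hB, Lm_j h hd hj hB, Lm_j h hd hj hB,
      add_mul, map_add]
  have hsmul : ∀ (c : ℂ) (x : A), Lm j (c • x) = c • Lm j x := by
    intro c x
    apply ext_j hd
    intro b
    rw [ContinuousLinearMap.smul_apply, Lm_j h hd hj hB, Lm_j h hd hj hB,
      smul_mul_assoc, map_smul]
  have hzero : Lm j (0 : A) = 0 := by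
    have := hsub 0 0
    rwa [sub_self, sub_self] at this
  have hcomm : ∀ a ∈ SG G, T * Lm j a = Lm j a * T := by
    intro a ha
    unfold SG at ha
    induction ha using Submodule.span_induction with
    | mem x hx =>
      obtain ⟨g, hg, rfl⟩ := hx
      exact ((hT _ ⟨g, hg, rfl⟩).1).symm
    | zero => rw [hzero, mul_zero, zero_mul]
    | add x y _ _ hx hy => rw [hadd, mul_add, add_mul, hx, hy]
    | smul c x _ hx => rw [hsmul, mul_smul_comm, smul_mul_assoc, hx]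
  apply ext_j hd
  intro b
  refine hd.eq_of_inner_left ℂ ?_
  intro c
  obtain ⟨C1, hC1⟩ := bddL h hB (star b)
  obtain ⟨C2, hC2⟩ := bddL h hB (star c)
  set M : ℝ := ‖T‖ * |C1| * ‖j c‖ + ‖T (j b)‖ * |C2| with hM
  have hM0 : 0 ≤ M := by positivity
  have hbound : ∀ a ∈ SG G,
      ‖⟪(T * Lm j y) (j b), j c⟫_ℂ - ⟪(Lm j y * T) (j b), j c⟫_ℂ‖ ≤ M * n2 τ (y - a) := by
    intro a ha
    have e0 : (T * Lm j y) (j b) - (Lm j y * T) (j b)
        = T (j ((y - a) * b)) - Lm j (y - a) (T (j b)) := by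
      have e1 : T * Lm j y - Lm j y * T = T * Lm j (y - a) - Lm j (y - a) * T := by
        rw [hsub, mul_sub, sub_mul, hcomm a ha]
        abel
      have e2 := congrArg (fun w : K →L[ℂ] K => w (j b)) e1
      simp only [ContinuousLinearMap.sub_apply] at e2
      rw [e2]
      show T (Lm j (y - a) (j b)) - Lm j (y - a) (T (j b)) = _
      rw [Lm_j h hd hj hB]
    rw [← inner_sub_left, e0, inner_sub_left]
    have e3 : ⟪Lm j (y - a) (T (j b)), j c⟫_ℂ = ⟪T (j b), j (star (y - a) * c)⟫_ℂ := by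
      rw [← ContinuousLinearMap.adjoint_inner_right, ← ContinuousLinearMap.star_eq_adjoint,
        star_Lm h hd hj hB, Lm_j h hd hj hB]
    rw [e3]
    have n1 : ‖j ((y - a) * b)‖ ≤ |C1| * n2 τ (y - a) := by
      rw [norm_j hj, ← h.n2_star, star_mul]
      refine (hC1 _).trans ?_
      rw [h.n2_star]
      exact mul_le_mul_of_nonneg_right (le_abs_self _) (n2_nonneg _ _)
    have n2' : ‖j (star (y - a) * c)‖ ≤ |C2| * n2 τ (y - a) := by
      rw [norm_j hj, ← h.n2_star, star_mul, star_star]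
      refine (hC2 _).trans ?_
      exact mul_le_mul_of_nonneg_right (le_abs_self _) (n2_nonneg _ _)
    have hn : 0 ≤ n2 τ (y - a) := n2_nonneg _ _
    calc ‖⟪T (j ((y - a) * b)), j c⟫_ℂ - ⟪T (j b), j (star (y - a) * c)⟫_ℂ‖
        ≤ ‖⟪T (j ((y - a) * b)), j c⟫_ℂ‖ + ‖⟪T (j b), j (star (y - a) * c)⟫_ℂ‖ :=
          norm_sub_le _ _
      _ ≤ ‖T (j ((y - a) * b))‖ * ‖j c‖ + ‖T (j b)‖ * ‖j (star (y - a) * c)‖ :=
          add_le_add (norm_inner_le_norm _ _) (norm_inner_le_norm _ _)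
      _ ≤ (‖T‖ * (|C1| * n2 τ (y - a))) * ‖j c‖ + ‖T (j b)‖ * (|C2| * n2 τ (y - a)) := by
          apply add_le_add
          · apply mul_le_mul_of_nonneg_right _ (norm_nonneg _)
            exact (T.le_opNorm _).trans (mul_le_mul_of_nonneg_left n1 (norm_nonneg _))
          · exact mul_le_mul_of_nonneg_left n2' (norm_nonneg _)
      _ = M * n2 τ (y - a) := by rw [hM]; ring
  have hz : ‖⟪(T * Lm j y) (j b), j c⟫_ℂ - ⟪(Lm j y * T) (j b), j c⟫_ℂ‖ ≤ 0 := by
    refine le_of_forall_pos_le_add fun ε hε => ?_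
    obtain ⟨a, ha, hya⟩ := hy (ε / (M + 1)) (by positivity)
    refine (hbound a ha).trans ?_
    have h1 : M * n2 τ (y - a) ≤ M * (ε / (M + 1)) := mul_le_mul_of_nonneg_left hya.le hM0
    have h2 : M * (ε / (M + 1)) ≤ ε := by
      rw [mul_div_assoc', div_le_iff₀ (by positivity)]
      nlinarith
    linarith
  exact sub_eq_zero.1 (norm_le_zero_iff.1 hz)

theorem mem_MG_of (h : TrAlg τ) {j : A →ₗ[ℂ] K} (hd : DenseRange j)
    (hj : ∀ x y, ⟪j x, j y⟫_ℂ = τ (star x * y)) {B : Set A} (hB : Ball τ B)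
    (G : Subgroup (unitary A)) (y : A)
    (hy : ∀ ε : ℝ, 0 < ε → ∃ a ∈ SG G, n2 τ (y - a) < ε) : Lm j y ∈ MG j G := by
  unfold MG
  rw [mem_vnGen]
  intro t ht
  exact ⟨mem_MG_of_aux h hd hj hB G y hy t ht,
    mem_MG_of_aux h hd hj hB G y hy (star t) (star_mem ht)⟩

end Pool.Agent.Helper159.ET.V1
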