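import Mathlib
import Pool.Agent.Helper159.ET.VN
import Pool.Agent.Helper436.SM.Sub

set_option autoImplicit false

open scoped InnerProductSpace Topology ComplexOrder
open Filter

namespace Pool.Agent.Helper159.ET.V2

open Pool.Agent.Helper278 Pool.Agent.Helper278.CE

variable {A : Type} [Ring A] [StarRing A] [Algebra ℂ A] [StarModule ℂ A] {τ : A →ₗ[ℂ] ℂ}
variable {K : Type} [NormedAddCommGroup K] [InnerProductSpace ℂ K] [CompleteSpace K]

theorem approx_MG (h : TrAlg τ) {j : A →ₗ[ℂ] K} (hd : DenseRange j)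
    (hj : ∀ x y, ⟪j x, j y⟫_ℂ = τ (star x * y)) {B : Set A} (hB : Ball τ B)
    (G : Subgroup (unitary A)) (T : K →L[ℂ] K)
    (hT : T ∈ MG j G) (ε : ℝ) (hε : 0 < ε) : ∃ a ∈ SG G, ‖T (j 1) - j a‖ < ε := by
  set K0 : Submodule ℂ K := ((SG G).map j).topologicalClosure with hK0
  have hcl : IsClosed (K0 : Set K) := Submodule.isClosed_topologicalClosure _
  have : CompleteSpace K0 := hcl.completeSpace_coe
  have hmul : ∀ g ∈ G, ∀ a ∈ SG G, (g : A) * a ∈ SG G := by
    intro g hg a ha
    unfold SG at ha ⊢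
    induction ha using Submodule.span_induction with
    | mem x hx =>
      obtain ⟨g', hg', rfl⟩ := hx
      exact Submodule.subset_span ⟨g * g', G.mul_mem hg hg', rfl⟩
    | zero => rw [mul_zero]; exact Submodule.zero_mem _
    | add x y _ _ hx hy => rw [mul_add]; exact Submodule.add_mem _ hx hy
    | smul c x _ hx => rw [mul_smul_comm]; exact Submodule.smul_mem _ c hx
  have hinv : ∀ g ∈ G, ∀ x ∈ K0, Lm j (g : A) x ∈ K0 := by
    intro g hg x hx
    have hle : K0 ≤ K0.comap ((Lm j (g : A)) : K →ₗ[ℂ] K) := by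
      refine Submodule.topologicalClosure_minimal _ ?_ ?_
      · rintro _ ⟨a, ha, rfl⟩
        rw [Submodule.mem_comap]
        show Lm j (g : A) (j a) ∈ K0
        rw [Lm_j h hd hj hB]
        exact Submodule.le_topologicalClosure _ ⟨_, hmul g hg a ha, rfl⟩
      · exact hcl.preimage (Lm j (g : A)).continuous
    exact hle hx
  have hstar : ∀ g : unitary A, star (Lm j (g : A)) = Lm j ((g⁻¹ : unitary A) : A) := by
    intro g
    rw [star_Lm h hd hj hB]
    rfl
  have hp : K0.starProjection ∈ StarSubalgebra.centralizer ℂ (GS j G) := by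
    rw [StarSubalgebra.mem_centralizer_iff (R := ℂ)]
    rintro _ ⟨g, hg, rfl⟩
    have hg' : g⁻¹ ∈ G := G.inv_mem hg
    have e1 := Pool.Agent.Helper436.SM.Sub.starProjection_commute K0 (Lm j (g : A))
      (hinv g hg) (by rw [hstar]; exact hinv _ hg')
    have e2 := Pool.Agent.Helper436.SM.Sub.starProjection_commute K0 (star (Lm j (g : A)))
      (by rw [hstar]; exact hinv _ hg') (by rw [star_star]; exact hinv g hg)
    exact ⟨e1.symm, e2.symm⟩
  have hcomm : K0.starProjection * T = T * K0.starProjection := by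
    have hT' := hT
    unfold MG at hT'
    rw [mem_vnGen] at hT'
    exact (hT' _ hp).1
  have h1 : (1 : A) ∈ SG G := Submodule.subset_span ⟨1, G.one_mem, rfl⟩
  have hj1 : j 1 ∈ K0 := Submodule.le_topologicalClosure _ ⟨1, h1, rfl⟩
  have hT1 : T (j 1) ∈ K0 := by
    have e := DFunLike.congr_fun hcomm (j 1)
    have e' : K0.starProjection (T (j 1)) = T (K0.starProjection (j 1)) := e
    rw [Submodule.starProjection_eq_self_iff.2 hj1] at e'
    exact Submodule.starProjection_eq_self_iff.1 e'
  have hmem : T (j 1) ∈ closure (((SG G).map j : Submodule ℂ K) : Set K) := by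
    rw [← Submodule.topologicalClosure_coe]
    exact hT1
  obtain ⟨b, ⟨a, ha, rfl⟩, hb⟩ := Metric.mem_closure_iff.1 hmem ε hε
  exact ⟨a, ha, by rw [← dist_eq_norm]; exact hb⟩

end Pool.Agent.Helper159.ET.V2
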