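import Mathlib
import Pool.Agent.Helper159.ET.VN

set_option autoImplicit false

open scoped InnerProductSpace Topology ComplexOrder
open Filter

namespace Pool.Agent.Helper159.ET.V3

open Pool.Agent.Helper278 Pool.Agent.Helper278.CE

variable {A : Type} [Ring A] [StarRing A] [Algebra ℂ A] [StarModule ℂ A] {τ : A →ₗ[ℂ] ℂ}
variable {K : Type} [NormedAddCommGroup K] [InnerProductSpace ℂ K] [CompleteSpace K]

theorem MG_le (h : TrAlg τ) {j : A →ₗ[ℂ] K} (hd : DenseRange j)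
    (hj : ∀ x y, ⟪j x, j y⟫_ℂ = τ (star x * y)) {B : Set A} (hB : Ball τ B)
    (G : Subgroup (unitary A)) (T : K →L[ℂ] K)
    (hT : T ∈ MG j G) : T ∈ MM j := by
  have hT' : T ∈ vnGen (GS j G) := hT
  show T ∈ vnGen (Set.range (Lm j))
  rw [CE.mem_vnGen] at hT' ⊢
  intro t ht
  refine hT' t ?_
  rw [StarSubalgebra.mem_centralizer_iff (R := ℂ)] at ht ⊢
  rintro g ⟨a, ha, rfl⟩
  exact ht _ ⟨(a : A), rfl⟩

end Pool.Agent.Helper159.ET.V3
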