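import Mathlib
import Pool.Agent.Helper159.ET.VN

set_option autoImplicit false

open scoped InnerProductSpace Topology ComplexOrder
open Filter

namespace Pool.Agent.Helper159.ET.V4

open Pool.Agent.Helper278 Pool.Agent.Helper278.CE

variable {A : Type} [Ring A] [StarRing A] [Algebra ℂ A] [StarModule ℂ A] {τ : A →ₗ[ℂ] ℂ}
variable {K : Type} [NormedAddCommGroup K] [InnerProductSpace ℂ K] [CompleteSpace K]

theorem tracial_MG_le (j : A →ₗ[ℂ] K) (G : Subgroup (unitary A)) (T : K →L[ℂ] K)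
    (hT : T ∈ MG j G) : T ∈ MM j := by
  have h1 : GS j G ⊆ Set.range (Lm j) := by
    rintro _ ⟨g, _, rfl⟩
    exact ⟨_, rfl⟩
  have h2 := StarSubalgebra.centralizer_le ℂ (GS j G) (Set.range (Lm j)) h1
  have h3 := StarSubalgebra.centralizer_le ℂ
    (StarSubalgebra.centralizer ℂ (Set.range (Lm j)) : Set (K →L[ℂ] K))
    (StarSubalgebra.centralizer ℂ (GS j G) : Set (K →L[ℂ] K)) h2
  exact h3 hT

theorem tracial_MG (h : TrAlg τ) {j : A →ₗ[ℂ] K} (hd : DenseRange j)
    (hj : ∀ x y, ⟪j x, j y⟫_ℂ = τ (star x * y)) {B : Set A} (hB : Ball τ B)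
    (G : Subgroup (unitary A)) :
    IsTracialVN (MG j G) (tauG j G) := by
  set e := LmEquiv h hd hj hB with he
  have htau : ∀ x : Elt (MM j), tauM j x = τ (e.symm x) := by
    intro x
    rw [← tauM_LmEquiv h hd hj hB, ← he, e.apply_symm_apply]
  obtain ⟨inc, hinc⟩ : ∃ inc : Elt (MG j G) → Elt (MM j),
      ∀ x, ((inc x : Elt (MM j)) : K →L[ℂ] K) = (x : K →L[ℂ] K) :=
    ⟨fun x => ⟨x.1, tracial_MG_le j G x.1 x.2⟩, fun _ => rfl⟩
  have htg : ∀ x : Elt (MG j G), tauG j G x = tauM j (inc x) := by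
    intro x
    unfold tauG tauM
    rw [hinc]
  have hone : inc 1 = 1 := Subtype.ext (hinc 1)
  have hmul : ∀ x y, inc (x * y) = inc x * inc y := by
    intro x y
    apply Subtype.ext
    have h1 : ((inc x * inc y : Elt (MM j)) : K →L[ℂ] K) =
        ((inc x : Elt (MM j)) : K →L[ℂ] K) * ((inc y : Elt (MM j)) : K →L[ℂ] K) := rfl
    rw [h1, hinc, hinc, hinc]
    rfl
  have hstar : ∀ x, inc (star x) = star (inc x) := by
    intro x
    apply Subtype.ext
    have h1 : ((star (inc x) : Elt (MM j)) : K →L[ℂ] K) =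
        star ((inc x : Elt (MM j)) : K →L[ℂ] K) := rfl
    rw [h1, hinc, hinc]
    rfl
  refine ⟨⟨?_, ?_, ?_⟩, ?_⟩
  · rw [htg, hone, htau, map_one, h.one]
  · intro x y
    rw [htg, htg, hmul, hmul, htau, htau, map_mul e.symm, map_mul e.symm, h.comm]
  · intro x hx
    rw [htg, hmul, hstar, htau, map_mul e.symm, map_star e.symm] at hx
    have h1 := h.faithful _ hx
    have h2 : inc x = 0 := by
      rw [← e.apply_symm_apply (inc x), h1, map_zero]
    apply Subtype.ext
    have h3 := hinc x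
    rw [h2] at h3
    exact h3.symm
  · exact normal_vector (MG j G) _ (j 1) fun _ => rfl

end Pool.Agent.Helper159.ET.V4
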