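import Mathlib
import Pool.Agent.Helper159.ET.VN

set_option autoImplicit false

open scoped InnerProductSpace Topology ComplexOrder
open Filter

namespace Pool.Agent.Helper159.ET.V5

open Pool.Agent.Helper278 Pool.Agent.Helper278.CE

variable {A : Type} [Ring A] [StarRing A] [Algebra ℂ A] [StarModule ℂ A] {τ : A →ₗ[ℂ] ℂ}
variable {K : Type} [NormedAddCommGroup K] [InnerProductSpace ℂ K] [CompleteSpace K]

/-- the inclusion -/
def inclMG {j : A →ₗ[ℂ] K} {G : Subgroup (unitary A)} (hle : ∀ T, T ∈ MG j G → T ∈ MM j) :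
    Elt (MG j G) →⋆ₐ[ℂ] Elt (MM j) where
  toFun x := ⟨(x : K →L[ℂ] K), hle _ x.2⟩
  map_one' := rfl
  map_mul' _ _ := rfl
  map_zero' := rfl
  map_add' _ _ := rfl
  commutes' _ := rfl
  map_star' _ := rfl


theorem exists_incl (h : TrAlg τ) {j : A →ₗ[ℂ] K} (hd : DenseRange j)
    (hj : ∀ x y, ⟪j x, j y⟫_ℂ = τ (star x * y)) {B : Set A} (hB : Ball τ B)
    (G : Subgroup (unitary A))
    (hle : ∀ T, T ∈ MG j G → T ∈ MM j) : ∃ θ : Elt (MG j G) →⋆ₐ[ℂ] A,
      (∀ x, Lm j (θ x) = (x : K →L[ℂ] K)) ∧ (∀ x, τ (θ x) = tauG j G x) ∧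
      ∀ (a : A) (x : Elt (MG j G)), (x : K →L[ℂ] K) = Lm j a → θ x = a := by
  set e := LmEquiv h hd hj hB with he
  have h1 : ∀ x : Elt (MG j G), Lm j (e.symm (inclMG hle x)) = (x : K →L[ℂ] K) := by
    intro x
    rw [← LmEquiv_apply h hd hj hB, ← he, e.apply_symm_apply]
    rfl
  refine ⟨(e.symm : Elt (MM j) →⋆ₐ[ℂ] A).comp (inclMG hle), fun x => h1 x, fun x => ?_, fun a x hx => ?_⟩
  · show τ (e.symm (inclMG hle x)) = tauG j G x
    rw [← tauM_LmEquiv h hd hj hB, ← he, e.apply_symm_apply]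
    rfl
  · show e.symm (inclMG hle x) = a
    have h2 : inclMG hle x = e a := by
      apply Subtype.ext
      show (x : K →L[ℂ] K) = _
      rw [hx, he, LmEquiv_apply]
    rw [h2, e.symm_apply_apply]

end Pool.Agent.Helper159.ET.V5
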