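import Mathlib
import Pool.Agent.Helper159.ET.VN

set_option autoImplicit false

open scoped InnerProductSpace Topology ComplexOrder
open Filter

namespace Pool.Agent.Helper159.ET.V6

open Pool.Agent.Helper278 Pool.Agent.Helper278.CE

variable {A : Type} [Ring A] [StarRing A] [Algebra ℂ A] [StarModule ℂ A] {τ : A →ₗ[ℂ] ℂ}
variable {K : Type} [NormedAddCommGroup K] [InnerProductSpace ℂ K] [CompleteSpace K]

theorem kap_MG_sg_mul (G : Subgroup (unitary A)) (a b : A) (ha : a ∈ SG G) (hb : b ∈ SG G) :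
    a * b ∈ SG G := by
  unfold SG at ha hb ⊢
  induction ha using Submodule.span_induction with
  | mem x hx =>
    obtain ⟨g, hg, rfl⟩ := hx
    induction hb using Submodule.span_induction with
    | mem y hy =>
      obtain ⟨g', hg', rfl⟩ := hy
      exact Submodule.subset_span ⟨g * g', G.mul_mem hg hg', rfl⟩
    | zero => rw [mul_zero]; exact Submodule.zero_mem _
    | add x y _ _ hx hy => rw [mul_add]; exact Submodule.add_mem _ hx hy
    | smul c x _ hx => rw [mul_smul_comm]; exact Submodule.smul_mem _ c hx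
  | zero => rw [zero_mul]; exact Submodule.zero_mem _
  | add x y _ _ hx hy => rw [add_mul]; exact Submodule.add_mem _ hx hy
  | smul c x _ hx => rw [smul_mul_assoc]; exact Submodule.smul_mem _ c hx

theorem kap_MG_sg_star (G : Subgroup (unitary A)) (a : A) (ha : a ∈ SG G) :
    star a ∈ SG G := by
  unfold SG at ha ⊢
  induction ha using Submodule.span_induction with
  | mem x hx =>
    obtain ⟨g, hg, rfl⟩ := hx
    exact Submodule.subset_span ⟨g⁻¹, G.inv_mem hg, rfl⟩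
  | zero => rw [star_zero]; exact Submodule.zero_mem _
  | add x y _ _ hx hy => rw [star_add]; exact Submodule.add_mem _ hx hy
  | smul c x _ hx => rw [star_smul]; exact Submodule.smul_mem _ _ hx

theorem kap_MG_sg_one (G : Subgroup (unitary A)) : (1 : A) ∈ SG G :=
  Submodule.subset_span ⟨1, G.one_mem, rfl⟩

theorem kap_MG_gen (S : Set (K →L[ℂ] K)) (a : K →L[ℂ] K) (ha : a ∈ S) : a ∈ vnGen S := by
  rw [mem_vnGen]
  intro t ht
  rw [StarSubalgebra.mem_centralizer_iff (R := ℂ)] at ht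
  have h1 := ht _ ha
  refine ⟨h1.1.symm, ?_⟩
  have h2 := congrArg star h1.2
  rw [star_mul, star_mul, star_star] at h2
  exact h2

theorem kap_MG_Lm_mem (h : TrAlg τ) {j : A →ₗ[ℂ] K} (hd : DenseRange j)
    (hj : ∀ x y, ⟪j x, j y⟫_ℂ = τ (star x * y)) {B : Set A} (hB : Ball τ B)
    (G : Subgroup (unitary A)) (a : A) (ha : a ∈ SG G) :
    Lm j a ∈ (MG j G).toStarSubalgebra := by
  unfold SG at ha
  induction ha using Submodule.span_induction with
  | mem x hx =>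
    obtain ⟨g, hg, rfl⟩ := hx
    exact kap_MG_gen _ _ ⟨g, hg, rfl⟩
  | zero =>
    have e : Lm j 0 = 0 := congrArg Subtype.val (map_zero (LmHom h hd hj hB))
    rw [e]; exact zero_mem _
  | add x y _ _ hx hy =>
    have e : Lm j (x + y) = Lm j x + Lm j y :=
      congrArg Subtype.val (map_add (LmHom h hd hj hB) x y)
    rw [e]; exact add_mem hx hy
  | smul c x _ hx =>
    have e : Lm j (c • x) = c • Lm j x :=
      congrArg Subtype.val (map_smul (LmHom h hd hj hB) c x)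
    rw [e]; exact (MG j G).toStarSubalgebra.smul_mem hx c

/-- the star subalgebra -/
def kap_MG_alg (h : TrAlg τ) {j : A →ₗ[ℂ] K} (hd : DenseRange j)
    (hj : ∀ x y, ⟪j x, j y⟫_ℂ = τ (star x * y)) {B : Set A} (hB : Ball τ B)
    (G : Subgroup (unitary A)) : StarSubalgebra ℂ (Elt (MG j G)) where
  carrier := {y | ∃ b ∈ SG G, (y : K →L[ℂ] K) = Lm j b}
  mul_mem' := by
    rintro x y ⟨a, ha, hx⟩ ⟨b, hb, hy⟩
    refine ⟨a * b, kap_MG_sg_mul G a b ha hb, ?_⟩
    have e : Lm j (a * b) = Lm j a * Lm j b :=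
      congrArg Subtype.val (map_mul (LmHom h hd hj hB) a b)
    rw [e, ← hx, ← hy]
    rfl
  one_mem' := by
    refine ⟨1, kap_MG_sg_one G, ?_⟩
    have e : Lm j 1 = 1 := congrArg Subtype.val (map_one (LmHom h hd hj hB))
    rw [e]
    rfl
  add_mem' := by
    rintro x y ⟨a, ha, hx⟩ ⟨b, hb, hy⟩
    refine ⟨a + b, Submodule.add_mem _ ha hb, ?_⟩
    have e : Lm j (a + b) = Lm j a + Lm j b :=
      congrArg Subtype.val (map_add (LmHom h hd hj hB) a b)
    rw [e, ← hx, ← hy]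
    rfl
  zero_mem' := by
    refine ⟨0, Submodule.zero_mem _, ?_⟩
    have e : Lm j 0 = 0 := congrArg Subtype.val (map_zero (LmHom h hd hj hB))
    rw [e]
    rfl
  algebraMap_mem' := by
    intro r
    refine ⟨r • 1, Submodule.smul_mem _ r (kap_MG_sg_one G), ?_⟩
    have e : Lm j (r • (1 : A)) = r • Lm j 1 :=
      congrArg Subtype.val (map_smul (LmHom h hd hj hB) r 1)
    have e1 : Lm j 1 = 1 := congrArg Subtype.val (map_one (LmHom h hd hj hB))
    rw [e, e1, Algebra.algebraMap_eq_smul_one]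
    rfl
  star_mem' := by
    rintro x ⟨a, ha, hx⟩
    refine ⟨star a, kap_MG_sg_star G a ha, ?_⟩
    have e : Lm j (star a) = star (Lm j a) := (star_Lm h hd hj hB a).symm
    rw [e, ← hx]
    rfl

theorem kap_MG_two (h : TrAlg τ) {j : A →ₗ[ℂ] K} (hd : DenseRange j)
    (hj : ∀ x y, ⟪j x, j y⟫_ℂ = τ (star x * y)) {B : Set A} (hB : Ball τ B)
    (G : Subgroup (unitary A))
    (hle : ∀ T, T ∈ MG j G → T ∈ MM j) :
    RG.TwoNorm (fun y : Elt (MG j G) => ‖(y : K →L[ℂ] K) (j 1)‖) := by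
  have hj1 : ‖j (1 : A)‖ = 1 := by
    rw [norm_j hj]
    unfold n2
    rw [star_one, one_mul, h.one, Complex.one_re, Real.sqrt_one]
  have hrep : ∀ y : Elt (MG j G), ∃ a : A, (y : K →L[ℂ] K) = Lm j a := by
    intro y
    obtain ⟨a, ha⟩ := LmHom_surj h hd hj hB ⟨(y : K →L[ℂ] K), hle _ y.2⟩
    exact ⟨a, (congrArg Subtype.val ha).symm⟩
  have hval : ∀ (a : A), ‖Lm j a (j 1)‖ = n2 τ a := by
    intro a
    rw [Lm_j h hd hj hB, mul_one, norm_j hj]
  refine ⟨?_, ?_, ?_, ?_, ?_, ?_, ?_⟩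
  · intro x
    exact norm_nonneg _
  · intro x y
    exact norm_add_le ((x : K →L[ℂ] K) (j 1)) ((y : K →L[ℂ] K) (j 1))
  · intro c x
    exact norm_smul c ((x : K →L[ℂ] K) (j 1))
  · intro x y
    exact (x : K →L[ℂ] K).le_opNorm ((y : K →L[ℂ] K) (j 1))
  · intro x y
    obtain ⟨a, ha⟩ := hrep x
    obtain ⟨b, hb⟩ := hrep y
    have e : ((x * y : Elt (MG j G)) : K →L[ℂ] K) = Lm j (a * b) := by
      have e1 : Lm j (a * b) = Lm j a * Lm j b :=
        congrArg Subtype.val (map_mul (LmHom h hd hj hB) a b)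
      rw [e1, ← ha, ← hb]
      rfl
    beta_reduce
    rw [e, hval, ha, hval, ← h.n2_star, star_mul, ← norm_j hj]
    have e2 : j (star b * star a) = Lm j (star b) (j (star a)) := (Lm_j h hd hj hB _ _).symm
    rw [e2]
    refine ((Lm j (star b)).le_opNorm _).trans ?_
    rw [norm_j hj, h.n2_star, ← star_Lm h hd hj hB, norm_star, ← hb, mul_comm]
    rfl
  · intro x
    obtain ⟨a, ha⟩ := hrep x
    have e : ((star x : Elt (MG j G)) : K →L[ℂ] K) = Lm j (star a) := by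
      rw [← star_Lm h hd hj hB, ← ha]
      rfl
    beta_reduce
    rw [e, ha, hval, hval, h.n2_star]
  · intro x
    have := (x : K →L[ℂ] K).le_opNorm (j 1)
    rw [hj1, mul_one] at this
    exact this

theorem kap_MG (h : TrAlg τ) {j : A →ₗ[ℂ] K} (hd : DenseRange j)
    (hj : ∀ x y, ⟪j x, j y⟫_ℂ = τ (star x * y)) {B : Set A} (hB : Ball τ B)
    (G : Subgroup (unitary A))
    (hle : ∀ T, T ∈ MG j G → T ∈ MM j)
    (happ : ∀ (T : K →L[ℂ] K), T ∈ MG j G → ∀ ε : ℝ, 0 < ε → ∃ a ∈ SG G, ‖T (j 1) - j a‖ < ε)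
    (x : Elt (MG j G)) : ∃ (C : ℝ) (a : ℕ → Elt (MG j G)), (∀ n, ∃ b ∈ SG G, (a n : K →L[ℂ] K) = Lm j b) ∧
      (∀ n, ‖a n‖ ≤ C) ∧ Tendsto (fun n => ‖((x - a n : Elt (MG j G)) : K →L[ℂ] K) (j 1)‖) atTop (𝓝 0) := by
  have hN := kap_MG_two h hd hj hB G hle
  have hdens : ∀ x : Elt (MG j G), ∀ ε > (0 : ℝ), ∃ a ∈ kap_MG_alg h hd hj hB G,
      (fun y : Elt (MG j G) => ‖(y : K →L[ℂ] K) (j 1)‖) (x - a) < ε := by
    intro x ε hε
    obtain ⟨a, ha, hxa⟩ := happ (x : K →L[ℂ] K) x.2 ε hε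
    refine ⟨⟨Lm j a, kap_MG_Lm_mem h hd hj hB G a ha⟩, ⟨a, ha, rfl⟩, ?_⟩
    have e : ((x - ⟨Lm j a, kap_MG_Lm_mem h hd hj hB G a ha⟩ : Elt (MG j G)) : K →L[ℂ] K) (j 1)
        = (x : K →L[ℂ] K) (j 1) - Lm j a (j 1) := rfl
    beta_reduce
    rw [e, Lm_j h hd hj hB, mul_one]
    exact hxa
  obtain ⟨c, hc⟩ : ∃ c : ℝ, c = ‖x‖ + 1 := ⟨_, rfl⟩
  have hc0 : 0 < c := by rw [hc]; positivity
  obtain ⟨x', hx'⟩ : ∃ x' : Elt (MG j G), x' = ((c⁻¹ : ℝ) : ℂ) • x := ⟨_, rfl⟩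
  have hx'1 : ‖x'‖ ≤ 1 := by
    rw [hx', norm_smul, Complex.norm_real, Real.norm_eq_abs, abs_of_pos (by positivity),
      inv_mul_le_iff₀ hc0, mul_one, hc]
    linarith
  have hxx : x = (c : ℂ) • x' := by
    rw [hx', smul_smul, ← Complex.ofReal_mul, mul_inv_cancel₀ hc0.ne', Complex.ofReal_one, one_smul]
  have hk := fun n : ℕ => RG.kaplansky hN (kap_MG_alg h hd hj hB G) hdens x' hx'1
    (1 / ((n : ℝ) + 1)) (by positivity)
  choose b hbA hb2 hbN using hk
  refine ⟨c * 2, fun n => (c : ℂ) • b n, ?_, ?_, ?_⟩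
  · intro n
    exact (kap_MG_alg h hd hj hB G).smul_mem (hbA n) (c : ℂ)
  · intro n
    rw [norm_smul, Complex.norm_real, Real.norm_eq_abs, abs_of_pos hc0]
    exact mul_le_mul_of_nonneg_left (hb2 n) hc0.le
  · have hle2 : ∀ n : ℕ, ‖((x - (c : ℂ) • b n : Elt (MG j G)) : K →L[ℂ] K) (j 1)‖
        ≤ c * (1 / ((n : ℝ) + 1)) := by
      intro n
      have e1 : x - (c : ℂ) • b n = (c : ℂ) • (x' - b n) := by
        rw [smul_sub, ← hxx]
      rw [e1]
      have e2 := hN.smul (c : ℂ) (x' - b n)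
      beta_reduce at e2
      rw [e2, Complex.norm_real, Real.norm_eq_abs, abs_of_pos hc0]
      exact mul_le_mul_of_nonneg_left (hbN n).le hc0.le
    have ht : Tendsto (fun n : ℕ => c * (1 / ((n : ℝ) + 1))) atTop (𝓝 0) := by
      have := (tendsto_one_div_add_atTop_nhds_zero_nat (𝕜 := ℝ)).const_mul c
      simpa using this
    exact squeeze_zero (fun n => norm_nonneg _) hle2 ht

end Pool.Agent.Helper159.ET.V6
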