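import Mathlib
import Pool.Agent.Helper159.ET.VN

set_option autoImplicit false

open scoped InnerProductSpace Topology ComplexOrder
open Filter

namespace Pool.Agent.Helper159.ET.V7

open Pool.Agent.Helper278 Pool.Agent.Helper278.CE

variable {A : Type} [Ring A] [StarRing A] [Algebra ℂ A] [StarModule ℂ A] {τ : A →ₗ[ℂ] ℂ}
variable {K : Type} [NormedAddCommGroup K] [InnerProductSpace ℂ K] [CompleteSpace K]

theorem bc_lm (h : TrAlg τ) {j : A →ₗ[ℂ] K} (hd : DenseRange j)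
    (hj : ∀ x y, ⟪j x, j y⟫_ℂ = τ (star x * y)) {B : Set A} (hB : Ball τ B)
    (T : K →L[ℂ] K) (hT : T ∈ MM j) : ∃ c : A, T = Lm j c := by
  obtain ⟨c, hc⟩ := LmHom_surj h hd hj hB ⟨T, hT⟩
  exact ⟨c, (congrArg Subtype.val hc).symm⟩

theorem bc_norm_jb (h : TrAlg τ) {j : A →ₗ[ℂ] K} (hd : DenseRange j)
    (hj : ∀ x y, ⟪j x, j y⟫_ℂ = τ (star x * y)) {B : Set A} (hB : Ball τ B)
    (T : K →L[ℂ] K) (hT : T ∈ MM j) (b : A) : ‖T (j b)‖ ≤ ‖Rm j b‖ * ‖T (j 1)‖ := by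
  obtain ⟨c, rfl⟩ := bc_lm h hd hj hB T hT
  have h1 : Lm j c (j b) = Rm j b (Lm j c (j 1)) := by
    rw [Lm_j h hd hj hB, Lm_j h hd hj hB, Rm_j h hd hj hB, mul_one]
  rw [h1]
  exact (Rm j b).le_opNorm _

theorem bc_star (h : TrAlg τ) {j : A →ₗ[ℂ] K} (hd : DenseRange j)
    (hj : ∀ x y, ⟪j x, j y⟫_ℂ = τ (star x * y)) {B : Set A} (hB : Ball τ B)
    (T : K →L[ℂ] K) (hT : T ∈ MM j) : ‖(star T) (j 1)‖ = ‖T (j 1)‖ := by
  obtain ⟨c, rfl⟩ := bc_lm h hd hj hB T hT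
  rw [star_Lm h hd hj hB, Lm_j h hd hj hB, Lm_j h hd hj hB, mul_one, mul_one, norm_j hj, norm_j hj,
    h.n2_star]

theorem bc_strong (h : TrAlg τ) {j : A →ₗ[ℂ] K} (hd : DenseRange j)
    (hj : ∀ x y, ⟪j x, j y⟫_ℂ = τ (star x * y)) {B : Set A} (hB : Ball τ B)
    (T : ℕ → K →L[ℂ] K) (hT : ∀ n, T n ∈ MM j) (D : ℝ) (hD : ∀ n, ‖T n‖ ≤ D)
    (h0 : Tendsto (fun n => ‖T n (j 1)‖) atTop (𝓝 0)) (k : K) :
    Tendsto (fun n => ‖T n k‖) atTop (𝓝 0) := by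
  have hD0 : 0 ≤ D := (norm_nonneg _).trans (hD 0)
  rw [Metric.tendsto_atTop]
  intro ε hε
  obtain ⟨b, hb⟩ := Metric.denseRange_iff.1 hd k (ε / (2 * (D + 1))) (by positivity)
  rw [dist_eq_norm] at hb
  have h1 : Tendsto (fun n => ‖T n (j b)‖) atTop (𝓝 0) := by
    have h2 := h0.const_mul ‖Rm j b‖
    rw [mul_zero] at h2
    exact squeeze_zero (fun n => norm_nonneg _) (fun n => bc_norm_jb h hd hj hB _ (hT n) b) h2
  obtain ⟨N, hN⟩ := Metric.tendsto_atTop.1 h1 (ε / 2) (by positivity)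
  refine ⟨N, fun n hn => ?_⟩
  have h3 := hN n hn
  rw [Real.dist_eq, sub_zero, abs_of_nonneg (norm_nonneg _)] at h3 ⊢
  have h4 : T n k = T n (k - j b) + T n (j b) := by rw [map_sub]; abel
  rw [h4]
  have h5 : ‖T n (k - j b)‖ ≤ D * ‖k - j b‖ := (T n).le_of_opNorm_le (hD n) _
  have h6 : D * ‖k - j b‖ ≤ D * (ε / (2 * (D + 1))) := mul_le_mul_of_nonneg_left hb.le hD0
  have h7 : D * (ε / (2 * (D + 1))) < ε / 2 := by
    have h8 : D * (ε / (2 * (D + 1))) = (ε / 2) * (D / (D + 1)) := by field_simp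
    have h9 : D / (D + 1) < 1 := by rw [div_lt_one (by linarith)]; linarith
    rw [h8]
    have := mul_lt_mul_of_pos_left h9 (half_pos hε)
    linarith
  have h10 := norm_add_le (T n (k - j b)) (T n (j b))
  linarith

theorem bc_normal (M : VonNeumannAlgebra K) (ψ : Elt M → ℂ) (hψ : IsNormalPositive M ψ)
    (y : ℕ → Elt M) (D : ℝ) (hD : ∀ n, ‖(y n : K →L[ℂ] K)‖ ≤ D)
    (h0 : ∀ k : K, Tendsto (fun n => ‖(y n : K →L[ℂ] K) k‖) atTop (𝓝 0)) :
    Tendsto (fun n => ψ (star (y n) * y n)) atTop (𝓝 0) := by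
  obtain ⟨ξ, hξ, hψ⟩ := hψ
  have hD0 : 0 ≤ D := (norm_nonneg _).trans (hD 0)
  have hb : ∀ n k, ‖⟪ξ k, ((star (y n) * y n : Elt M) : K →L[ℂ] K) (ξ k)⟫_ℂ‖ ≤
      ‖ξ k‖ * D * ‖(y n : K →L[ℂ] K) (ξ k)‖ := by
    intro n k
    refine (norm_inner_le_norm _ _).trans ?_
    have h1 : ((star (y n) * y n : Elt M) : K →L[ℂ] K) (ξ k) =
      star (y n : K →L[ℂ] K) ((y n : K →L[ℂ] K) (ξ k)) := rfl
    rw [h1, mul_assoc]
    refine mul_le_mul_of_nonneg_left ?_ (norm_nonneg _)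
    refine ContinuousLinearMap.le_of_opNorm_le _ ?_ _
    rw [norm_star]; exact hD n
  have h2 : Tendsto (fun n => ∑' k, ⟪ξ k, ((star (y n) * y n : Elt M) : K →L[ℂ] K) (ξ k)⟫_ℂ) atTop
      (𝓝 (∑' _ : ℕ, (0:ℂ))) := by
    refine tendsto_tsum_of_dominated_convergence (bound := fun k => D^2 * ‖ξ k‖^2)
      (hξ.mul_left _) ?_ ?_
    · intro k
      rw [tendsto_zero_iff_norm_tendsto_zero]
      have h3 := (h0 (ξ k)).const_mul (‖ξ k‖ * D)
      rw [mul_zero] at h3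
      exact squeeze_zero (fun n => norm_nonneg _) (fun n => hb n k) h3
    · refine Eventually.of_forall fun n k => (hb n k).trans ?_
      have h4 := (y n : K →L[ℂ] K).le_of_opNorm_le (hD n) (ξ k)
      have h5 := mul_le_mul_of_nonneg_left h4 (mul_nonneg (norm_nonneg (ξ k)) hD0)
      refine h5.trans (le_of_eq ?_)
      ring
  rw [tsum_zero] at h2
  refine h2.congr fun n => ?_
  rw [hψ]

theorem bc_inner {H : Type} [NormedAddCommGroup H] [InnerProductSpace ℂ H] [CompleteSpace H]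
    (S : H →L[ℂ] H) (η : H) : ⟪η, (star S * S) η⟫_ℂ = ((‖S η‖ ^ 2 : ℝ) : ℂ) := by
  show ⟪η, star S (S η)⟫_ℂ = _
  rw [ContinuousLinearMap.star_eq_adjoint, ContinuousLinearMap.adjoint_inner_right,
    inner_self_eq_norm_sq_to_K]
  push_cast
  rfl

theorem bc_conv {H : Type} [NormedAddCommGroup H] [InnerProductSpace ℂ H] [CompleteSpace H]
    (S : ℕ → H →L[ℂ] H) (η : H)
    (h : Tendsto (fun n => ⟪η, (star (S n) * S n) η⟫_ℂ) atTop (𝓝 0)) :
    Tendsto (fun n => S n η) atTop (𝓝 0) := by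
  rw [tendsto_zero_iff_norm_tendsto_zero]
  have h1 : Tendsto (fun n => ‖S n η‖ ^ 2) atTop (𝓝 0) := by
    have h2 := (Complex.continuous_re.tendsto _).comp h
    rw [Complex.zero_re] at h2
    refine h2.congr fun n => ?_
    show (⟪η, (star (S n) * S n) η⟫_ℂ).re = _
    rw [bc_inner, Complex.ofReal_re]
  have h3 := (Real.continuous_sqrt.tendsto _).comp h1
  rw [Real.sqrt_zero] at h3
  refine h3.congr fun n => ?_
  show Real.sqrt (‖S n η‖ ^ 2) = _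
  rw [Real.sqrt_sq (norm_nonneg _)]

theorem bimod_central (h : TrAlg τ) {j : A →ₗ[ℂ] K} (hd : DenseRange j)
    (hj : ∀ x y, ⟪j x, j y⟫_ℂ = τ (star x * y)) {B : Set A} (hB : Ball τ B)
    (G : Subgroup (unitary A))
    (x : Elt (MG j G)) (C : ℝ) (a : ℕ → Elt (MG j G)) (hle : ∀ T, T ∈ MG j G → T ∈ MM j)
    (hC : ∀ n, ‖a n‖ ≤ C)
    (ha : Tendsto (fun n => ‖((x - a n : Elt (MG j G)) : K →L[ℂ] K) (j 1)‖) atTop (𝓝 0))
    {H : Type} [NormedAddCommGroup H] [InnerProductSpace ℂ H] [CompleteSpace H]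
    (L : Elt (MG j G) →⋆ₐ[ℂ] (H →L[ℂ] H)) (R : (Elt (MG j G))ᵐᵒᵖ →⋆ₐ[ℂ] (H →L[ℂ] H))
    (hLR : IsBimodule (MG j G) L R) (η : H)
    (hη : ∀ n, L (a n) η = R (MulOpposite.op (a n)) η) : L x η = R (MulOpposite.op x) η := by
  obtain ⟨y, hy⟩ : ∃ y : ℕ → Elt (MG j G), ∀ n, y n = x - a n := ⟨fun n => x - a n, fun n => rfl⟩
  have hyD : ∀ n, ‖((y n : Elt (MG j G)) : K →L[ℂ] K)‖ ≤ ‖x‖ + C := by
    intro n
    have h1 : ‖x - a n‖ ≤ ‖x‖ + ‖a n‖ := norm_sub_le _ _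
    have h2 := hC n
    rw [hy]
    have h3 : ‖((x - a n : Elt (MG j G)) : K →L[ℂ] K)‖ = ‖x - a n‖ := rfl
    rw [h3]; linarith
  have hyM : ∀ n, ((y n : Elt (MG j G)) : K →L[ℂ] K) ∈ MM j := fun n => hle _ (y n).2
  have hyM' : ∀ n, star ((y n : Elt (MG j G)) : K →L[ℂ] K) ∈ MM j := fun n => hle _ (star (y n)).2
  have ha' : Tendsto (fun n => ‖((y n : Elt (MG j G)) : K →L[ℂ] K) (j 1)‖) atTop (𝓝 0) :=
    ha.congr fun n => by rw [hy]
  have hs1 : ∀ k : K, Tendsto (fun n => ‖((y n : Elt (MG j G)) : K →L[ℂ] K) k‖) atTop (𝓝 0) :=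
    bc_strong h hd hj hB (fun n => ((y n : Elt (MG j G)) : K →L[ℂ] K)) hyM _ hyD ha'
  have hs2 : ∀ k : K, Tendsto (fun n => ‖((star (y n) : Elt (MG j G)) : K →L[ℂ] K) k‖) atTop
      (𝓝 0) := by
    refine bc_strong h hd hj hB (fun n => star ((y n : Elt (MG j G)) : K →L[ℂ] K)) hyM' (‖x‖ + C)
      (fun n => by rw [norm_star]; exact hyD n) ?_
    refine ha'.congr fun n => ?_
    exact (bc_star h hd hj hB _ (hyM n)).symm
  have hL : Tendsto (fun n => L (y n) η) atTop (𝓝 0) := by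
    apply bc_conv
    have h1 := bc_normal (MG j G) _ (hLR.normal_left η) y _ hyD hs1
    refine h1.congr fun n => ?_
    show ⟪η, L (star (y n) * y n) η⟫_ℂ = _
    rw [map_mul, map_star]
  have hR : Tendsto (fun n => R (MulOpposite.op (y n)) η) atTop (𝓝 0) := by
    apply bc_conv
    have h1 := bc_normal (MG j G) _ (hLR.normal_right η) (fun n => star (y n)) (‖x‖ + C)
      (fun n => by
        show ‖star ((y n : Elt (MG j G)) : K →L[ℂ] K)‖ ≤ _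
        rw [norm_star]; exact hyD n) hs2
    refine h1.congr fun n => ?_
    show ⟪η, R (MulOpposite.op (star (star (y n)) * star (y n))) η⟫_ℂ = _
    rw [star_star, MulOpposite.op_mul, MulOpposite.op_star, map_mul, map_star]
  have h1 := hL.sub hR
  have h2 : ∀ n, L (y n) η - R (MulOpposite.op (y n)) η = L x η - R (MulOpposite.op x) η := by
    intro n
    rw [hy, map_sub, MulOpposite.op_sub, map_sub]
    show (L x η - L (a n) η) - (R (MulOpposite.op x) η - R (MulOpposite.op (a n)) η) = _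
    rw [hη n]; abel
  simp only [h2] at h1
  have h3 := tendsto_nhds_unique tendsto_const_nhds h1
  rw [sub_zero] at h3
  exact sub_eq_zero.1 h3

end Pool.Agent.Helper159.ET.V7
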