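import Mathlib
import Pool.Agent.Helper159.ET.VN

set_option autoImplicit false

open scoped InnerProductSpace Topology ComplexOrder
open Filter

namespace Pool.Agent.Helper159.ET.V8

open Pool.Agent.Helper278 Pool.Agent.Helper278.CE

variable {A : Type} [Ring A] [StarRing A] [Algebra ℂ A] [StarModule ℂ A] {τ : A →ₗ[ℂ] ℂ}
variable {K : Type} [NormedAddCommGroup K] [InnerProductSpace ℂ K] [CompleteSpace K]

section aux37021

variable (h : TrAlg τ) {j : A →ₗ[ℂ] K} (hd : DenseRange j)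
  (hj : ∀ x y, ⟪j x, j y⟫_ℂ = τ (star x * y)) {B : Set A} (hB : Ball τ B)

include h hd hj hB in
theorem Lm_mul_aux (a b : A) : Lm j (a * b) = Lm j a * Lm j b := by
  apply ext_j hd
  intro x
  show Lm j (a * b) (j x) = Lm j a (Lm j b (j x))
  rw [Lm_j h hd hj hB, Lm_j h hd hj hB, Lm_j h hd hj hB, mul_assoc]

include h hd hj hB in
theorem Lm_one_aux : Lm j (1 : A) = 1 := by
  apply ext_j hd
  intro x
  show Lm j 1 (j x) = j x
  rw [Lm_j h hd hj hB, one_mul]

include h hd hj hB in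
theorem Lm_zero_aux : Lm j (0 : A) = 0 := by
  apply ext_j hd
  intro x
  show Lm j 0 (j x) = 0
  rw [Lm_j h hd hj hB, zero_mul, map_zero]

include h hd hj hB in
theorem Lm_add_aux (a b : A) : Lm j (a + b) = Lm j a + Lm j b := by
  apply ext_j hd
  intro x
  show Lm j (a + b) (j x) = Lm j a (j x) + Lm j b (j x)
  rw [Lm_j h hd hj hB, Lm_j h hd hj hB, Lm_j h hd hj hB, add_mul, map_add]

include h hd hj hB in
theorem Lm_smul_aux (c : ℂ) (a : A) : Lm j (c • a) = c • Lm j a := by
  apply ext_j hd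
  intro x
  show Lm j (c • a) (j x) = c • Lm j a (j x)
  rw [Lm_j h hd hj hB, Lm_j h hd hj hB, smul_mul_assoc, map_smul]

theorem Lm_mem_MG (G : Subgroup (unitary A)) (g : unitary A) (hg : g ∈ G) :
    Lm j (g : A) ∈ MG j G := by
  unfold MG
  rw [mem_vnGen]
  intro t ht
  rw [StarSubalgebra.mem_centralizer_iff (R := ℂ)] at ht
  have h1 := ht _ ⟨g, hg, rfl⟩
  refine ⟨h1.1.symm, ?_⟩
  have h2 := congrArg star h1.2
  rw [star_mul, star_mul, star_star] at h2
  exact h2

/-- the element of the von Neumann algebra given by a group element -/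
noncomputable def mG (j : A →ₗ[ℂ] K) (G : Subgroup (unitary A)) (g : G) : Elt (MG j G) :=
  ⟨Lm j ((g : unitary A) : A), Lm_mem_MG G g.1 g.2⟩

include h hd hj hB in
theorem mG_mul (G : Subgroup (unitary A)) (g k : G) : mG j G (g * k) = mG j G g * mG j G k :=
  Subtype.ext (Lm_mul_aux h hd hj hB _ _)

include h hd hj hB in
theorem mG_one (G : Subgroup (unitary A)) : mG j G 1 = 1 :=
  Subtype.ext (Lm_one_aux h hd hj hB)

include h hd hj hB in
theorem star_mG (G : Subgroup (unitary A)) (g : G) : star (mG j G g) = mG j G g⁻¹ :=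
  Subtype.ext (star_Lm h hd hj hB _)

end aux37021

theorem hasT_MG (h : TrAlg τ) {j : A →ₗ[ℂ] K} (hd : DenseRange j)
    (hj : ∀ x y, ⟪j x, j y⟫_ℂ = τ (star x * y)) {B : Set A} (hB : Ball τ B)
    (G : Subgroup (unitary A))
    (S : Finset G) (ε : ℝ) (hε : 0 < ε)
    (hT : ∀ (H : Type) [NormedAddCommGroup H] [InnerProductSpace ℂ H] [CompleteSpace H]
        (ρ : G →* unitary (H →L[ℂ] H)),
        (∃ x : H, ‖x‖ = 1 ∧ ∀ s ∈ S, ‖(ρ s : H →L[ℂ] H) x - x‖ < ε) →
          ∃ x : H, x ≠ 0 ∧ ∀ g : G, (ρ g : H →L[ℂ] H) x = x)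
    (hcen : ∀ {H : Type} [NormedAddCommGroup H] [InnerProductSpace ℂ H] [CompleteSpace H]
      (L : Elt (MG j G) →⋆ₐ[ℂ] (H →L[ℂ] H)) (R : (Elt (MG j G))ᵐᵒᵖ →⋆ₐ[ℂ] (H →L[ℂ] H)),
      IsBimodule (MG j G) L R → ∀ η : H,
      (∀ y : Elt (MG j G), (∃ b ∈ SG G, (y : K →L[ℂ] K) = Lm j b) →
        L y η = R (MulOpposite.op y) η) → ∀ x, L x η = R (MulOpposite.op x) η) :
    HasT (MG j G) := by
  classical
  refine ⟨S.image (mG j G), ε, hε, ?_⟩
  intro H _ _ _ L R hLR hξ
  obtain ⟨ξ, hξ1, hξ2⟩ := hξ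
  have hmul := mG_mul h hd hj hB G
  have hone := mG_one h hd hj hB G
  have hstar := star_mG h hd hj hB G
  -- the right inverse relations
  have hR1 : ∀ g : G, R (MulOpposite.op (mG j G g⁻¹)) * R (MulOpposite.op (mG j G g)) = 1 := by
    intro g
    rw [← map_mul, ← MulOpposite.op_mul, ← hmul, mul_inv_cancel, hone, MulOpposite.op_one, map_one]
  have hR2 : ∀ g : G, R (MulOpposite.op (mG j G g)) * R (MulOpposite.op (mG j G g⁻¹)) = 1 := by
    intro g
    rw [← map_mul, ← MulOpposite.op_mul, ← hmul, inv_mul_cancel, hone, MulOpposite.op_one, map_one]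
  have hL1 : ∀ g : G, L (mG j G g) * L (mG j G g⁻¹) = 1 := by
    intro g
    rw [← map_mul, ← hmul, mul_inv_cancel, hone, map_one]
  have hL2 : ∀ g : G, L (mG j G g⁻¹) * L (mG j G g) = 1 := by
    intro g
    rw [← map_mul, ← hmul, inv_mul_cancel, hone, map_one]
  have hsR : ∀ g : G, star (R (MulOpposite.op (mG j G g⁻¹))) = R (MulOpposite.op (mG j G g)) := by
    intro g
    rw [← map_star, ← MulOpposite.op_star, hstar, inv_inv]
  have hsR' : ∀ g : G, star (R (MulOpposite.op (mG j G g))) = R (MulOpposite.op (mG j G g⁻¹)) := by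
    intro g
    rw [← map_star, ← MulOpposite.op_star, hstar]
  have hsL : ∀ g : G, star (L (mG j G g)) = L (mG j G g⁻¹) := by
    intro g
    rw [← map_star, hstar]
  have hUR : ∀ g : G, R (MulOpposite.op (mG j G g⁻¹)) ∈ unitary (H →L[ℂ] H) := by
    intro g
    rw [Unitary.mem_iff, hsR]
    exact ⟨hR2 g, hR1 g⟩
  have hUL : ∀ g : G, L (mG j G g) ∈ unitary (H →L[ℂ] H) := by
    intro g
    rw [Unitary.mem_iff, hsL]
    exact ⟨hL2 g, hL1 g⟩
  let ρ0 : G →* (H →L[ℂ] H) :=
    { toFun := fun g => L (mG j G g) * R (MulOpposite.op (mG j G g⁻¹))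
      map_one' := by
        show L (mG j G 1) * R (MulOpposite.op (mG j G (1 : G)⁻¹)) = 1
        rw [inv_one, hone, MulOpposite.op_one, map_one, map_one, mul_one]
      map_mul' := by
        intro g k
        show L (mG j G (g * k)) * R (MulOpposite.op (mG j G (g * k)⁻¹)) =
          (L (mG j G g) * R (MulOpposite.op (mG j G g⁻¹))) *
            (L (mG j G k) * R (MulOpposite.op (mG j G k⁻¹)))
        rw [mul_inv_rev, hmul, hmul, MulOpposite.op_mul, map_mul, map_mul]
        have hc := hLR.comm (mG j G k) (MulOpposite.op (mG j G g⁻¹))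
        calc L (mG j G g) * L (mG j G k) *
              (R (MulOpposite.op (mG j G g⁻¹)) * R (MulOpposite.op (mG j G k⁻¹)))
            = L (mG j G g) * (L (mG j G k) * R (MulOpposite.op (mG j G g⁻¹))) *
                R (MulOpposite.op (mG j G k⁻¹)) := by simp only [mul_assoc]
          _ = L (mG j G g) * (R (MulOpposite.op (mG j G g⁻¹)) * L (mG j G k)) *
                R (MulOpposite.op (mG j G k⁻¹)) := by rw [hc]
          _ = _ := by simp only [mul_assoc] }
  let ρ : G →* unitary (H →L[ℂ] H) :=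
    ρ0.codRestrict (unitary (H →L[ℂ] H)) (fun g => mul_mem (hUL g) (hUR g))
  have hρ : ∀ g : G, ((ρ g : unitary (H →L[ℂ] H)) : H →L[ℂ] H) =
      L (mG j G g) * R (MulOpposite.op (mG j G g⁻¹)) := fun g => rfl
  obtain ⟨η, hη0, hη⟩ := hT H ρ ⟨ξ, hξ1, by
    intro s hs
    rw [hρ]
    have e1 : (L (mG j G s) * R (MulOpposite.op (mG j G s⁻¹))) ξ - ξ =
        R (MulOpposite.op (mG j G s⁻¹)) (L (mG j G s) ξ - R (MulOpposite.op (mG j G s)) ξ) := by
      rw [hLR.comm, map_sub]
      have := congrArg (fun T : H →L[ℂ] H => T ξ) (hR1 s)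
      simp only [ContinuousLinearMap.mul_apply, ContinuousLinearMap.one_apply] at this
      rw [this]
      rfl
    rw [e1, ContinuousLinearMap.norm_map_of_mem_unitary (hUR s)]
    exact hξ2 _ (Finset.mem_image_of_mem _ hs)⟩
  refine ⟨η, hη0, ?_⟩
  have hgrp : ∀ g : G, L (mG j G g) η = R (MulOpposite.op (mG j G g)) η := by
    intro g
    have h1 := hη g
    rw [hρ] at h1
    have h2 : R (MulOpposite.op (mG j G g)) ((L (mG j G g) * R (MulOpposite.op (mG j G g⁻¹))) η) =
        R (MulOpposite.op (mG j G g)) η := by rw [h1]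
    rw [← h2]
    have h3 : R (MulOpposite.op (mG j G g)) * (L (mG j G g) * R (MulOpposite.op (mG j G g⁻¹))) =
        L (mG j G g) := by
      rw [← mul_assoc, ← hLR.comm, mul_assoc, hR2, mul_one]
    have h4 := congrArg (fun T : H →L[ℂ] H => T η) h3
    simp only [ContinuousLinearMap.mul_apply] at h4
    simp only [ContinuousLinearMap.mul_apply]
    exact h4.symm
  have hspan : ∀ b ∈ SG G, ∃ y : Elt (MG j G), (y : K →L[ℂ] K) = Lm j b ∧
      L y η = R (MulOpposite.op y) η := by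
    intro b hb
    induction hb using Submodule.span_induction with
    | mem a ha =>
      obtain ⟨g, hg, rfl⟩ := ha
      exact ⟨mG j G ⟨g, hg⟩, rfl, hgrp ⟨g, hg⟩⟩
    | zero =>
      refine ⟨0, ?_, ?_⟩
      · rw [Lm_zero_aux h hd hj hB]; rfl
      · rw [MulOpposite.op_zero, map_zero, map_zero]
    | add a b _ _ ha hb =>
      obtain ⟨y, hy, hy'⟩ := ha
      obtain ⟨z, hz, hz'⟩ := hb
      refine ⟨y + z, ?_, ?_⟩
      · rw [Lm_add_aux h hd hj hB, ← hy, ← hz]; rfl
      · rw [MulOpposite.op_add, map_add, map_add, ContinuousLinearMap.add_apply,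
          ContinuousLinearMap.add_apply, hy', hz']
    | smul c a _ ha =>
      obtain ⟨y, hy, hy'⟩ := ha
      refine ⟨c • y, ?_, ?_⟩
      · rw [Lm_smul_aux h hd hj hB, ← hy]; rfl
      · rw [MulOpposite.op_smul, map_smul, map_smul, ContinuousLinearMap.smul_apply,
          ContinuousLinearMap.smul_apply, hy']
  apply hcen L R hLR η
  rintro y ⟨b, hb, hy⟩
  obtain ⟨z, hz, hz'⟩ := hspan b hb
  have : y = z := Subtype.ext (by rw [hy, hz])
  rw [this]
  exact hz'

end Pool.Agent.Helper159.ET.V8
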