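import Mathlib
import Pool.Agent.Helper159.ET.G
import Pool.Agent.Helper159.ET.VN

set_option autoImplicit false

open scoped InnerProductSpace Topology ComplexOrder BoundedContinuousFunction
open Filter

namespace Pool.Agent.Helper159.ET.V9

open Pool.Agent.Helper278 Pool.Agent.Helper436.SM Pool.Agent.Helper436.SM.ExR
open Pool.Agent.Helper278.TB (HP)

open Pool.Agent.Helper278.CE in
theorem exists_iota {A : Type} [Ring A] [StarRing A] [Algebra ℂ A] [StarModule ℂ A]
    {τ : A →ₗ[ℂ] ℂ} {K : Type} [NormedAddCommGroup K] [InnerProductSpace ℂ K] [CompleteSpace K]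
    (h : TrAlg τ) {j : A →ₗ[ℂ] K} (hd : DenseRange j)
    (hj : ∀ x y, ⟪j x, j y⟫_ℂ = τ (star x * y)) {B : Set A} (hB : CE.Ball τ B)
    (G : Subgroup (unitary A)) {C : Type} [CStarAlgebra C] (c : C →⋆ₐ[ℂ] A)
    (hc : ∀ x, CE.Lm j (c x) ∈ MG j G) :
    ∃ ι : C →⋆ₐ[ℂ] Elt (MG j G), ∀ x, ((ι x : Elt (MG j G)) : K →L[ℂ] K) = CE.Lm j (c x) := by
  set Φ : C →⋆ₐ[ℂ] Elt (MM j) := (LmHom h hd hj hB).comp c with hΦ
  have e1 : ∀ x, ((Φ x : Elt (MM j)) : K →L[ℂ] K) = CE.Lm j (c x) := fun x => rfl
  let ι : C →⋆ₐ[ℂ] Elt (MG j G) :=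
    { toFun := fun x => ⟨CE.Lm j (c x), hc x⟩
      map_one' := by
        apply Subtype.ext
        show CE.Lm j (c 1) = 1
        rw [← e1, map_one]
        rfl
      map_mul' := fun x y => by
        apply Subtype.ext
        show CE.Lm j (c (x * y)) = CE.Lm j (c x) * CE.Lm j (c y)
        rw [← e1, ← e1, ← e1, map_mul]
        rfl
      map_zero' := by
        apply Subtype.ext
        show CE.Lm j (c 0) = 0
        rw [← e1, map_zero]
        rfl
      map_add' := fun x y => by
        apply Subtype.ext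
        show CE.Lm j (c (x + y)) = CE.Lm j (c x) + CE.Lm j (c y)
        rw [← e1, ← e1, ← e1, map_add]
        rfl
      commutes' := fun r => by
        apply Subtype.ext
        show CE.Lm j (c (algebraMap ℂ C r)) = _
        rw [← e1, AlgHomClass.commutes]
        rfl
      map_star' := fun x => by
        apply Subtype.ext
        show CE.Lm j (c (star x)) = star (CE.Lm j (c x))
        rw [← e1, ← e1, map_star]
        rfl }
  exact ⟨ι, fun x => rfl⟩

end Pool.Agent.Helper159.ET.V9
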