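import Mathlib
import Pool.Agent.Helper278.CEIter
import Pool.Agent.Helper278.CEBall
import Pool.Agent.Helper159.ET.JV1
import Pool.Agent.Helper159.ET.JV2
import Pool.Agent.Helper159.ET.JV3
import Pool.Agent.Helper159.ET.JV4
import Pool.Agent.Helper159.ET.JV5
import Pool.Agent.Helper159.ET.JV6
import Pool.Agent.Helper159.ET.JV7
import Pool.Agent.Helper159.ET.JV8
import Pool.Agent.Helper159.ET.JV9
import Pool.Agent.Helper159.ET.JG0
import Pool.Agent.Helper159.ET.JG1
import Pool.Agent.Helper159.ET.JG2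
import Pool.Agent.Helper159.ET.JG3
import Pool.Agent.Helper159.ET.JL1
import Pool.Agent.Helper159.ET.JL2
import Pool.Agent.Helper159.ET.JL3
import Pool.Agent.Helper159.ET.JU1
import Pool.Agent.Helper159.ET.JU2
import Pool.Agent.Helper159.ET.JU3
import Pool.Agent.Helper159.ET.JU4
import Pool.Agent.Helper159.ET.JU5
import Pool.Agent.Helper159.ET.JU6
import Pool.Agent.Helper159.ET.JU7
import Pool.Agent.Helper159.ET.JU8
import Pool.Agent.Helper159.ET.JU9
import Pool.Agent.Helper159.ET.JU10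
import Pool.Agent.Helper945.ET.HaagCP

set_option autoImplicit false

open scoped InnerProductSpace Topology ComplexOrder BoundedContinuousFunction
open Filter

namespace Pool.Agent.Helper159.ET

open Pool.Agent.Helper278 Pool.Agent.Helper436.SM Pool.Agent.Helper436.SM.ExR
open Pool.Agent.Helper278.TB (HP)

/-- The Pauli system of `NP`. -/
theorem pauli_NP : PauliSys TP.τ Wn := by
  refine ⟨?_, ?_, ?_, ?_⟩
  · apply Subtype.ext
    exact Wo_zero
  · intro v w
    apply Subtype.ext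
    exact Wo_mul v w
  · intro v
    apply Subtype.ext
    exact star_Wo v
  · intro v
    show ⟪bb 0, Wo v (bb 0)⟫_ℂ = _
    rw [Wo_bb, coef_bb, bb_apply]
    simp only [eq_comm]

/-- Level unitaries. -/
theorem levels (n : ℕ) :
    ∃ (P : Equiv.Perm (Fin 3 × ZMod (2 * n + 1) → KF) →* unitary (Elt NP))
      (ZZ : (Fin 3 × ZMod (2 * n + 1) → KF) → unitary (Elt NP)),
      (∀ f, (P (Equiv.addLeft f) : Elt NP) = Wn (xs (sn n) f)) ∧
      (∀ f, (ZZ f : Elt NP) = Wn (zs (sn n) f)) ∧ LvlRel P ZZ := by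
  classical
  refine G3.level (fun n => ?_) (fun n => ?_) n
  · exact G1.gates1 pauli_NP (sn n) (U2.sn_inj n) (G0.gates0 pauli_NP (sn n) (U2.sn_inj n))
  · exact G2.level_rel pauli_NP (sn n) (U2.sn_inj n)

/-- For every nonprincipal ultrafilter on `ℕ` there is a II₁ factor `N` with the Haagerup property
(the hyperfinite II₁ factor) and an existential embedding of `N` in a tracial von Neumann algebra
`M` with property (T). -/
theorem main (U : Ultrafilter ℕ) (hU : ∀ n, {n} ∉ U) :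
    ∃ (H : Type) (_ : NormedAddCommGroup H) (_ : InnerProductSpace ℂ H) (_ : CompleteSpace H)
      (N : VonNeumannAlgebra H) (τ : Elt N → ℂ)
      (K : Type) (_ : NormedAddCommGroup K) (_ : InnerProductSpace ℂ K) (_ : CompleteSpace K)
      (M : VonNeumannAlgebra K) (σ : Elt M → ℂ) (ι : Elt N →⋆ₐ[ℂ] Elt M),
      IsIIOneFactor N τ ∧ HasHaagerup N τ ∧ IsTracialVN M σ ∧ IsExistential U τ σ ι ∧ HasT M := by
  classical
  obtain ⟨Q, i1, i2, i3, i4, π, σ, hπ⟩ := exists_ultrapower TP U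
  have hA := sigma_trAlg hπ
  obtain ⟨K, j1, j2, j3, j, hd, hj⟩ := CE.exists_gns hA
  have hB := CE.ball_ultra hU hπ
  obtain ⟨F, hF⟩ := U1.exists_PU π
  choose P ZZ hP hZ hR using levels
  let u : LI → KF → unitary Q := fun p c => F (fun n => ln (P n) (ZZ n) (tt n) p c)
  let G : Subgroup (unitary Q) := Subgroup.closure {g | ∃ p c, g = u p c}
  have hG : ∀ (p : LI) (c : KF), F (fun n => ln (P n) (ZZ n) (tt n) p c) ∈ G := fun p c =>
    Subgroup.subset_closure ⟨p, c, rfl⟩
  have hadd : ∀ p a b, u p (a + b) = u p a * u p b := by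
    intro p a b
    show F _ = F _ * F _
    rw [← map_mul]
    congr 1
    funext n
    exact L3.ln_add (P n) (ZZ n) (hR n) (tt n) p a b
  have hpair : ∀ p q, p ≠ q → HP (u p) (u q) := by
    intro p q hpq
    have h1 : ∀ n, HP (ln (P n) (ZZ n) (tt n) p) (ln (P n) (ZZ n) (tt n) q) := by
      intro n
      rcases L1.lines_HP (P n) (ZZ n) (hR n) (tt n) p q hpq with h | h
      · exact h
      · exact U5.HP_symm _ _ h (L3.ln_add (P n) (ZZ n) (hR n) (tt n) q)
    exact U5.HP_map F _ _ (U5.HP_pi _ _ h1)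
  obtain ⟨S, ε, hε, hT⟩ := U10.propT_G G u rfl hadd hpair (fun G u u' h => U5.HP_sub G u u' h)
  have hle : ∀ T, T ∈ MG j G → T ∈ CE.MM j := V3.MG_le hA hd hj hB G
  have happ : ∀ (T : K →L[ℂ] K), T ∈ MG j G → ∀ ε : ℝ, 0 < ε →
      ∃ a ∈ SG G, ‖T (j 1) - j a‖ < ε := V2.approx_MG hA hd hj hB G
  have hMT : HasT (MG j G) := by
    refine V8.hasT_MG hA hd hj hB G S ε hε hT ?_
    intro H' _ _ _ L R hLR η hη x
    obtain ⟨C, a, ha, hC, hlim⟩ := V6.kap_MG hA hd hj hB G hle happ x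
    exact V7.bimod_central hA hd hj hB G x C a hle hC hlim L R hLR η (fun n => hη (a n) (ha n))
  obtain ⟨c, hc1, hc2, hc3⟩ := U7.const_emb hπ
  have hstr : ∀ v : VV, ∃ g ∈ G, ∃ s : ℂ,
      π (BoundedContinuousFunction.const ℕ (Wn v)) = s • (g : Q) := by
    intro v
    exact U8.strings_in hU hπ F hF P ZZ hP hZ hR G hG (fun b b' h => U1.pi_congr hπ b b' h)
      (fun n i k hk c => U2.xs_dl n i k hk c) (fun n i k hk c => U2.zs_dl n i k hk c)
      (fun p h0 h1 h2 h3 v => U3.strings_closure p h0 h1 h2 h3 v)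
      (fun G x e tz h1 h2 h3 h4 => U4.all_sites G x e tz h1 h2 h3 h4)
      (fun G x e tz h1 h2 h3 h4 => U4.all_sites' G x e tz h1 h2 h3 h4)
      (fun P i a k c => L2.X_step P i a k c)
      (fun P ZZ h i a k c => L2.Z_step P ZZ h i a k c) v
  have hmem : ∀ x : Elt NP, CE.Lm j (c x) ∈ MG j G := by
    intro x
    refine V1.mem_MG_of hA hd hj hB G (c x) ?_
    intro ε hε
    obtain ⟨a, ha, hae⟩ := U6.dense_W x ε hε
    refine ⟨c a, ?_, ?_⟩
    · refine Submodule.span_induction (p := fun a _ => c a ∈ SG G) ?_ ?_ ?_ ?_ ha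
      · rintro _ ⟨v, rfl⟩
        obtain ⟨g, hg, s, hs⟩ := hstr v
        rw [hc1, hs]
        exact Submodule.smul_mem _ _ (Submodule.subset_span ⟨g, hg, rfl⟩)
      · rw [map_zero]
        exact Submodule.zero_mem _
      · intro x y _ _ h1 h2
        rw [map_add]
        exact Submodule.add_mem _ h1 h2
      · intro s x _ h1
        rw [map_smul]
        exact Submodule.smul_mem _ _ h1
    · rw [← map_sub, hc3]
      exact hae
  obtain ⟨ι, hι⟩ := V9.exists_iota hA hd hj hB G c hmem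
  obtain ⟨θ, hθ1, hθ2, hθ3⟩ := V5.exists_incl hA hd hj hB G hle
  have hθι : ∀ x, θ (ι x) = c x := fun x => hθ3 (c x) (ι x) (hι x)
  refine ⟨EllTwo VV, inferInstance, inferInstance, inferInstance, NP, fun x => TP.τ x,
    K, j1, j2, j3, MG j G, tauG j G, ι, U9.isIIOne_NP,
    Pool.Agent.Helper945.ET.haagerup_NP,
    V4.tracial_MG hA hd hj hB G, ⟨?_, ?_⟩, hMT⟩
  · intro x
    rw [← hθ2, hθι]
    exact hc2 x
  · refine ⟨Q, i1, i2, i3, CE.plain π, σ, θ, CE.plain_tracial hπ, ?_, ?_⟩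
    · intro y
      exact hθ2 y
    · intro x
      rw [hθι, hc1]
      exact (CE.plain_of π _ _ (fun n => rfl)).symm

end Pool.Agent.Helper159.ET
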